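import Pool.Agent.Y209.DC.Stm

set_option autoImplicit false
open MeasureTheory Set Metric
open scoped ENNReal NNReal
open Pool.Agent.H985.Dense

namespace Pool.Agent.Y209.DC

variable {g : E3 → ℝ} {R L : ℝ}

lemma gd_zero (h : GaugeData g R L) : g 0 = 0 := by
  have := h.smul 0 0 le_rfl
  simpa using this

lemma gd_le (h : GaugeData g R L) (x : E3) : g x ≤ L * ‖x‖ := by
  have h1 := h.lip x 0
  rw [gd_zero h, sub_zero, sub_zero] at h1
  exact (le_abs_self _).trans h1

lemma norm_face5 (i : Fin 3) {s : ℝ} (hs : |s| = 1) {z : ℝ × ℝ} (hz : z ∈ Q0) :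
    ‖face i s ((2 : ℝ) • z)‖ ≤ 5 := by
  rw [face]
  refine (norm_add_le _ _).trans ?_
  rw [PiLp.norm_single, Real.norm_eq_abs, hs]
  have h1 := norm_ell_le i ((2 : ℝ) • z)
  rw [norm_smul, Real.norm_eq_abs, abs_of_pos (by norm_num : (0:ℝ) < 2)] at h1
  rw [mem_closedBall_zero_iff] at hz
  linarith

lemma face_ne (i : Fin 3) {s : ℝ} (hs : |s| = 1) (z : ℝ × ℝ) : face i s z ≠ 0 := by
  intro h
  have := one_le_norm_face i hs z
  rw [h, norm_zero] at this
  linarith

/-- the map `v ↦ v / g v` is Lipschitz on bounded sets away from zero -/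
lemma lip_rad5 (h : GaugeData g R L) {x y : E3} (hx : 1 ≤ ‖x‖) (hy : 1 ≤ ‖y‖)
    (hx3 : ‖x‖ ≤ 5) : ‖(g x)⁻¹ • x - (g y)⁻¹ • y‖ ≤ (5 * R ^ 2 * L + R) * ‖x - y‖ := by
  have hR := h.R0
  have hL := h.L0
  have hx0 : x ≠ 0 := by rintro rfl; simp at hx; linarith
  have hy0 : y ≠ 0 := by rintro rfl; simp at hy; linarith
  have gx := h.pos hx0
  have gy := h.pos hy0
  have ix := h.inv_le hx
  have iy := h.inv_le hy
  have e : (g x)⁻¹ • x - (g y)⁻¹ • y = ((g x)⁻¹ - (g y)⁻¹) • x + (g y)⁻¹ • (x - y) := by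
    rw [sub_smul, smul_sub]; abel
  rw [e]
  refine (norm_add_le _ _).trans ?_
  rw [norm_smul, norm_smul, Real.norm_eq_abs, Real.norm_eq_abs, abs_of_pos (inv_pos.mpr gy)]
  have h1 : |(g x)⁻¹ - (g y)⁻¹| ≤ R ^ 2 * (L * ‖x - y‖) := by
    have e2 : (g x)⁻¹ - (g y)⁻¹ = (g x)⁻¹ * (g y)⁻¹ * (g y - g x) := by
      field_simp
    rw [e2, abs_mul, abs_of_pos (by positivity)]
    have h3 : |g y - g x| ≤ L * ‖x - y‖ := by rw [abs_sub_comm]; exact h.lip x y
    have h4 : (g x)⁻¹ * (g y)⁻¹ ≤ R ^ 2 := by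
      rw [sq]; exact mul_le_mul ix iy (inv_pos.mpr gy).le hR.le
    exact mul_le_mul h4 h3 (abs_nonneg _) (by positivity)
  have h5 : |(g x)⁻¹ - (g y)⁻¹| * ‖x‖ ≤ R ^ 2 * (L * ‖x - y‖) * 5 :=
    mul_le_mul h1 hx3 (norm_nonneg _) (by positivity)
  have h6 : (g y)⁻¹ * ‖x - y‖ ≤ R * ‖x - y‖ := mul_le_mul_of_nonneg_right iy (norm_nonneg _)
  linarith

lemma coord_le (v : E3) (m : Fin 3) : |v m| ≤ ‖v‖ := by
  have := PiLp.norm_apply_le v m
  rwa [Real.norm_eq_abs] at this

/-- one coordinate of the lower bound -/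
lemma coord_anti {α β x y s a b : ℝ} (hα : 0 < α) {M n : ℝ} (hαM : 1 / α ≤ M) (hs : |s| = 1)
    (hy : |y| ≤ 2) (h1 : |α * x - β * y| ≤ n) (h2 : |α * s - β * s| ≤ n) (hn : 0 ≤ n)
    (ha : x = 2 * a) (hb : y = 2 * b) : |a - b| ≤ 2 * M * n := by
  have hM : 0 < M := lt_of_lt_of_le (by positivity) hαM
  have e : α * (x - y) = (α * x - β * y) + y * (β - α) := by ring
  have h3 : |β - α| ≤ n := by
    have e2 : |α * s - β * s| = |β - α| := by
      rw [← sub_mul, abs_mul, hs, mul_one, abs_sub_comm]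
    rwa [e2] at h2
  have h4 : α * |x - y| ≤ 3 * n := by
    have e0 : α * |x - y| = |α * (x - y)| := by rw [abs_mul, abs_of_pos hα]
    rw [e0, e]
    refine (abs_add_le _ _).trans ?_
    rw [abs_mul]
    have : |y| * |β - α| ≤ 2 * n := mul_le_mul hy h3 (abs_nonneg _) (by norm_num)
    linarith
  have h5 : |x - y| ≤ 3 * n * M := by
    have h6 : |x - y| ≤ 3 * n * (1 / α) := by
      rw [mul_one_div, le_div_iff₀ hα]; linarith
    exact h6.trans (mul_le_mul_of_nonneg_left hαM (by positivity))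
  have e3 : x - y = 2 * (a - b) := by rw [ha, hb]; ring
  rw [e3, abs_mul, abs_of_pos (by norm_num : (0:ℝ) < 2)] at h5
  nlinarith [mul_nonneg hn hM.le]

theorem t_ANTI : S_ANTI := by
  intro R L
  refine ⟨1 + 4 * (5 * R ^ 2 * |L| + |R|) + 10 * |L|, by
    have := abs_nonneg L
    have := abs_nonneg R
    have : 0 ≤ 5 * R ^ 2 * |L| := by positivity
    linarith, ?_⟩
  intro g hg z0 i s hs
  have hR := hg.R0
  have hL := hg.L0
  rw [abs_of_pos hR, abs_of_pos hL]
  constructor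
  · intro p hp q hq
    rw [dist_eq_norm, dist_eq_norm]
    have e : rch g z0 i s p - rch g z0 i s q =
        (g (face i s ((2 : ℝ) • p)))⁻¹ • face i s ((2 : ℝ) • p) -
          (g (face i s ((2 : ℝ) • q)))⁻¹ • face i s ((2 : ℝ) • q) := by
      unfold rch; abel
    rw [e]
    refine (lip_rad5 hg (one_le_norm_face i hs _) (one_le_norm_face i hs _)
      (norm_face5 i hs hp)).trans ?_
    rw [face_sub, ← smul_sub]
    have h1 := norm_ell_le i ((2 : ℝ) • (p - q))
    rw [norm_smul, Real.norm_eq_abs, abs_of_pos (by norm_num : (0:ℝ) < 2)] at h1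
    have h2 := mul_le_mul_of_nonneg_left h1 (by positivity : 0 ≤ 5 * R ^ 2 * L + R)
    have h3 := norm_nonneg (p - q)
    nlinarith
  · intro p hp q hq
    obtain ⟨u, hu⟩ : ∃ u, u = face i s ((2 : ℝ) • p) := ⟨_, rfl⟩
    obtain ⟨v, hv⟩ : ∃ v, v = face i s ((2 : ℝ) • q) := ⟨_, rfl⟩
    have hgu : 0 < g u := by rw [hu]; exact hg.pos (face_ne i hs _)
    have hgv : 0 < g v := by rw [hv]; exact hg.pos (face_ne i hs _)
    have hn : ∀ m, |(g u)⁻¹ * u m - (g v)⁻¹ * v m| ≤ dist (rch g z0 i s p) (rch g z0 i s q) := by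
      intro m
      have e : rch g z0 i s p - rch g z0 i s q = (g u)⁻¹ • u - (g v)⁻¹ • v := by
        unfold rch; rw [← hu, ← hv]; abel
      rw [dist_eq_norm, e]
      have := coord_le ((g u)⁻¹ • u - (g v)⁻¹ • v) m
      simpa using this
    have hM : 1 / (g u)⁻¹ ≤ 5 * L := by
      rw [one_div, inv_inv]
      refine (gd_le hg u).trans ?_
      have := norm_face5 i hs hp
      rw [← hu] at this
      nlinarith
    have hui : u i = s := by rw [hu]; exact face_self _ _ _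
    have hvi : v i = s := by rw [hv]; exact face_self _ _ _
    have hi := hn i
    rw [hui, hvi] at hi
    rw [mem_Q0] at hp hq
    have hq1 : |2 * q.1| ≤ 2 := by
      rw [abs_mul, abs_of_pos (by norm_num : (0:ℝ) < 2)]; linarith [hq.1]
    have hq2 : |2 * q.2| ≤ 2 := by
      rw [abs_mul, abs_of_pos (by norm_num : (0:ℝ) < 2)]; linarith [hq.2]
    have hu1 : u (i + 1) = 2 * p.1 := by rw [hu, face_one]; simp
    have hu2 : u (i + 2) = 2 * p.2 := by rw [hu, face_two]; simp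
    have hv1 : v (i + 1) = 2 * q.1 := by rw [hv, face_one]; simp
    have hv2 : v (i + 2) = 2 * q.2 := by rw [hv, face_two]; simp
    have k1 := coord_anti (inv_pos.mpr hgu) hM hs (by rw [hv1]; exact hq1) (hn (i + 1)) hi
      dist_nonneg hu1 hv1
    have k2 := coord_anti (inv_pos.mpr hgu) hM hs (by rw [hv2]; exact hq2) (hn (i + 2)) hi
      dist_nonneg hu2 hv2
    rw [Prod.dist_eq, Real.dist_eq, Real.dist_eq]
    obtain ⟨d, hd⟩ : ∃ d, d = dist (rch g z0 i s p) (rch g z0 i s q) := ⟨_, rfl⟩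
    rw [← hd] at k1 k2 ⊢
    have hd0 : 0 ≤ d := by rw [hd]; exact dist_nonneg
    have hbig : 2 * (5 * L) * d ≤ (1 + 4 * (5 * R ^ 2 * L + R) + 10 * L) * d := by
      apply mul_le_mul_of_nonneg_right _ hd0
      have : 0 ≤ 5 * R ^ 2 * L := by positivity
      linarith
    exact max_le (k1.trans hbig) (k2.trans hbig)

theorem t_LOCS : S_LOCS := by
  intro R L
  refine ⟨1 / (24 * (|L| + 1)), by positivity, ?_⟩
  intro g hg z0 i s hs z hz w hw hd
  have hR := hg.R0
  have hL := hg.L0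
  rw [abs_of_pos hL] at hd
  obtain ⟨u, hu⟩ : ∃ u, u = face i s ((2 : ℝ) • z) := ⟨_, rfl⟩
  have hgu : 0 < g u := by rw [hu]; exact hg.pos (face_ne i hs _)
  obtain ⟨α, hα⟩ : ∃ α, α = (g u)⁻¹ := ⟨_, rfl⟩
  have hα0 : 0 < α := by rw [hα]; exact inv_pos.mpr hgu
  obtain ⟨y, hy⟩ : ∃ y, y = w - z0 := ⟨_, rfl⟩
  rw [← hy] at hw
  have h2z : (2 : ℝ) • z ∈ Q0 := by
    rw [mem_closedBall_zero_iff] at hz ⊢
    rw [norm_smul, Real.norm_eq_abs, abs_of_pos (by norm_num : (0:ℝ) < 2)]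
    linarith
  have hun : ‖u‖ ≤ 3 := by rw [hu]; exact norm_face_le i hs h2z
  have hαge : 1 / (3 * L) ≤ α := by
    rw [hα, ← one_div]
    apply one_div_le_one_div_of_le hgu
    refine (gd_le hg u).trans ?_
    nlinarith
  obtain ⟨ρ, hρ⟩ : ∃ ρ, ρ = 1 / (24 * (L + 1)) := ⟨_, rfl⟩
  rw [← hρ] at hd
  have hρα : 8 * ρ ≤ α := by
    refine le_trans ?_ hαge
    rw [hρ]
    have e : 8 * (1 / (24 * (L + 1))) = 1 / (3 * (L + 1)) := by field_simp; norm_num
    rw [e]
    apply one_div_le_one_div_of_le (by positivity)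
    linarith
  have hcoord : ∀ m, |y m - α * u m| ≤ ρ := by
    intro m
    have e : w - rch g z0 i s z = y - α • u := by
      unfold rch; rw [← hu, ← hα, hy]; abel
    rw [dist_eq_norm, e] at hd
    have := (coord_le (y - α • u) m).trans hd
    simpa using this
  have hum : ∀ m, |u m| ≤ 1 := by
    intro m
    rw [mem_Q0] at h2z
    rcases three i m with rfl | rfl | rfl
    · rw [hu, face_self, hs]
    · rw [hu, face_one]; exact h2z.1
    · rw [hu, face_two]; exact h2z.2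
  have hss : s * s = 1 := by
    have := abs_mul_abs_self s
    rw [hs] at this
    linarith
  obtain ⟨a, ha⟩ : ∃ a, a = s * y i := ⟨_, rfl⟩
  have hage : 7 / 8 * α ≤ a := by
    have h1 := hcoord i
    have hui : u i = s := by rw [hu]; exact face_self _ _ _
    rw [hui] at h1
    have h2 : |s * (y i - α * s)| ≤ ρ := by rw [abs_mul, hs, one_mul]; exact h1
    have e : s * (y i - α * s) = a - α := by
      rw [ha]
      have : s * (α * s) = α * (s * s) := by ring
      rw [mul_sub, this, hss, mul_one]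
    rw [e, abs_le] at h2
    linarith [h2.1]
  have ha0 : 0 < a := by
    have : 0 < 7 / 8 * α := by positivity
    linarith
  have hym : ∀ m, |y m| ≤ 9 / 8 * α := by
    intro m
    have h1 := hcoord m
    have h2 : |y m| ≤ |y m - α * u m| + |α * u m| := by
      have := abs_add_le (y m - α * u m) (α * u m)
      rwa [sub_add_cancel] at this
    rw [abs_mul, abs_of_pos hα0] at h2
    have h3 : α * |u m| ≤ α * 1 := mul_le_mul_of_nonneg_left (hum m) hα0.le
    linarith
  obtain ⟨v, hv⟩ : ∃ v : E3, v = a⁻¹ • y := ⟨_, rfl⟩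
  have hvm : ∀ m, v m = a⁻¹ * y m := fun m => by rw [hv]; rfl
  have hvi : v i = s := by
    rw [hvm]
    have e : y i = a * s := by
      rw [ha]
      calc y i = (s * s) * y i := by rw [hss, one_mul]
        _ = s * y i * s := by ring
    rw [e, ← mul_assoc, inv_mul_cancel₀ ha0.ne', one_mul]
  have hvle : ∀ m, |v m| ≤ 2 := by
    intro m
    rw [hvm, abs_mul, abs_of_pos (inv_pos.mpr ha0), inv_mul_le_iff₀ ha0]
    have := hym m
    linarith
  refine ⟨(v (i + 1) / 2, v (i + 2) / 2), ?_, ?_⟩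
  · rw [mem_Q0]
    constructor
    · rw [abs_div, abs_of_pos (by norm_num : (0:ℝ) < 2)]
      linarith [hvle (i + 1)]
    · rw [abs_div, abs_of_pos (by norm_num : (0:ℝ) < 2)]
      linarith [hvle (i + 2)]
  · have e : (2 : ℝ) • ((v (i + 1) / 2, v (i + 2) / 2) : ℝ × ℝ) = (v (i + 1), v (i + 2)) := by
      ext
      · simp only [Prod.smul_mk, smul_eq_mul]; ring
      · simp only [Prod.smul_mk, smul_eq_mul]; ring
    unfold rch
    rw [e, ← hvi, face_surj, hv, hg.smul _ _ (inv_pos.mpr ha0).le, hw, mul_one, inv_inv, smul_smul,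
      mul_inv_cancel₀ ha0.ne', one_smul, hy]
    abel

end Pool.Agent.Y209.DC
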