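import Pool.Agent.Y209.DC.Stm

set_option autoImplicit false
open MeasureTheory Set Metric
open scoped ENNReal NNReal
open Pool.Agent.H985.Dense

namespace Pool.Agent.Y209.DC

lemma ctr_fst (N j k : ℕ) : (ctr N j k).1 = -1 / 2 + ((j : ℝ) + 1 / 2) / N := rfl
lemma ctr_snd (N j k : ℕ) : (ctr N j k).2 = -1 / 2 + ((k : ℝ) + 1 / 2) / N := rfl

lemma coord_bound {N j : ℕ} (hN : 1 ≤ N) (hj : j < N) :
    |(-1 / 2 + ((j : ℝ) + 1 / 2) / N)| ≤ 1 / 2 - 1 / (2 * N) := by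
  have hN' : (0 : ℝ) < N := by exact_mod_cast hN
  have hj' : (j : ℝ) + 1 ≤ N := by exact_mod_cast hj
  have hj0 : (0 : ℝ) ≤ j := by positivity
  have e : ((j : ℝ) + 1 / 2) / N = 1 - (N - j - 1 / 2) / N := by field_simp; ring
  rw [abs_le]
  constructor
  · have h1 : (1 / 2 : ℝ) / N ≤ ((j : ℝ) + 1 / 2) / N := by gcongr; linarith
    have h2 : (1 / 2 : ℝ) / N = 1 / (2 * N) := by field_simp
    linarith
  · have h1 : (1 / 2 : ℝ) / N ≤ ((N : ℝ) - j - 1 / 2) / N := by gcongr; linarith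
    have h2 : (1 / 2 : ℝ) / N = 1 / (2 * N) := by field_simp
    rw [e]; linarith

lemma cell_sub_Q0 {N j k : ℕ} (hN : 1 ≤ N) (hj : j < N) (hk : k < N) :
    closedBall (ctr N j k) (1 / N) ⊆ Q0 := by
  have hN' : (1 : ℝ) ≤ N := by exact_mod_cast hN
  have hN0 : (0 : ℝ) < N := by linarith
  have e : (1 : ℝ) / (2 * N) = 1 / N / 2 := by field_simp
  have h2 : (1 : ℝ) / N ≤ 1 := by rw [div_le_one hN0]; exact hN'
  intro z hz
  rw [mem_closedBall, Prod.dist_eq, sup_le_iff, Real.dist_eq, Real.dist_eq] at hz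
  rw [mem_Q0]
  have h3 := coord_bound hN hj
  have h4 := coord_bound hN hk
  rw [← ctr_fst N j k] at h3
  rw [← ctr_snd N j k] at h4
  obtain ⟨a1, a2⟩ := hz
  have b1 := abs_le.mp a1
  have b2 := abs_le.mp a2
  have b3 := abs_le.mp h3
  have b4 := abs_le.mp h4
  rw [abs_le, abs_le]
  refine ⟨⟨?_, ?_⟩, ?_, ?_⟩ <;> linarith [b3.1, b3.2, b4.1, b4.2, b1.1, b1.2, b2.1, b2.2]

lemma cell_sub_half {N j k : ℕ} (hN : 1 ≤ N) (hj : j < N) (hk : k < N) :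
    ball (ctr N j k) (1 / (2 * N)) ⊆ ball (0 : ℝ × ℝ) (1 / 2) := by
  intro z hz
  rw [mem_ball, Prod.dist_eq, sup_lt_iff, Real.dist_eq, Real.dist_eq] at hz ⊢
  have h3 := coord_bound hN hj
  have h4 := coord_bound hN hk
  rw [← ctr_fst N j k] at h3
  rw [← ctr_snd N j k] at h4
  simp only [Prod.fst_zero, Prod.snd_zero, sub_zero]
  obtain ⟨a1, a2⟩ := hz
  have b1 := abs_lt.mp a1
  have b2 := abs_lt.mp a2
  have b3 := abs_le.mp h3
  have b4 := abs_le.mp h4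
  rw [abs_lt, abs_lt]
  refine ⟨⟨?_, ?_⟩, ?_, ?_⟩ <;> linarith [b3.1, b3.2, b4.1, b4.2, b1.1, b1.2, b2.1, b2.2]

lemma coord_cover {N : ℕ} (hN : 1 ≤ N) {t : ℝ} (ht : |t| ≤ 1 / 2) :
    ∃ j < N, |t - (-1 / 2 + ((j : ℝ) + 1 / 2) / N)| ≤ 1 / (2 * N) := by
  have hN0 : (0 : ℝ) < N := by exact_mod_cast hN
  rw [abs_le] at ht
  have key : ∀ j : ℕ, (j : ℝ) ≤ (t + 1 / 2) * N → (t + 1 / 2) * N ≤ j + 1 →
      |t - (-1 / 2 + ((j : ℝ) + 1 / 2) / N)| ≤ 1 / (2 * N) := by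
    intro j h1 h2
    have e : t - (-1 / 2 + ((j : ℝ) + 1 / 2) / N) = ((t + 1 / 2) * N - (j + 1 / 2)) / N := by
      field_simp
      ring
    rw [e, abs_div, abs_of_pos hN0, div_le_div_iff₀ hN0 (by positivity)]
    have h3 : |(t + 1 / 2) * N - ((j : ℝ) + 1 / 2)| ≤ 1 / 2 := by
      rw [abs_le]; constructor <;> linarith
    nlinarith
  have h0 : 0 ≤ (t + 1 / 2) * N := by
    have : 0 ≤ t + 1 / 2 := by linarith
    positivity
  by_cases hlt : ⌊(t + 1 / 2) * N⌋₊ < N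
  · exact ⟨_, hlt, key _ (Nat.floor_le h0) (Nat.lt_floor_add_one _).le⟩
  · push Not at hlt
    refine ⟨N - 1, by omega, key _ ?_ ?_⟩
    · have : ((N - 1 : ℕ) : ℝ) ≤ ⌊(t + 1 / 2) * N⌋₊ := by
        exact_mod_cast (by omega : N - 1 ≤ ⌊(t + 1 / 2) * N⌋₊)
      exact this.trans (Nat.floor_le h0)
    · have e : ((N - 1 : ℕ) : ℝ) + 1 = N := by
        have : ((N - 1 : ℕ) : ℝ) = N - 1 := by
          rw [Nat.cast_sub hN]; simp
        rw [this]; ring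
      rw [e]
      nlinarith

lemma cell_cover {N : ℕ} (hN : 1 ≤ N) {z : ℝ × ℝ} (hz : z ∈ closedBall (0 : ℝ × ℝ) (1 / 2)) :
    ∃ j < N, ∃ k < N, z ∈ closedBall (ctr N j k) (1 / (2 * N)) := by
  rw [mem_closedBall, Prod.dist_eq, sup_le_iff, Real.dist_eq, Real.dist_eq] at hz
  simp only [Prod.fst_zero, Prod.snd_zero, sub_zero] at hz
  obtain ⟨j, hj, hj'⟩ := coord_cover hN hz.1
  obtain ⟨k, hk, hk'⟩ := coord_cover hN hz.2
  refine ⟨j, hj, k, hk, ?_⟩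
  rw [mem_closedBall, Prod.dist_eq, sup_le_iff, Real.dist_eq, Real.dist_eq]
  exact ⟨hj', hk'⟩

lemma coord_disj {N : ℕ} (hN : 1 ≤ N) {j j' : ℕ} {t : ℝ}
    (h : |t - (-1 / 2 + ((j : ℝ) + 1 / 2) / N)| < 1 / (2 * N))
    (h' : |t - (-1 / 2 + ((j' : ℝ) + 1 / 2) / N)| < 1 / (2 * N)) : j = j' := by
  have hN0 : (0 : ℝ) < N := by exact_mod_cast hN
  have h1 : |((j : ℝ) - j') / N| < 1 / N := by
    have e : ((j : ℝ) - j') / N = (t - (-1 / 2 + ((j' : ℝ) + 1 / 2) / N)) -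
        (t - (-1 / 2 + ((j : ℝ) + 1 / 2) / N)) := by
      field_simp
      ring
    rw [e]
    refine lt_of_le_of_lt (abs_sub _ _) ?_
    have e2 : (1 : ℝ) / N = 1 / (2 * N) + 1 / (2 * N) := by field_simp; norm_num
    rw [e2]
    exact add_lt_add h' h
  rw [abs_div, abs_of_pos hN0, div_lt_div_iff_of_pos_right hN0] at h1
  rw [abs_lt] at h1
  have h2 : (j : ℝ) < j' + 1 := by linarith [h1.2]
  have h3 : (j' : ℝ) < j + 1 := by linarith [h1.1]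
  have h4 : j < j' + 1 := by exact_mod_cast h2
  have h5 : j' < j + 1 := by exact_mod_cast h3
  omega

lemma cell_disj {N : ℕ} (hN : 1 ≤ N) {j k j' k' : ℕ} {z : ℝ × ℝ}
    (h : z ∈ ball (ctr N j k) (1 / (2 * N))) (h' : z ∈ ball (ctr N j' k') (1 / (2 * N))) :
    j = j' ∧ k = k' := by
  rw [mem_ball, Prod.dist_eq, sup_lt_iff, Real.dist_eq, Real.dist_eq] at h h'
  exact ⟨coord_disj hN h.1 h'.1, coord_disj hN h.2 h'.2⟩

end Pool.Agent.Y209.DC
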