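import Mathlib

set_option autoImplicit false

/-!
A convex function on a square is affine up to its second differences.
-/

open Set Metric

namespace Pool.Agent.Y209.DC

theorem subgrad {E : Type*} [NormedAddCommGroup E] [NormedSpace ℝ E] (G : E → ℝ)
    (hG : ConvexOn ℝ univ G) (hc : Continuous G) (x : E) :
    ∃ l : E →L[ℝ] ℝ, ∀ y, G x + l (y - x) ≤ G y := by
  have h1 : Convex ℝ {p : E × ℝ | p.1 ∈ (univ : Set E) ∧ G p.1 < p.2} := hG.convex_strict_epigraph
  have h2 : IsOpen {p : E × ℝ | p.1 ∈ (univ : Set E) ∧ G p.1 < p.2} := by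
    have : {p : E × ℝ | p.1 ∈ (univ : Set E) ∧ G p.1 < p.2} = {p : E × ℝ | G p.1 < p.2} := by
      ext p; simp
    rw [this]
    exact isOpen_lt (hc.comp continuous_fst) continuous_snd
  have h3 : ((x, G x) : E × ℝ) ∉ {p : E × ℝ | p.1 ∈ (univ : Set E) ∧ G p.1 < p.2} := by
    intro h
    exact lt_irrefl _ h.2
  obtain ⟨f, hf⟩ := geometric_hahn_banach_open_point h1 h2 h3
  set c : ℝ := f (0, 1) with hcdef
  have hdec : ∀ (y : E) (t : ℝ), f (y, t) = f (y, 0) + t * c := by
    intro y t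
    have : ((y, t) : E × ℝ) = (y, 0) + t • ((0 : E), (1 : ℝ)) := by
      ext <;> simp
    rw [this, map_add, map_smul, smul_eq_mul]
  have hc0 : c < 0 := by
    have := hf (x, G x + 1) ⟨mem_univ _, by simp⟩
    rw [hdec x (G x + 1), hdec x (G x)] at this
    linarith
  have hle : ∀ y, f (y, 0) + G y * c ≤ f (x, 0) + G x * c := by
    intro y
    apply le_of_forall_pos_le_add
    intro e he
    have hpos : 0 < e / (-c) := div_pos he (by linarith)
    have := hf (y, G y + e / (-c)) ⟨mem_univ _, by simpa using hpos⟩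
    rw [hdec y (G y + e / (-c)), hdec x (G x)] at this
    have hcne : c ≠ 0 := hc0.ne
    have e1 : e / (-c) * c = - e := by
      rw [div_neg, neg_mul, div_mul_cancel₀ _ hcne]
    nlinarith [this, e1]
  refine ⟨(-c)⁻¹ • (f.comp (ContinuousLinearMap.inl ℝ E ℝ)), fun y => ?_⟩
  have h5 := hle y
  have h6 : (f.comp (ContinuousLinearMap.inl ℝ E ℝ)) (y - x) = f (y, 0) - f (x, 0) := by
    rw [map_sub]
    simp
  have h7 : ((-c)⁻¹ • (f.comp (ContinuousLinearMap.inl ℝ E ℝ))) (y - x)
      = (-c)⁻¹ * (f (y, 0) - f (x, 0)) := by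
    rw [smul_apply, h6, smul_eq_mul]
  rw [h7]
  have h8 : f (y, 0) - f (x, 0) ≤ (-c) * (G y - G x) := by linarith
  have h9 : (-c)⁻¹ * (f (y, 0) - f (x, 0)) ≤ (-c)⁻¹ * ((-c) * (G y - G x)) :=
    mul_le_mul_of_nonneg_left h8 (inv_nonneg.2 (by linarith))
  have h10 : (-c)⁻¹ * ((-c) * (G y - G x)) = G y - G x := by
    have : (-c) ≠ 0 := by linarith
    rw [← mul_assoc, inv_mul_cancel₀ this, one_mul]
  linarith

theorem square_max (K : Set (ℝ × ℝ)) (hK : Convex ℝ K) (x : ℝ × ℝ) (r : ℝ) (hr : 0 < r)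
    (h1 : x + (r, r) ∈ K) (h2 : x - (r, r) ∈ K) (h3 : x + (r, -r) ∈ K) (h4 : x - (r, -r) ∈ K)
    (z : ℝ × ℝ) (hz : z ∈ closedBall x r) : z ∈ K := by
  rw [mem_closedBall, Prod.dist_eq, max_le_iff, Real.dist_eq, Real.dist_eq, abs_le, abs_le] at hz
  obtain ⟨⟨ha, ha'⟩, hb, hb'⟩ := hz
  have key : ∀ u ∈ K, ∀ v ∈ K, ∀ a : ℝ, 0 ≤ a → a ≤ 1 → (1 - a) • u + a • v ∈ K :=
    fun u hu v hv a h h' => hK hu hv (by linarith) h (by ring)
  set a := (z.1 - x.1 + r) / (2 * r) with hadef
  set b := (z.2 - x.2 + r) / (2 * r) with hbdef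
  have a0 : 0 ≤ a := div_nonneg (by linarith) (by linarith)
  have a1 : a ≤ 1 := (div_le_one (by linarith)).2 (by linarith)
  have b0 : 0 ≤ b := div_nonneg (by linarith) (by linarith)
  have b1 : b ≤ 1 := (div_le_one (by linarith)).2 (by linarith)
  have ea : 2 * r * a = z.1 - x.1 + r := by rw [hadef]; field_simp
  have eb : 2 * r * b = z.2 - x.2 + r := by rw [hbdef]; field_simp
  have k1 := key _ h4 _ h1 a a0 a1
  have k2 := key _ h2 _ h3 a a0 a1
  have k3 := key _ k2 _ k1 b b0 b1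
  have : (1 - b) • ((1 - a) • (x - (r, r)) + a • (x + (r, -r))) +
      b • ((1 - a) • (x - (r, -r)) + a • (x + (r, r))) = z := by
    ext
    · simp only [Prod.fst_add, Prod.smul_fst, Prod.fst_sub, smul_eq_mul]
      linear_combination ea
    · simp only [Prod.snd_add, Prod.smul_snd, Prod.snd_sub, smul_eq_mul]
      linear_combination eb
  rwa [this] at k3

theorem conv_core (G : ℝ × ℝ → ℝ) (hG : ConvexOn ℝ univ G) (x : ℝ × ℝ) (r : ℝ) (hr : 0 < r)
    (D : ℝ) (hD : D = (G (x + ((2 * r : ℝ), (2 * r : ℝ))) + G (x - ((2 * r : ℝ), (2 * r : ℝ)))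
      - 2 * G x) + (G (x + ((2 * r : ℝ), -(2 * r : ℝ))) + G (x - ((2 * r : ℝ), -(2 * r : ℝ)))
      - 2 * G x)) :
    ∃ l : ℝ × ℝ →L[ℝ] ℝ, (∀ y, G x + l (y - x) ≤ G y) ∧
    ∀ p ∈ closedBall x r, ∀ q ∈ closedBall x r,
      |G p - G q - l (p - q)| ≤ D / r * dist p q := by
  have hcont : Continuous G := hG.locallyLipschitz.continuous
  obtain ⟨l, hl⟩ := subgrad G hG hcont x
  refine ⟨l, hl, ?_⟩
  set H : ℝ × ℝ → ℝ := fun y => G y - G x - l (y - x) with hH
  have H0 : ∀ y, 0 ≤ H y := by intro y; have := hl y; simp only [hH]; linarith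
  have Hconv : ConvexOn ℝ univ H := by
    refine ⟨convex_univ, ?_⟩
    intro u _ v _ a b ha hb hab
    have h1 := hG.2 (mem_univ u) (mem_univ v) ha hb hab
    have h2 : l (a • u + b • v - x) = a * l (u - x) + b * l (v - x) := by
      have : a • u + b • v - x = a • (u - x) + b • (v - x) := by
        have : x = (a + b) • x := by rw [hab, one_smul]
        nth_rw 1 [this]
        rw [add_smul, smul_sub, smul_sub]
        abel
      rw [this, map_add, map_smul, map_smul, smul_eq_mul, smul_eq_mul]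
    simp only [hH, h2, smul_eq_mul] at h1 ⊢
    have h3 : G x = a * G x + b * G x := by rw [← add_mul, hab, one_mul]
    nlinarith [h1, h3]
  have hsd : ∀ v : ℝ × ℝ, H (x + v) + H (x - v) = G (x + v) + G (x - v) - 2 * G x := by
    intro v
    have e1 : x + v - x = v := by abel
    have e2 : x - v - x = -v := by abel
    simp only [hH, e1, e2, map_neg]
    ring
  have hsum : D = (H (x + ((2 * r : ℝ), (2 * r : ℝ))) + H (x - ((2 * r : ℝ), (2 * r : ℝ)))) +
      (H (x + ((2 * r : ℝ), -(2 * r : ℝ))) + H (x - ((2 * r : ℝ), -(2 * r : ℝ)))) := by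
    rw [hD, hsd, hsd]
  have hK : Convex ℝ {y : ℝ × ℝ | y ∈ (univ : Set (ℝ × ℝ)) ∧ H y ≤ D} := Hconv.convex_le D
  have c1 := H0 (x + ((2 * r : ℝ), (2 * r : ℝ)))
  have c2 := H0 (x - ((2 * r : ℝ), (2 * r : ℝ)))
  have c3 := H0 (x + ((2 * r : ℝ), -(2 * r : ℝ)))
  have c4 := H0 (x - ((2 * r : ℝ), -(2 * r : ℝ)))
  have hmax : ∀ z ∈ closedBall x (2 * r), H z ≤ D := by
    intro z hz
    refine (square_max _ hK x (2 * r) (by linarith) ⟨mem_univ _, ?_⟩ ⟨mem_univ _, ?_⟩
      ⟨mem_univ _, ?_⟩ ⟨mem_univ _, ?_⟩ z hz).2 <;> linarith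
  have D0 : 0 ≤ D := by rw [hsum]; linarith
  have main : ∀ p ∈ closedBall x r, ∀ q ∈ closedBall x r, H p - H q ≤ D / r * dist p q := by
    intro p hp q hq
    rcases eq_or_ne p q with rfl | hne
    · simp
    have hn : 0 < dist p q := dist_pos.2 hne
    set n := dist p q with hndef
    set p' := p + (r / n) • (p - q) with hp'
    have hd : dist p' p = r := by
      rw [hp', dist_eq_norm, add_sub_cancel_left, norm_smul, ← dist_eq_norm, ← hndef,
        Real.norm_of_nonneg (by positivity)]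
      field_simp
    have hp'mem : p' ∈ closedBall x (2 * r) := by
      rw [mem_closedBall] at hp ⊢
      calc dist p' x ≤ dist p' p + dist p x := dist_triangle _ _ _
        _ ≤ r + r := by rw [hd]; linarith
        _ = 2 * r := by ring
    set a := n / (n + r) with hadef
    have a0 : 0 ≤ a := by positivity
    have a1 : a ≤ 1 := (div_le_one (by linarith)).2 (by linarith)
    have ae : a * (1 + r / n) = 1 := by rw [hadef]; field_simp
    have hcomb : (1 - a) • q + a • p' = p := by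
      have : (1 - a) • q + a • p' = q + (a * (1 + r / n)) • (p - q) := by
        rw [hp']
        module
      rw [this, ae, one_smul]
      abel
    have h1 := Hconv.2 (mem_univ q) (mem_univ p') (by linarith : 0 ≤ 1 - a) a0 (by ring)
    rw [hcomb, smul_eq_mul, smul_eq_mul] at h1
    have h2 := hmax p' hp'mem
    have h3 := H0 q
    have h4 : a ≤ n / r := by
      rw [hadef]
      exact div_le_div_of_nonneg_left hn.le hr (by linarith)
    calc H p - H q ≤ a * (H p' - H q) := by linarith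
      _ ≤ a * D := mul_le_mul_of_nonneg_left (by linarith) a0
      _ ≤ n / r * D := mul_le_mul_of_nonneg_right h4 D0
      _ = D / r * n := by ring
  intro p hp q hq
  have e : G p - G q - l (p - q) = H p - H q := by
    have : p - q = (p - x) - (q - x) := by abel
    rw [this, map_sub]
    simp only [hH]
    ring
  rw [e, abs_le]
  constructor
  · have := main q hq p hp
    rw [dist_comm] at this
    linarith
  · exact main p hp q hq

end Pool.Agent.Y209.DC
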