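import Pool.Agent.Y209.DC.Stm
import Pool.Agent.Y209.DC.ConvCore

set_option autoImplicit false

open MeasureTheory Set Metric

namespace Pool.Agent.Y209.DC

theorem t_CONV : S_CONV := by
  intro G hG x r hr
  exact conv_core G hG x r hr _ rfl

end Pool.Agent.Y209.DC
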