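import Pool.Agent.Y209.DC.Up

set_option autoImplicit false
open MeasureTheory Set Metric
open scoped ENNReal NNReal
open Pool.Agent.H985.Dense

namespace Pool.Agent.Y209.DC

/-- A system of six charts with quantitative properties. -/
structure Fam (S : Set E3) (ψ : Fin 3 × Bool → ℝ × ℝ → E3) (C K0 ρ0 D : ℝ) : Prop where
  chart : ∀ i, Chart S (ψ i) C
  anti : ∀ i, ∀ p ∈ Q0, ∀ q ∈ Q0, dist p q ≤ C * dist (ψ i p) (ψ i q)
  flat : ∀ i, ∀ N : ℕ, 1 ≤ N → ∃ δ : ℕ → ℕ → ℝ, (∀ j k, 0 ≤ δ j k) ∧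
        ∑ j ∈ Finset.range N, ∑ k ∈ Finset.range N, δ j k ≤ K0 * N ∧
        ∀ j < N, ∀ k < N, δ j k ≤ 1 / 8 → Flat (ψ i) (δ j k) (ctr N j k) (1 / N)
  loc : ∀ i, ∀ z ∈ closedBall (0 : ℝ × ℝ) (1 / 2), ∀ w ∈ S, dist w (ψ i z) ≤ ρ0 →
    ∃ z' ∈ Q0, ψ i z' = w
  surj : ∀ x ∈ S, ∃ i, ∃ z ∈ closedBall (0 : ℝ × ℝ) (1 / 2), ψ i z = x
  inj : ∀ i j, ∀ x ∈ ball (0 : ℝ × ℝ) (1 / 2), ∀ y ∈ ball (0 : ℝ × ℝ) (1 / 2),
    ψ i x = ψ j y → i = j ∧ x = y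
  conn : ∀ p ∈ S, ∀ q ∈ S, Cov S ∅ p q D

/-- the constant of the area bound -/
lemma area_bound {C : ℝ} : ∃ a0 : ℝ, 0 ≤ a0 ∧ ∀ (S : Set E3) (ψ : Fin 3 × Bool → ℝ × ℝ → E3)
    (K0 ρ0 D : ℝ), Fam S ψ C K0 ρ0 D → μHE[2] S ≠ ⊤ ∧ (μHE[2] S).toReal ≤ a0 := by
  classical
  obtain ⟨c, hc⟩ := HE_prod
  refine ⟨6 * (C ^ 2 * c), by positivity, ?_⟩
  intro S ψ K0 ρ0 D h
  have h1 : S ⊆ ⋃ i ∈ (Finset.univ : Finset (Fin 3 × Bool)), ψ i '' closedBall (0 : ℝ × ℝ) (1 / 2) := by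
    intro x hx
    obtain ⟨i, z, hz, rfl⟩ := h.surj x hx
    exact mem_iUnion₂.mpr ⟨i, Finset.mem_univ _, z, hz, rfl⟩
  have h2 : μHE[2] S ≤ ENNReal.ofReal (6 * (C ^ 2 * c)) := by
    refine (measure_mono h1).trans ((measure_biUnion_finset_le _ _).trans ?_)
    have h3 : ∀ i ∈ (Finset.univ : Finset (Fin 3 × Bool)),
        μHE[2] (ψ i '' closedBall (0 : ℝ × ℝ) (1 / 2)) ≤ ENNReal.ofReal (C ^ 2 * c) := by
      intro i _
      refine ((h.chart i).HE_image_le hc half_sub_Q0).trans ?_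
      rw [vol_sq 0 (by norm_num : (0:ℝ) ≤ 1 / 2)]
      norm_num
    refine (Finset.sum_le_sum h3).trans ?_
    rw [Finset.sum_const, Finset.card_univ, nsmul_eq_mul]
    simp only [Fintype.card_prod, Fintype.card_fin, Fintype.card_bool]
    rw [← ENNReal.ofReal_natCast, ← ENNReal.ofReal_mul (by positivity)]
    apply ENNReal.ofReal_le_ofReal
    norm_num
  refine ⟨ne_top_of_le_ne_top ENNReal.ofReal_ne_top h2, ?_⟩
  exact ENNReal.toReal_le_of_le_ofReal (by positivity) h2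

theorem Fam.upper (hP : S_PATCH) (hSn : S_SNAKE) {C K0 D : ℝ} (hC : 1 ≤ C) (hK0 : 0 ≤ K0)
    (hD : 0 ≤ D) : ∃ K : ℝ, 0 ≤ K ∧ ∀ (S : Set E3) (ψ : Fin 3 × Bool → ℝ × ℝ → E3) (ρ0 : ℝ),
      Fam S ψ C K0 ρ0 D → S.Nonempty → ∀ ε : ℝ, 0 < ε → √ε ≤ 1 / (16 * C) →
        minLength S ε ≤ ENNReal.ofReal ((μHE[2] S).toReal / (2 * ε) + K / √ε) := by
  classical
  obtain ⟨K1, hK1, hup⟩ := chart_up hP hSn hC hK0
  obtain ⟨a0, ha0, harea⟩ := area_bound (C := C)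
  refine ⟨6 * (K1 + D), by positivity, ?_⟩
  intro S ψ ρ0 h hne ε hε hε1
  have hfin := (harea S ψ K0 ρ0 D h).1
  choose V p q hcov hden using fun i => hup S (ψ i) (h.chart i) (h.anti i) (h.flat i) ε hε hε1
  obtain ⟨x0, hx0⟩ := hne
  obtain ⟨q1, hq1⟩ := combine h.conn Finset.univ V
    (fun i => (μHE[2] (ψ i '' ball (0 : ℝ × ℝ) (1 / 2))).toReal / (2 * ε) + K1 / √ε)
    (fun i _ => ⟨p i, q i, hcov i⟩) x0 hx0
  refine (minLength_le hq1 (ε := ε) ?_).trans ?_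
  · intro x hx
    obtain ⟨i, z, hz, rfl⟩ := h.surj x hx
    obtain ⟨v, hv, hc⟩ := hden i z hz
    exact ⟨v, mem_iUnion₂.mpr ⟨i, Finset.mem_univ _, hv⟩, hc⟩
  · apply ENNReal.ofReal_le_ofReal
    have hb : ball (0 : ℝ × ℝ) (1 / 2) ⊆ Q0 := ball_subset_closedBall.trans half_sub_Q0
    have h1 : ∑ i : Fin 3 × Bool, (μHE[2] (ψ i '' ball (0 : ℝ × ℝ) (1 / 2))).toReal ≤
        (μHE[2] S).toReal := by
      rw [← ENNReal.toReal_sum (fun i _ => img_ne_top (h.chart i) hb)]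
      apply ENNReal.toReal_mono hfin
      rw [← measure_biUnion_finset]
      · apply measure_mono
        apply iUnion₂_subset
        rintro i - _ ⟨z, hz, rfl⟩
        exact (h.chart i).maps z (hb hz)
      · intro i _ j _ hij
        rw [Function.onFun, disjoint_left]
        rintro _ ⟨x, hx, rfl⟩ ⟨y, hy, hxy⟩
        exact hij (h.inj i j x hx y hy hxy.symm).1
      · intro i _
        exact meas_img (h.chart i) (h.anti i) hb measurableSet_ball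
    have h2 : ∑ i : Fin 3 × Bool, ((μHE[2] (ψ i '' ball (0 : ℝ × ℝ) (1 / 2))).toReal / (2 * ε) +
        K1 / √ε + D) = (∑ i : Fin 3 × Bool,
          (μHE[2] (ψ i '' ball (0 : ℝ × ℝ) (1 / 2))).toReal) / (2 * ε) + 6 * (K1 / √ε + D) := by
      simp only [Finset.sum_add_distrib, Finset.sum_div, Finset.sum_const, Finset.card_univ,
        Fintype.card_prod, Fintype.card_fin, Fintype.card_bool, nsmul_eq_mul]
      push_cast
      ring
    rw [h2]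
    have ht0 : 0 < √ε := Real.sqrt_pos.mpr hε
    have ht1 : √ε ≤ 1 := by
      refine hε1.trans ?_
      rw [div_le_one (by positivity)]; linarith
    have h3 : D ≤ D / √ε := by
      rw [le_div_iff₀ ht0]
      nlinarith
    have h4 : (∑ i : Fin 3 × Bool, (μHE[2] (ψ i '' ball (0 : ℝ × ℝ) (1 / 2))).toReal) / (2 * ε) ≤
        (μHE[2] S).toReal / (2 * ε) := by gcongr
    have e : 6 * (K1 + D) / √ε = 6 * (K1 / √ε + D / √ε) := by ring
    rw [e]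
    linarith

theorem Fam.lower (hL : S_LOW) {C K0 ρ0 : ℝ} (hC : 1 ≤ C) (hK0 : 0 ≤ K0) (hρ0 : 0 < ρ0) :
    ∃ K t0 : ℝ, 0 ≤ K ∧ 0 < t0 ∧ ∀ (S : Set E3) (ψ : Fin 3 × Bool → ℝ × ℝ → E3) (D : ℝ),
      Fam S ψ C K0 ρ0 D → ∀ ε : ℝ, 0 < ε → √ε ≤ t0 →
        ENNReal.ofReal ((μHE[2] S).toReal / (2 * ε) - K / √ε) ≤ minLength S ε := by
  classical
  obtain ⟨c, hc⟩ := HE_prod
  obtain ⟨a0, ha0, harea⟩ := area_bound (C := C)
  obtain ⟨K', hK'⟩ : ∃ K' : ℝ, K' = 4 * Real.pi * a0 + 2 * a0 + 4 * Real.pi + 4 +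
    10 * (6 * K0 * (4 * (C ^ 2 * c)) * (12 * C)) := ⟨_, rfl⟩
  have hK'0 : 0 ≤ K' := by rw [hK']; positivity
  have hC0 : 0 < C := by linarith
  refine ⟨K', min (1 / (6 * C)) (ρ0 / 3), hK'0, by positivity, ?_⟩
  intro S ψ D h ε hε hε1
  obtain ⟨hfin, hA⟩ := harea S ψ K0 ρ0 D h
  obtain ⟨A, hAd⟩ : ∃ A, A = (μHE[2] S).toReal := ⟨_, rfl⟩
  rw [← hAd] at hA ⊢
  have hA0 : 0 ≤ A := by rw [hAd]; exact ENNReal.toReal_nonneg
  obtain ⟨t, ht⟩ : ∃ t, t = √ε := ⟨_, rfl⟩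
  have ht0 : 0 < t := by rw [ht]; exact Real.sqrt_pos.mpr hε
  have htt : ε = t ^ 2 := by rw [ht, Real.sq_sqrt hε.le]
  rw [← ht] at hε1 ⊢
  have htC : t ≤ 1 / (6 * C) := hε1.trans (min_le_left _ _)
  have htρ : 3 * t ≤ ρ0 := by
    have := hε1.trans (min_le_right _ _)
    linarith
  have htC' : 6 * C * t ≤ 1 := by
    rw [le_div_iff₀ (by positivity)] at htC; linarith
  have ht1 : t ≤ 1 := by nlinarith
  -- the grid
  obtain ⟨N, hN⟩ : ∃ N : ℕ, N = ⌊1 / (6 * C * t)⌋₊ := ⟨_, rfl⟩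
  have hx1 : 1 ≤ 1 / (6 * C * t) := by rw [le_div_iff₀ (by positivity)]; linarith
  have hNpos : 1 ≤ N := by rw [hN]; exact (Nat.one_le_floor_iff _).mpr hx1
  have hN0 : (0 : ℝ) < N := by exact_mod_cast hNpos
  have hNle : (N : ℝ) ≤ 1 / (6 * C * t) := by rw [hN]; exact Nat.floor_le (by positivity)
  have hNge : 1 / (12 * C * t) ≤ N := by
    have h1 : 1 / (6 * C * t) < N + 1 := by rw [hN]; exact Nat.lt_floor_add_one _
    have h2 : (1 : ℝ) ≤ N := by exact_mod_cast hNpos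
    have e : 1 / (12 * C * t) = 1 / (6 * C * t) / 2 := by field_simp; norm_num
    rw [e]; linarith
  have hNt : C * (3 * t) ≤ 1 / (2 * N) := by
    rw [le_div_iff₀ (by positivity)]
    rw [le_div_iff₀ (by positivity)] at hNle
    linarith
  choose δ hδ0 hδs hδf using fun i => h.flat i N hNpos
  unfold minLength
  refine le_iInf₂ fun γ hγ => ?_
  obtain ⟨⟨hγc, hγS⟩, hγf, hγd⟩ := hγ
  obtain ⟨Λ, hΛ⟩ : ∃ Λ, Λ = (pathLength γ).toReal := ⟨_, rfl⟩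
  have hΛ0 : 0 ≤ Λ := by rw [hΛ]; exact ENNReal.toReal_nonneg
  have hΛe : pathLength γ = ENNReal.ofReal Λ := by rw [hΛ, ENNReal.ofReal_toReal hγf]
  rw [hΛe]
  apply ENNReal.ofReal_le_ofReal
  rcases le_or_gt (a0 / ε) Λ with hbig | hsmall
  · have h1 : A / (2 * ε) ≤ a0 / ε := by
      rw [div_le_div_iff₀ (by positivity) hε]
      nlinarith
    have h2 : 0 ≤ K' / t := by positivity
    linarith
  -- the pieces
  obtain ⟨m, hm⟩ : ∃ m : ℝ, m = C ^ 2 * c * (2 * (1 / N)) ^ 2 := ⟨_, rfl⟩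
  have hm0 : 0 ≤ m := by rw [hm]; positivity
  have hcell : ∀ j < N, ∀ k < N, closedBall (ctr N j k) (1 / N) ⊆ Q0 :=
    fun j hj k hk => cell_sub_Q0 hNpos hj hk
  have hτ : ∀ κ : (Fin 3 × Bool) × Fin N × Fin N, ∃ τ : E3 → P2,
      δ κ.1 κ.2.1 κ.2.2 ≤ 1 / 8 →
      FlatPiece (4 * δ κ.1 κ.2.1 κ.2.2) (ψ κ.1 '' closedBall (ctr N κ.2.1 κ.2.2) (1 / N)) τ := by
    intro κ
    by_cases hd : δ κ.1 κ.2.1 κ.2.2 ≤ 1 / 8
    · obtain ⟨a, b, κ', -, -, -, -, -, τ, hτ⟩ :=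
        (hδf κ.1 κ.2.1 κ.2.1.2 κ.2.2 κ.2.2.2 hd).data (hδ0 _ _ _) (by linarith)
      exact ⟨τ, fun _ => hτ⟩
    · exact ⟨fun _ => 0, fun h => absurd h hd⟩
  choose τ hτ using hτ
  have hlow := hL ((Fin 3 × Bool) × Fin N × Fin N) inferInstance S
    (fun κ => ψ κ.1 '' closedBall (ctr N κ.2.1 κ.2.2) (1 / N)) τ
    (fun κ => δ κ.1 κ.2.1 κ.2.2) (fun _ => m) t t ε Λ γ (fun κ => hδ0 _ _ _) (fun _ => hm0)
    hτ (by
      intro κ
      refine ((h.chart κ.1).HE_image_le hc (hcell _ κ.2.1.2 _ κ.2.2.2)).trans ?_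
      rw [vol_sq _ (by positivity), ← ENNReal.ofReal_mul (by positivity), hm])
    ht0 hε ht0 hΛ0 (by
      intro y hy
      obtain ⟨i, z, hz, rfl⟩ := h.surj y hy
      obtain ⟨j, hj, k, hk, hzc⟩ := cell_cover hNpos hz
      refine ⟨(i, ⟨j, hj⟩, ⟨k, hk⟩), ?_⟩
      intro w hw hd
      have hd' : dist w (ψ i z) ≤ 3 * t := by
        refine hd.trans ?_
        rw [htt]
        nlinarith
      obtain ⟨z', hz', rfl⟩ := h.loc i z hz w hw (hd'.trans htρ)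
      refine ⟨z', ?_, rfl⟩
      have h1 := h.anti i z' hz' z (half_sub_Q0 hz)
      have h2 : dist z' z ≤ 1 / (2 * N) := by
        refine h1.trans (le_trans ?_ hNt)
        exact mul_le_mul_of_nonneg_left hd' hC0.le
      rw [mem_closedBall] at hzc ⊢
      refine (dist_triangle _ _ _).trans ((add_le_add h2 hzc).trans (le_of_eq ?_))
      field_simp
      norm_num)
    hγc hγS (le_of_eq hΛe) (by
      intro x hx
      obtain ⟨s, hs, hd⟩ := hγd x hx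
      refine ⟨s, hs, ?_⟩
      have h3 := (edist_le_intrinsicDist S x (γ s)).trans hd
      rw [edist_dist] at h3
      exact (ENNReal.ofReal_le_ofReal_iff hε.le).mp h3)
  have hsum : ∑ κ : (Fin 3 × Bool) × Fin N × Fin N, δ κ.1 κ.2.1 κ.2.2 * m ≤
      6 * (K0 * N) * m := by
    rw [← Finset.sum_mul]
    apply mul_le_mul_of_nonneg_right _ hm0
    rw [Fintype.sum_prod_type]
    have h1 : ∀ i ∈ (Finset.univ : Finset (Fin 3 × Bool)),
        ∑ x : Fin N × Fin N, δ i x.1 x.2 ≤ K0 * N := by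
      intro i _
      rw [Fintype.sum_prod_type]
      refine le_trans (le_of_eq ?_) (hδs i)
      rw [Finset.sum_range]
      apply Finset.sum_congr rfl
      intro j _
      rw [Finset.sum_range]
    refine (Finset.sum_le_sum h1).trans (le_of_eq ?_)
    rw [Finset.sum_const, Finset.card_univ]
    simp only [Fintype.card_prod, Fintype.card_fin, Fintype.card_bool, nsmul_eq_mul]
    push_cast
    ring
  have hA1 : A ≤ (Λ / t + 1) * (Real.pi * (ε * (1 + t)) ^ 2 + 2 * (ε * (1 + t)) * t) +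
      10 * ∑ κ : (Fin 3 × Bool) × Fin N × Fin N, δ κ.1 κ.2.1 κ.2.2 * m := by
    rw [hAd]
    apply ENNReal.toReal_le_of_le_ofReal _ hlow
    have : 0 ≤ ∑ κ : (Fin 3 × Bool) × Fin N × Fin N, δ κ.1 κ.2.1 κ.2.2 * m :=
      Finset.sum_nonneg fun κ _ => mul_nonneg (hδ0 _ _ _) hm0
    positivity
  have hm2 : 6 * (K0 * N) * m ≤ 6 * K0 * (4 * (C ^ 2 * c)) * (12 * C) * t := by
    have e : 6 * (K0 * N) * m = 6 * K0 * (4 * (C ^ 2 * c)) * (1 / N) := by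
      rw [hm]; field_simp
      ring
    rw [e]
    have h1 : 1 / (N : ℝ) ≤ 12 * C * t := by
      rw [div_le_iff₀ hN0]
      rw [div_le_iff₀ (by positivity)] at hNge
      linarith
    have h2 : 0 ≤ 6 * K0 * (4 * (C ^ 2 * c)) := by positivity
    calc _ ≤ 6 * K0 * (4 * (C ^ 2 * c)) * (12 * C * t) := mul_le_mul_of_nonneg_left h1 h2
      _ = _ := by ring
  have hΛt : Λ * t ^ 2 ≤ a0 := by
    rw [htt, lt_div_iff₀ (by positivity)] at hsmall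
    linarith
  have hmain : (Λ / t + 1) * (Real.pi * (ε * (1 + t)) ^ 2 + 2 * (ε * (1 + t)) * t) ≤
      2 * Λ * t ^ 2 + (4 * Real.pi * a0 + 2 * a0 + 4 * Real.pi + 4) * t := by
    have e : (Λ / t + 1) * (Real.pi * (ε * (1 + t)) ^ 2 + 2 * (ε * (1 + t)) * t) =
        Real.pi * (Λ * t ^ 2) * t * (1 + t) ^ 2 + 2 * Λ * t ^ 2 + 2 * (Λ * t ^ 2) * t +
          Real.pi * t ^ 4 * (1 + t) ^ 2 + 2 * t ^ 3 * (1 + t) := by
      rw [htt]; field_simp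
      ring
    rw [e]
    have hpi := Real.pi_pos
    have hq : (1 + t) ^ 2 ≤ 4 := by nlinarith
    have b1 : Real.pi * (Λ * t ^ 2) * t * (1 + t) ^ 2 ≤ Real.pi * a0 * t * 4 := by gcongr
    have b2 : 2 * (Λ * t ^ 2) * t ≤ 2 * a0 * t := by gcongr
    have ht4 : t ^ 4 ≤ t := by
      have h1 : t ^ 3 ≤ 1 := pow_le_one₀ ht0.le ht1
      calc t ^ 4 = t ^ 3 * t := by ring
        _ ≤ 1 * t := by gcongr
        _ = t := one_mul t
    have ht3 : t ^ 3 ≤ t := by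
      have h1 : t ^ 2 ≤ 1 := pow_le_one₀ ht0.le ht1
      calc t ^ 3 = t ^ 2 * t := by ring
        _ ≤ 1 * t := by gcongr
        _ = t := one_mul t
    have b3 : Real.pi * t ^ 4 * (1 + t) ^ 2 ≤ Real.pi * t * 4 := by gcongr
    have b4 : 2 * t ^ 3 * (1 + t) ≤ 2 * t * 2 := by
      gcongr
      linarith
    nlinarith
  have hfinal : A ≤ 2 * Λ * t ^ 2 + K' * t := by
    rw [hK']
    linarith
  rw [htt]
  have e1 : A / (2 * t ^ 2) - K' / t ≤ A / (2 * t ^ 2) - K' / (2 * t) := by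
    have : K' / (2 * t) ≤ K' / t := by
      apply div_le_div_of_nonneg_left hK'0 ht0
      linarith
    linarith
  refine e1.trans ?_
  have e2 : A / (2 * t ^ 2) - K' / (2 * t) = (A - K' * t) / (2 * t ^ 2) := by
    field_simp
  rw [e2, div_le_iff₀ (by positivity)]
  linarith

end Pool.Agent.Y209.DC
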