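import Pool.Agent.Y209.DC.Stm

set_option autoImplicit false
open MeasureTheory Set Metric
open scoped ENNReal NNReal
open Pool.Agent.H985.Dense

namespace Pool.Agent.Y209.DC

theorem t_LOW : S_LOW := by
  classical
  intro κ _ S P τ δ mm ℓ θ ε Λ γ hδ0 hm0' hflat hP hℓ hε hθ hΛ0 hloc hγ hγS hΛ hdense
  obtain ⟨m, hm0, hm⟩ := discretise hγ (h := θ * ε) (by positivity)
  have hmp : (0:ℝ) < m := by exact_mod_cast hm0
  obtain ⟨r, hr⟩ : ∃ r, r = ε * (1 + θ) := ⟨_, rfl⟩
  have hr0 : 0 < r := by rw [hr]; positivity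
  rw [← hr] at hloc ⊢
  obtain ⟨c, hc⟩ : ∃ c : ℕ → E3, c = fun i : ℕ => γ ((i : ℝ) / m) := ⟨_, rfl⟩
  have hcS : ∀ i ≤ m, c i ∈ S := by
    intro i hi
    rw [hc]
    apply hγS
    have : (i : ℝ) ≤ m := by exact_mod_cast hi
    exact ⟨by positivity, by rw [div_le_one hmp]; exact this⟩
  obtain ⟨s, hs⟩ : ∃ s : ℕ → ℝ, s = fun i => ∑ j ∈ Finset.range i, dist (c j) (c (j + 1)) := ⟨_, rfl⟩
  have hsmono : Monotone s := by
    apply monotone_nat_of_le_succ
    intro n
    rw [hs]
    simp only [Finset.sum_range_succ]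
    linarith [dist_nonneg (x := c n) (y := c (n + 1))]
  have hs0 : ∀ i, 0 ≤ s i := fun i => by rw [hs]; exact Finset.sum_nonneg fun _ _ => dist_nonneg
  have hsm : s m ≤ Λ := by
    have h1 : ENNReal.ofReal (s m) ≤ ENNReal.ofReal Λ := by
      refine le_trans ?_ hΛ
      let u : ℕ → ℝ := fun i => min ((i : ℝ) / m) 1
      have hu : Monotone u := by
        intro i j hij
        have : (i : ℝ) ≤ j := by exact_mod_cast hij
        exact min_le_min_right _ (div_le_div_of_nonneg_right this hmp.le)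
      have hus : ∀ i, u i ∈ Icc (0:ℝ) 1 := fun i =>
        ⟨le_min (by positivity) zero_le_one, min_le_right _ _⟩
      have h2 := eVariationOn.sum_le (f := γ) (s := Icc (0:ℝ) 1) (n := m) hu hus
      refine le_trans (le_of_eq ?_) h2
      rw [hs, ENNReal.ofReal_sum_of_nonneg (fun _ _ => dist_nonneg)]
      apply Finset.sum_congr rfl
      intro i hi
      have hi' : i < m := Finset.mem_range.mp hi
      have hi1 : (i : ℝ) + 1 ≤ m := by exact_mod_cast hi'
      have e1 : u i = (i : ℝ) / m := min_eq_left (by rw [div_le_one hmp]; linarith)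
      have e2 : u (i + 1) = ((i + 1 : ℕ) : ℝ) / m :=
        min_eq_left (by rw [div_le_one hmp]; push_cast; linarith)
      rw [e1, e2, hc, edist_comm, edist_dist]
    exact (ENNReal.ofReal_le_ofReal_iff hΛ0).mp h1
  have hdist : ∀ i j, i ≤ j → dist (c i) (c j) ≤ s j - s i := by
    intro i j hij
    have h1 := dist_le_Ico_sum_dist c hij
    have h2 : s j - s i = ∑ l ∈ Finset.Ico i j, dist (c l) (c (l + 1)) := by
      rw [hs, Finset.sum_Ico_eq_sub _ hij]
    rw [h2]; exact h1
  obtain ⟨β, hβ⟩ : ∃ β : ℕ → ℕ, β = fun i => ⌊s i / ℓ⌋₊ := ⟨_, rfl⟩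
  have hβdist : ∀ i j, β i = β j → |s i - s j| ≤ ℓ := by
    intro i j hij
    rw [hβ] at hij
    simp only at hij
    have h1 := Nat.floor_le (div_nonneg (hs0 i) hℓ.le)
    have h2 := Nat.lt_floor_add_one (s i / ℓ)
    have h3 := Nat.floor_le (div_nonneg (hs0 j) hℓ.le)
    have h4 := Nat.lt_floor_add_one (s j / ℓ)
    rw [hij] at h1 h2
    rw [le_div_iff₀ hℓ] at h1 h3
    rw [div_lt_iff₀ hℓ] at h2 h4
    rw [abs_le]
    constructor <;> nlinarith
  have hβc : ∀ i j, β i = β j → dist (c i) (c j) ≤ ℓ := by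
    intro i j hij
    rcases le_total i j with h | h
    · refine (hdist i j h).trans ?_
      have := hβdist i j hij
      rw [abs_le] at this; linarith
    · rw [dist_comm]
      refine (hdist j i h).trans ?_
      have := hβdist i j hij
      rw [abs_le] at this; linarith
  obtain ⟨B, hB⟩ : ∃ B : ℕ, B = ⌊Λ / ℓ⌋₊ := ⟨_, rfl⟩
  have hβB : ∀ i ≤ m, β i ≤ B := by
    intro i hi
    rw [hβ, hB]
    apply Nat.floor_le_floor
    apply div_le_div_of_nonneg_right _ hℓ.le
    exact (hsmono hi).trans hsm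
  obtain ⟨w, hw⟩ : ∃ w : ℝ, w = Real.pi * r ^ 2 + 2 * r * ℓ := ⟨_, rfl⟩
  have hw0 : 0 ≤ w := by rw [hw]; positivity
  obtain ⟨Nb, hNb⟩ : ∃ Nb : ℕ → Set E3,
    Nb = fun b => ⋃ i ∈ {i | i ≤ m ∧ β i = b}, closedBall (c i) r := ⟨_, rfl⟩
  -- the piece of a block
  have hkk : ∀ b : ℕ, ∃ k : κ, S ∩ Nb b ⊆ P k := by
    intro b
    by_cases hne : ∃ i, i ≤ m ∧ β i = b
    · obtain ⟨i0, hi0, hb0⟩ := hne
      obtain ⟨k, hk⟩ := hloc (c i0) (hcS i0 hi0)
      refine ⟨k, ?_⟩
      rintro x ⟨hxS, hx⟩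
      rw [hNb, mem_iUnion₂] at hx
      obtain ⟨i, ⟨hi, hib⟩, hx⟩ := hx
      rw [mem_closedBall] at hx
      apply hk x hxS
      have h1 := hβc i i0 (hib.trans hb0.symm)
      have h2 := dist_triangle x (c i) (c i0)
      linarith
    · obtain ⟨k, -⟩ := hloc (c 0) (hcS 0 (Nat.zero_le _))
      refine ⟨k, ?_⟩
      rintro x ⟨-, hx⟩
      rw [hNb, mem_iUnion₂] at hx
      obtain ⟨i, hi, -⟩ := hx
      exact absurd ⟨i, hi⟩ hne
  choose kk hkk using hkk
  -- planar area of a block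
  have hblock : ∀ (b : ℕ) (σ : E3 → P2), (∀ x y, dist (σ x) (σ y) ≤ dist x y) →
      volume (⋃ i ∈ {i | i ≤ m ∧ β i = b}, closedBall (σ (c i)) r) ≤ ENNReal.ofReal w := by
    intro b σ hσ
    by_cases hne : ∃ i, i ≤ m ∧ β i = b
    · let I : Finset ℕ := (Finset.range (m + 1)).filter (fun i => β i = b)
      have hI : I.Nonempty := by
        obtain ⟨i, hi, hib⟩ := hne
        exact ⟨i, Finset.mem_filter.mpr ⟨Finset.mem_range.mpr (Nat.lt_succ_of_le hi), hib⟩⟩
      obtain ⟨i0, hi0⟩ : ∃ i0, i0 = I.min' hI := ⟨_, rfl⟩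
      obtain ⟨i1, hi1⟩ : ∃ i1, i1 = I.max' hI := ⟨_, rfl⟩
      have hm0 : β i0 = b := by
        rw [hi0]; exact (Finset.mem_filter.mp (I.min'_mem hI)).2
      have hm1 : β i1 = b := by
        rw [hi1]; exact (Finset.mem_filter.mp (I.max'_mem hI)).2
      have h01 : i0 ≤ i1 := by rw [hi0, hi1]; exact Finset.min'_le_max' I hI
      obtain ⟨n, hn⟩ : ∃ n, i1 = i0 + n := ⟨i1 - i0, by omega⟩
      have hsub2 : (⋃ i ∈ {i | i ≤ m ∧ β i = b}, closedBall (σ (c i)) r) ⊆
          ⋃ i ∈ Icc i0 (i0 + n), closedBall (σ (c i)) r := by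
        apply biUnion_mono _ (fun _ _ => subset_rfl)
        rintro i ⟨hi, hib⟩
        have hiI : i ∈ I :=
          Finset.mem_filter.mpr ⟨Finset.mem_range.mpr (Nat.lt_succ_of_le hi), hib⟩
        rw [← hn, hi0, hi1]
        exact ⟨Finset.min'_le _ _ hiI, Finset.le_max' _ _ hiI⟩
      refine (measure_mono hsub2).trans ((chain_vol (fun i => σ (c i)) hr0.le i0 n).trans ?_)
      apply ENNReal.ofReal_le_ofReal
      have h2 : ∑ j ∈ Finset.Ico i0 (i0 + n), dist (σ (c j)) (σ (c (j + 1))) ≤ ℓ := by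
        calc _ ≤ ∑ j ∈ Finset.Ico i0 (i0 + n), dist (c j) (c (j + 1)) :=
              Finset.sum_le_sum fun j _ => hσ _ _
          _ = s (i0 + n) - s i0 := by rw [hs, Finset.sum_Ico_eq_sub _ (by omega)]
          _ ≤ ℓ := by
              have := hβdist i0 (i0 + n) (by rw [← hn, hm0, hm1])
              rw [abs_le] at this; linarith
      rw [hw]
      nlinarith
    · have : (⋃ i ∈ {i | i ≤ m ∧ β i = b}, closedBall (σ (c i)) r) = ∅ := by
        simp only [iUnion_eq_empty]
        intro i hi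
        exact absurd ⟨i, hi⟩ hne
      rw [this]; simp
  let T : κ → Finset ℕ := fun k => (Finset.range (B + 1)).filter (fun b => kk b = k)
  have hpiece : ∀ k, μHE[2] (⋃ b ∈ T k, S ∩ Nb b) ≤
      ENNReal.ofReal ((T k).card * w + 10 * (δ k * mm k)) := by
    intro k
    have hcw : 0 ≤ ((T k).card : ℝ) * w := by positivity
    have hdm : 0 ≤ δ k * mm k := mul_nonneg (hδ0 k) (hm0' k)
    have hle : μHE[2] (⋃ b ∈ T k, S ∩ Nb b) ≤ ENNReal.ofReal (mm k) := by
      refine (measure_mono ?_).trans (hP k)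
      apply iUnion₂_subset
      intro b hb
      have := (Finset.mem_filter.mp hb).2
      rw [← this]; exact hkk b
    by_cases hd : δ k ≤ 1 / 8
    · by_cases hcase : ((T k).card : ℝ) * w ≤ mm k
      · have hfl := hflat k hd
        have h1 : ∀ b ∈ T k, μHE[2] (S ∩ Nb b) ≤ ENNReal.ofReal ((1 + 4 * δ k) ^ 2 * w) := by
          intro b hb
          have hbP : S ∩ Nb b ⊆ P k := by
            have := (Finset.mem_filter.mp hb).2
            rw [← this]; exact hkk b
          have h4 : 0 ≤ 1 + 4 * δ k := by linarith [hδ0 k]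
          refine (antilip_HE (f := τ k) h4
            (fun x hx y hy => hfl.anti x (hbP hx) y (hbP hy))).trans ?_
          rw [EuclideanSpace.euclideanHausdorffMeasure_eq_volume,
            ENNReal.ofReal_mul (by positivity)]
          gcongr
          refine (measure_mono ?_).trans (hblock b (τ k) hfl.lip)
          rintro _ ⟨x, ⟨-, hx⟩, rfl⟩
          rw [hNb, mem_iUnion₂] at hx
          obtain ⟨i, hi, hx⟩ := hx
          rw [mem_closedBall] at hx
          rw [mem_iUnion₂]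
          exact ⟨i, hi, (hfl.lip x (c i)).trans hx⟩
        calc μHE[2] (⋃ b ∈ T k, S ∩ Nb b) ≤ ∑ b ∈ T k, μHE[2] (S ∩ Nb b) :=
              measure_biUnion_finset_le _ _
          _ ≤ (T k).card • ENNReal.ofReal ((1 + 4 * δ k) ^ 2 * w) :=
              Finset.sum_le_card_nsmul _ _ _ h1
          _ = ENNReal.ofReal ((T k).card * ((1 + 4 * δ k) ^ 2 * w)) := by
              rw [nsmul_eq_mul, ← ENNReal.ofReal_natCast, ← ENNReal.ofReal_mul (by positivity)]
          _ ≤ _ := by
              apply ENNReal.ofReal_le_ofReal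
              have h2 : (1 + 4 * δ k) ^ 2 ≤ 1 + 10 * δ k := by nlinarith [hδ0 k]
              calc ((T k).card : ℝ) * ((1 + 4 * δ k) ^ 2 * w) =
                    (1 + 4 * δ k) ^ 2 * ((T k).card * w) := by ring
                _ ≤ (1 + 10 * δ k) * ((T k).card * w) := mul_le_mul_of_nonneg_right h2 hcw
                _ = (T k).card * w + 10 * (δ k * ((T k).card * w)) := by ring
                _ ≤ _ := by
                    have := mul_le_mul_of_nonneg_left hcase (hδ0 k)
                    linarith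
      · push Not at hcase
        refine hle.trans (ENNReal.ofReal_le_ofReal ?_)
        linarith
    · push Not at hd
      refine hle.trans (ENNReal.ofReal_le_ofReal ?_)
      have := mul_le_mul_of_nonneg_right hd.le (hm0' k)
      linarith
  have hScov : S ⊆ ⋃ k, ⋃ b ∈ T k, S ∩ Nb b := by
    intro x hx
    obtain ⟨t, ht, hxt⟩ := hdense x hx
    obtain ⟨i, hi, hti⟩ := hm t ht
    have hxi : dist x (c i) ≤ r := by
      rw [hc, hr]
      refine (dist_triangle _ (γ t) _).trans ?_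
      linarith
    rw [mem_iUnion]
    refine ⟨kk (β i), ?_⟩
    rw [mem_iUnion₂]
    refine ⟨β i, Finset.mem_filter.mpr ⟨Finset.mem_range.mpr (Nat.lt_succ_of_le (hβB i hi)), rfl⟩,
      hx, ?_⟩
    rw [hNb, mem_iUnion₂]
    exact ⟨i, ⟨hi, rfl⟩, hxi⟩
  have hcard : ∑ k, (T k).card = B + 1 := by
    have := Finset.card_eq_sum_card_fiberwise (f := kk) (s := Finset.range (B + 1))
      (t := (Finset.univ : Finset κ)) (fun _ _ => Finset.mem_coe.mpr (Finset.mem_univ _))
    rw [Finset.card_range] at this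
    exact this.symm
  calc μHE[2] S ≤ μHE[2] (⋃ k, ⋃ b ∈ T k, S ∩ Nb b) := measure_mono hScov
    _ ≤ ∑ k, μHE[2] (⋃ b ∈ T k, S ∩ Nb b) := measure_iUnion_fintype_le _ _
    _ ≤ ∑ k, ENNReal.ofReal ((T k).card * w + 10 * (δ k * mm k)) :=
        Finset.sum_le_sum fun k _ => hpiece k
    _ = ENNReal.ofReal (∑ k, ((T k).card * w + 10 * (δ k * mm k))) := by
        rw [ENNReal.ofReal_sum_of_nonneg]
        intro k _
        have hcw : 0 ≤ ((T k).card : ℝ) * w := by positivity
        have hdm : 0 ≤ δ k * mm k := mul_nonneg (hδ0 k) (hm0' k)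
        linarith
    _ ≤ _ := by
        apply ENNReal.ofReal_le_ofReal
        rw [Finset.sum_add_distrib, ← Finset.sum_mul, ← Finset.mul_sum, ← hw]
        have h1 : (∑ k, ((T k).card : ℝ)) = B + 1 := by
          rw [← Nat.cast_sum, hcard]; push_cast; ring
        rw [h1]
        have h2 : (B : ℝ) ≤ Λ / ℓ := by
          rw [hB]; exact Nat.floor_le (by positivity)
        have h3 : ((B : ℝ) + 1) * w ≤ (Λ / ℓ + 1) * w := by gcongr
        linarith

end Pool.Agent.Y209.DC
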