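import Pool.Agent.Y209.DC.Anti
import Pool.Agent.Y209.DC.Cells

set_option autoImplicit false
open MeasureTheory Set Metric
open scoped ENNReal NNReal
open Pool.Agent.H985.Dense

namespace Pool.Agent.Y209.DC

section pure
variable {V : Type*} [NormedAddCommGroup V] [NormedSpace ℝ V]

/-- The algebraic identity behind the flatness estimate. -/
lemma rad_split (U up uq ux : V) (a b x l : ℝ) (hU : U = up - uq) (ha : a ≠ 0) (hb : b ≠ 0)
    (_hx : x ≠ 0) :
    a⁻¹ • up - b⁻¹ • uq - (x⁻¹ • U - (l * (x⁻¹) ^ 2) • ux) =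
      (a⁻¹ - x⁻¹) • U - ((a - b - l) * (a⁻¹ * b⁻¹) + l * (a⁻¹ * b⁻¹ - (x⁻¹) ^ 2)) • uq -
        (l * (x⁻¹) ^ 2) • (uq - ux) := by
  have e : a⁻¹ - b⁻¹ = -((a - b - l) * (a⁻¹ * b⁻¹)) - l * (a⁻¹ * b⁻¹) := by
    field_simp
    ring
  have e2 : up = U + uq := by rw [hU]; abel
  rw [e2, smul_add]
  have e3 : a⁻¹ • U + a⁻¹ • uq - b⁻¹ • uq = a⁻¹ • U + (a⁻¹ - b⁻¹) • uq := by
    rw [sub_smul]; abel
  rw [e3, e]
  simp only [sub_smul, add_smul, smul_sub, neg_smul, mul_sub]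
  abel

end pure

/-- bound for the difference of inverses -/
lemma inv_diff {a b R d : ℝ} (ha : 0 < a) (hb : 0 < b) (ha' : a⁻¹ ≤ R) (hb' : b⁻¹ ≤ R)
    (hd : |a - b| ≤ d) : |a⁻¹ - b⁻¹| ≤ R ^ 2 * d := by
  have hR : 0 ≤ R := (inv_pos.mpr ha).le.trans ha'
  have e2 : a⁻¹ - b⁻¹ = a⁻¹ * b⁻¹ * (b - a) := by field_simp
  rw [e2, abs_mul, abs_of_pos (by positivity), abs_sub_comm]
  have h4 : a⁻¹ * b⁻¹ ≤ R ^ 2 := by
    rw [sq]; exact mul_le_mul ha' hb' (inv_pos.mpr hb).le hR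
  exact mul_le_mul h4 hd (abs_nonneg _) (by positivity)

theorem t_RAD (hC : S_CONV) (hS : S_SUM) (hA : S_ANTI) : S_RAD := by
  classical
  intro R L
  obtain ⟨C, hC1, hanti⟩ := hA R L
  have hC0 : 0 < C := by linarith
  obtain ⟨Λ, hΛ⟩ : ∃ Λ : ℝ, Λ = 4 * |L| := ⟨_, rfl⟩
  have hΛ0 : 0 ≤ Λ := by rw [hΛ]; positivity
  obtain ⟨K1, hK1⟩ : ∃ K1 : ℝ, K1 = 1 + 4 * R ^ 2 * Λ + 5 * R ^ 2 +
    5 * (Λ + 1) * (2 * |R| ^ 3 * Λ) + (Λ + 1) * R ^ 2 * 4 := ⟨_, rfl⟩
  have hK1p : 1 ≤ K1 := by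
    rw [hK1]
    have : 0 ≤ 4 * R ^ 2 * Λ + 5 * R ^ 2 + 5 * (Λ + 1) * (2 * |R| ^ 3 * Λ) +
      (Λ + 1) * R ^ 2 * 4 := by positivity
    linarith
  have hK10 : 0 < K1 := by linarith
  refine ⟨2 * C * K1 * (1 + 64 * Λ), by positivity, ?_⟩
  intro g hg z0 i s hs N hN
  have hR := hg.R0
  have hL := hg.L0
  rw [abs_of_pos hL] at hΛ
  rw [abs_of_pos hR] at hK1
  have hN0 : (0 : ℝ) < N := by exact_mod_cast hN
  have hN1 : (1 : ℝ) ≤ N := by exact_mod_cast hN
  have hρ : (0 : ℝ) < 1 / N := by positivity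
  have hρ1 : (1 : ℝ) / N ≤ 1 := by rw [div_le_one hN0]; exact hN1
  obtain ⟨u, hu⟩ : ∃ u : ℝ × ℝ → E3, u = fun z => face i s ((2 : ℝ) • z) := ⟨_, rfl⟩
  have hu1 : ∀ z, 1 ≤ ‖u z‖ := fun z => by rw [hu]; exact one_le_norm_face i hs _
  have hu0 : ∀ z, u z ≠ 0 := fun z => by rw [hu]; exact face_ne i hs _
  obtain ⟨G, hG⟩ : ∃ G : ℝ × ℝ → ℝ, G = fun z => g (u z) := ⟨_, rfl⟩
  have hGp : ∀ z, 0 < G z := fun z => by rw [hG]; exact hg.pos (hu0 z)
  have hGi : ∀ z, (G z)⁻¹ ≤ R := fun z => by rw [hG]; exact hg.inv_le (hu1 z)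
  have hudiff : ∀ p q, u p - u q = (2 : ℝ) • ell i (p - q) := by
    intro p q
    rw [hu]
    simp only
    rw [face_sub, ← smul_sub, map_smul]
  have hunorm : ∀ h : ℝ × ℝ, ‖(2 : ℝ) • ell i h‖ ≤ 4 * ‖h‖ := by
    intro h
    rw [norm_smul, Real.norm_eq_abs, abs_of_pos (by norm_num : (0:ℝ) < 2)]
    have := norm_ell_le i h
    linarith
  have hGconv : ConvexOn ℝ univ G := by
    refine ⟨convex_univ, ?_⟩
    intro x _ y _ a b ha hb hab
    rw [hG, hu]
    simp only [smul_eq_mul]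
    have e : face i s ((2 : ℝ) • (a • x + b • y)) =
        a • face i s ((2 : ℝ) • x) + b • face i s ((2 : ℝ) • y) := by
      have e1 : (2 : ℝ) • (a • x + b • y) = a • ((2 : ℝ) • x) + b • ((2 : ℝ) • y) := by
        rw [smul_add, smul_comm, smul_comm (2 : ℝ) b]
      rw [e1]
      generalize (2 : ℝ) • x = x'
      generalize (2 : ℝ) • y = y'
      unfold face
      rw [map_add, map_smul, map_smul, smul_add, smul_add]
      have : (EuclideanSpace.single i s : E3) = (a + b) • EuclideanSpace.single i s := by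
        rw [hab, one_smul]
      nth_rewrite 1 [this]
      rw [add_smul]; abel
    rw [e]
    refine (hg.conv _ _).trans ?_
    rw [hg.smul _ _ ha, hg.smul _ _ hb]
  have hGlip : ∀ p q, |G p - G q| ≤ Λ * dist p q := by
    intro p q
    rw [hG]
    refine (hg.lip _ _).trans ?_
    rw [hudiff, dist_eq_norm, hΛ]
    have := mul_le_mul_of_nonneg_left (hunorm (p - q)) hL.le
    linarith
  have hsum := hS G Λ hΛ0 hGlip N hN
  obtain ⟨om, hom⟩ : ∃ om : ℕ → ℕ → ℝ, om = fun j k => D2 G (ctr N j k) (2 / N) / (1 / N) :=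
    ⟨_, rfl⟩
  have hD2 : ∀ x t, 0 ≤ D2 G x t := by
    intro x t
    have key : ∀ v : ℝ × ℝ, 0 ≤ G (x + v) + G (x - v) - 2 * G x := by
      intro v
      have h1 := hGconv.2 (mem_univ (x + v)) (mem_univ (x - v)) (by norm_num : (0:ℝ) ≤ 1 / 2)
        (by norm_num : (0:ℝ) ≤ 1 / 2) (by norm_num)
      have e : (1 / 2 : ℝ) • (x + v) + (1 / 2 : ℝ) • (x - v) = x := by
        rw [← smul_add]
        have : x + v + (x - v) = (2 : ℝ) • x := by rw [two_smul]; abel
        rw [this, smul_smul]; norm_num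
      rw [e] at h1
      simp only [smul_eq_mul] at h1
      linarith
    unfold D2
    linarith [key (t, t), key (t, -t)]
  have hom0 : ∀ j k, 0 ≤ om j k := by
    intro j k
    rw [hom]
    exact div_nonneg (hD2 _ _) hρ.le
  refine ⟨fun j k => 2 * C * (K1 * (1 / N + om j k)), ?_, ?_, ?_⟩
  · intro j k
    have := hom0 j k
    positivity
  · have e1 : ∑ j ∈ Finset.range N, ∑ k ∈ Finset.range N, 2 * C * (K1 * (1 / N + om j k)) =
        2 * C * K1 * (N + N * ∑ j ∈ Finset.range N, ∑ k ∈ Finset.range N,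
          D2 G (ctr N j k) (2 / N)) := by
      simp only [hom]
      have e2 : ∀ j k : ℕ, 2 * C * (K1 * (1 / (N : ℝ) + D2 G (ctr N j k) (2 / N) / (1 / N))) =
          2 * C * K1 * (1 / N) + 2 * C * K1 * N * D2 G (ctr N j k) (2 / N) := by
        intro j k; field_simp
      simp only [e2, Finset.sum_add_distrib, ← Finset.mul_sum, Finset.sum_const,
        Finset.card_range, nsmul_eq_mul]
      field_simp
    rw [e1]
    have h2 : (N : ℝ) + N * ∑ j ∈ Finset.range N, ∑ k ∈ Finset.range N,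
          D2 G (ctr N j k) (2 / N) ≤ (1 + 64 * Λ) * N := by nlinarith
    have h3 := mul_le_mul_of_nonneg_left h2 (by positivity : 0 ≤ 2 * C * K1)
    linarith
  · intro j hj k hk hd
    obtain ⟨x, hx⟩ : ∃ x, x = ctr N j k := ⟨_, rfl⟩
    obtain ⟨ω, hω⟩ : ∃ ω, ω = om j k := ⟨_, rfl⟩
    have hω0 : 0 ≤ ω := by rw [hω]; exact hom0 j k
    rw [← hx]
    simp only [← hω] at hd ⊢
    obtain ⟨e, he⟩ : ∃ e, e = K1 * (1 / N + ω) := ⟨_, rfl⟩
    rw [← he] at hd ⊢
    have he0 : 0 ≤ e := by rw [he]; positivity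
    have heC : C * e ≤ 1 / 16 := by linarith
    have hωe : ω ≤ 1 := by
      have h1 : ω ≤ e := by
        rw [he]
        nlinarith
      have h2 : e ≤ C * e := by nlinarith
      linarith
    obtain ⟨l, -, hl⟩ := hC G hGconv x (1 / N) hρ
    have hωl : ∀ p ∈ closedBall x (1 / N), ∀ q ∈ closedBall x (1 / N),
        |G p - G q - l (p - q)| ≤ ω * dist p q := by
      intro p hp q hq
      have h1 := hl p hp q hq
      have e2 : D2 G x (2 * (1 / N)) / (1 / N) = ω := by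
        rw [hω, hom, hx]
        have : (2 : ℝ) * (1 / N) = 2 / N := by ring
        rw [this]
      rwa [e2] at h1
    have hQ : closedBall x (1 / N) ⊆ Q0 := by rw [hx]; exact cell_sub_Q0 hN hj hk
    have hxB : x ∈ closedBall x (1 / (N : ℝ)) := mem_closedBall_self hρ.le
    -- scaling of vectors into the ball
    have hscale : ∀ h : ℝ × ℝ, ∃ t : ℝ, 0 < t ∧ x - t • h ∈ closedBall x (1 / N) := by
      intro h
      refine ⟨1 / N / (‖h‖ + 1), by positivity, ?_⟩
      rw [mem_closedBall, dist_eq_norm, sub_sub_cancel_left, norm_neg, norm_smul,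
        Real.norm_eq_abs, abs_of_pos (by positivity), div_mul_eq_mul_div,
        div_le_iff₀ (by positivity)]
      nlinarith [norm_nonneg h]
    have hlb : ∀ h : ℝ × ℝ, |l h| ≤ (Λ + 1) * ‖h‖ := by
      intro h
      obtain ⟨t, ht, hmem⟩ := hscale h
      have h1 := hωl x hxB _ hmem
      have h2 := hGlip x (x - t • h)
      have e3 : x - (x - t • h) = t • h := by abel
      have e4 : dist x (x - t • h) = t * ‖h‖ := by
        rw [dist_eq_norm, e3, norm_smul, Real.norm_eq_abs, abs_of_pos ht]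
      rw [e3, map_smul, smul_eq_mul, e4] at h1
      rw [e4] at h2
      have h3 : |t * l h| ≤ (Λ + 1) * (t * ‖h‖) := by
        have h4 : |t * l h| ≤ |G x - G (x - t • h)| + |G x - G (x - t • h) - t * l h| := by
          have := abs_sub (G x - G (x - t • h)) (G x - G (x - t • h) - t * l h)
          have e5 : (G x - G (x - t • h)) - (G x - G (x - t • h) - t * l h) = t * l h := by ring
          rwa [e5] at this
        have h5 : ω * (t * ‖h‖) ≤ 1 * (t * ‖h‖) :=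
          mul_le_mul_of_nonneg_right hωe (by positivity)
        linarith
      rw [abs_mul, abs_of_pos ht] at h3
      have h6 : t * |l h| ≤ t * ((Λ + 1) * ‖h‖) := by linarith
      exact le_of_mul_le_mul_left h6 ht
    -- the linear map
    obtain ⟨A, hAd⟩ : ∃ A : ℝ × ℝ →L[ℝ] E3, A = (2 * (G x)⁻¹) • ell i -
      ((((G x)⁻¹) ^ 2) • l).smulRight (u x) := ⟨_, rfl⟩
    have hAapp : ∀ h, A h = (G x)⁻¹ • ((2 : ℝ) • ell i h) - (l h * ((G x)⁻¹) ^ 2) • u x := by
      intro h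
      rw [hAd]
      simp only [sub_apply, smul_apply, ContinuousLinearMap.smulRight_apply, smul_smul,
        smul_eq_mul]
      rw [mul_comm (2 : ℝ), mul_comm (l h)]
    have hrch : ∀ p, rch g z0 i s p = z0 + (G p)⁻¹ • u p := by
      intro p
      simp only [rch, hG, hu]
    have hun5 : ∀ q ∈ closedBall x (1 / (N : ℝ)), ‖u q‖ ≤ 5 := by
      intro q hq
      rw [hu]
      exact norm_face5 i hs (hQ hq)
    have herr : ∀ p ∈ closedBall x (1 / (N : ℝ)), ∀ q ∈ closedBall x (1 / (N : ℝ)),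
        ‖rch g z0 i s p - rch g z0 i s q - A (p - q)‖ ≤ e * ‖p - q‖ := by
      intro p hp q hq
      have e1 : rch g z0 i s p - rch g z0 i s q = (G p)⁻¹ • u p - (G q)⁻¹ • u q := by
        rw [hrch, hrch]; abel
      rw [e1, hAapp, rad_split ((2 : ℝ) • ell i (p - q)) (u p) (u q) (u x) (G p) (G q) (G x)
        (l (p - q)) (hudiff p q).symm (hGp p).ne' (hGp q).ne' (hGp x).ne']
      have hpx : |G p - G x| ≤ Λ * (1 / N) :=
        (hGlip p x).trans (mul_le_mul_of_nonneg_left (mem_closedBall.mp hp) hΛ0)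
      have hqx : |G q - G x| ≤ Λ * (1 / N) :=
        (hGlip q x).trans (mul_le_mul_of_nonneg_left (mem_closedBall.mp hq) hΛ0)
      have i1 := inv_diff (hGp p) (hGp x) (hGi p) (hGi x) hpx
      have i2 := inv_diff (hGp q) (hGp x) (hGi q) (hGi x) hqx
      have hn0 := norm_nonneg (p - q)
      have hip := inv_pos.mpr (hGp p)
      have hiq := inv_pos.mpr (hGp q)
      have hix := inv_pos.mpr (hGp x)
      -- term 1
      have t1 : ‖((G p)⁻¹ - (G x)⁻¹) • ((2 : ℝ) • ell i (p - q))‖ ≤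
          (4 * R ^ 2 * Λ) * (1 / N) * ‖p - q‖ := by
        rw [norm_smul, Real.norm_eq_abs]
        calc _ ≤ (R ^ 2 * (Λ * (1 / N))) * (4 * ‖p - q‖) :=
              mul_le_mul i1 (hunorm _) (norm_nonneg _) (by positivity)
          _ = _ := by ring
      -- term 2
      have s1 : |(G p - G q - l (p - q)) * ((G p)⁻¹ * (G q)⁻¹)| ≤ (R ^ 2) * ω * ‖p - q‖ := by
        rw [abs_mul, abs_of_pos (mul_pos hip hiq)]
        have h1 := hωl p hp q hq
        rw [dist_eq_norm] at h1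
        have h2 : (G p)⁻¹ * (G q)⁻¹ ≤ R ^ 2 := by
          rw [sq]; exact mul_le_mul (hGi p) (hGi q) hiq.le hR.le
        calc _ ≤ (ω * ‖p - q‖) * R ^ 2 := mul_le_mul h1 h2 (mul_pos hip hiq).le (by positivity)
          _ = _ := by ring
      have s2 : |l (p - q) * ((G p)⁻¹ * (G q)⁻¹ - ((G x)⁻¹) ^ 2)| ≤
          (Λ + 1) * (2 * R ^ 3 * Λ) * (1 / N) * ‖p - q‖ := by
        rw [abs_mul]
        have h3 : |(G p)⁻¹ * (G q)⁻¹ - ((G x)⁻¹) ^ 2| ≤ 2 * R ^ 3 * Λ * (1 / N) := by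
          have e5 : (G p)⁻¹ * (G q)⁻¹ - ((G x)⁻¹) ^ 2 =
              ((G p)⁻¹ - (G x)⁻¹) * (G q)⁻¹ + (G x)⁻¹ * ((G q)⁻¹ - (G x)⁻¹) := by ring
          rw [e5]
          refine (abs_add_le _ _).trans ?_
          rw [abs_mul, abs_mul, abs_of_pos hiq, abs_of_pos hix]
          have a1 : |(G p)⁻¹ - (G x)⁻¹| * (G q)⁻¹ ≤ (R ^ 2 * (Λ * (1 / N))) * R :=
            mul_le_mul i1 (hGi q) hiq.le (by positivity)
          have a2 : (G x)⁻¹ * |(G q)⁻¹ - (G x)⁻¹| ≤ R * (R ^ 2 * (Λ * (1 / N))) :=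
            mul_le_mul (hGi x) i2 (abs_nonneg _) hR.le
          calc _ ≤ (R ^ 2 * (Λ * (1 / N))) * R + R * (R ^ 2 * (Λ * (1 / N))) := add_le_add a1 a2
            _ = _ := by ring
        calc _ ≤ ((Λ + 1) * ‖p - q‖) * (2 * R ^ 3 * Λ * (1 / N)) :=
              mul_le_mul (hlb _) h3 (abs_nonneg _) (by positivity)
          _ = _ := by ring
      have t2 : ‖((G p - G q - l (p - q)) * ((G p)⁻¹ * (G q)⁻¹) +
          l (p - q) * ((G p)⁻¹ * (G q)⁻¹ - ((G x)⁻¹) ^ 2)) • u q‖ ≤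
          (5 * R ^ 2 * ω + 5 * (Λ + 1) * (2 * R ^ 3 * Λ) * (1 / N)) * ‖p - q‖ := by
        rw [norm_smul, Real.norm_eq_abs]
        calc _ ≤ ((R ^ 2) * ω * ‖p - q‖ + (Λ + 1) * (2 * R ^ 3 * Λ) * (1 / N) * ‖p - q‖) * 5 :=
              mul_le_mul ((abs_add_le _ _).trans (add_le_add s1 s2)) (hun5 q hq)
                (norm_nonneg _) (by positivity)
          _ = _ := by ring
      -- term 3
      have t3 : ‖(l (p - q) * ((G x)⁻¹) ^ 2) • (u q - u x)‖ ≤
          ((Λ + 1) * R ^ 2 * 4) * (1 / N) * ‖p - q‖ := by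
        rw [norm_smul, Real.norm_eq_abs, abs_mul, abs_of_pos (pow_pos hix 2), hudiff]
        have h1 : ((G x)⁻¹) ^ 2 ≤ R ^ 2 := pow_le_pow_left₀ hix.le (hGi x) 2
        have h2 : ‖(2 : ℝ) • ell i (q - x)‖ ≤ 4 * (1 / N) := by
          refine (hunorm _).trans ?_
          rw [← dist_eq_norm]
          exact mul_le_mul_of_nonneg_left (mem_closedBall.mp hq) (by norm_num)
        calc _ ≤ (((Λ + 1) * ‖p - q‖) * R ^ 2) * (4 * (1 / N)) := by
              apply mul_le_mul _ h2 (norm_nonneg _) (by positivity)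
              exact mul_le_mul (hlb _) h1 (by positivity) (by positivity)
          _ = _ := by ring
      have hfin : (4 * R ^ 2 * Λ) * (1 / N) + (5 * R ^ 2 * ω +
          5 * (Λ + 1) * (2 * R ^ 3 * Λ) * (1 / N)) + ((Λ + 1) * R ^ 2 * 4) * (1 / N) ≤ e := by
        rw [he, hK1]
        have q1 : 0 ≤ 4 * R ^ 2 * Λ * ω := by positivity
        have q2 : 0 ≤ 5 * R ^ 2 * (1 / N) := by positivity
        have q3 : 0 ≤ 5 * (Λ + 1) * (2 * R ^ 3 * Λ) * ω := by positivity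
        have q4 : 0 ≤ (Λ + 1) * R ^ 2 * 4 * ω := by positivity
        have q5 : 0 ≤ (1 : ℝ) / N := hρ.le
        nlinarith
      refine (norm_sub_le _ _).trans ?_
      refine (add_le_add (norm_sub_le _ _) le_rfl).trans ?_
      have := mul_le_mul_of_nonneg_right hfin hn0
      linarith
    have hlow : ∀ p ∈ closedBall x (1 / (N : ℝ)), ∀ q ∈ closedBall x (1 / (N : ℝ)),
        ‖p - q‖ ≤ 2 * C * ‖A (p - q)‖ := by
      intro p hp q hq
      have h1 := (hanti g hg z0 i s hs).2 p (hQ hp) q (hQ hq)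
      rw [dist_eq_norm, dist_eq_norm] at h1
      have h2 := herr p hp q hq
      have h3 := norm_sub_norm_le (rch g z0 i s p - rch g z0 i s q) (A (p - q))
      have h4 : ‖p - q‖ ≤ C * (‖A (p - q)‖ + e * ‖p - q‖) :=
        h1.trans (mul_le_mul_of_nonneg_left (by linarith) hC0.le)
      have h5 : C * e * ‖p - q‖ ≤ 1 / 16 * ‖p - q‖ :=
        mul_le_mul_of_nonneg_right heC (norm_nonneg _)
      have h6 := norm_nonneg (A (p - q))
      nlinarith [mul_nonneg hC0.le h6]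
    refine ⟨hρ, A, ?_, ?_⟩
    · rw [injective_iff_map_eq_zero]
      intro h hh
      obtain ⟨t, ht, hmem⟩ := hscale h
      have h1 := hlow x hxB _ hmem
      have e3 : x - (x - t • h) = t • h := by abel
      rw [e3, map_smul, hh, smul_zero, norm_zero, mul_zero, norm_smul, Real.norm_eq_abs,
        abs_of_pos ht] at h1
      have h2 : ‖h‖ ≤ 0 := by
        by_contra hcon
        push Not at hcon
        have := mul_pos ht hcon
        linarith
      exact norm_le_zero_iff.mp h2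
    · intro p hp q hq
      refine (herr p hp q hq).trans ?_
      have h1 := mul_le_mul_of_nonneg_left (hlow p hp q hq) he0
      linarith

end Pool.Agent.Y209.DC
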