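import Pool.Agent.Y209.DC.Cells

set_option autoImplicit false
open MeasureTheory Set Metric
open scoped ENNReal NNReal
open Pool.Agent.H985.Dense

namespace Pool.Agent.Y209.DC

/-- Concatenation of a sequence of tours with short connections. -/
lemma seq_tour {S : Set E3} (W : ℕ → Set E3) (a b : ℕ → E3) (c : ℕ → ℝ) {d : ℝ} (n : ℕ)
    (h1 : ∀ i < n + 1, Cov S (W i) (a i) (b i) (c i))
    (h2 : ∀ i < n, Cov S ∅ (b i) (a (i + 1)) d) :
    Cov S (⋃ i ∈ Finset.range (n + 1), W i) (a 0) (b n)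
      (∑ i ∈ Finset.range (n + 1), c i + n * d) := by
  induction n with
  | zero =>
    have := h1 0 (by norm_num)
    simpa using this
  | succ n ih =>
    have ih' := ih (fun i hi => h1 i (by omega)) (fun i hi => h2 i (by omega))
    have h3 := (ih'.concat (h2 n (by omega))).concat (h1 (n + 1) (by omega))
    have e : ∑ i ∈ Finset.range (n + 1), c i + n * d + d + c (n + 1) =
        ∑ i ∈ Finset.range (n + 1 + 1), c i + ((n + 1 : ℕ) : ℝ) * d := by
      rw [Finset.sum_range_succ c (n + 1)]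
      push_cast
      ring
    rw [e] at h3
    apply h3.subset
    intro x hx
    rw [mem_iUnion₂] at hx
    obtain ⟨i, hi, hx⟩ := hx
    rw [Finset.mem_range] at hi
    rcases Nat.lt_succ_iff_lt_or_eq.mp hi with h | h
    · exact Or.inl (Or.inl (mem_iUnion₂.mpr ⟨i, Finset.mem_range.mpr h, hx⟩))
    · subst h; exact Or.inr hx

theorem t_SNAKE : S_SNAKE := by
  classical
  intro S ψ C h N hN V p q cost hcell
  have hC := h.pos
  have hN0 : (0 : ℝ) < N := by exact_mod_cast hN
  obtain ⟨n, rfl⟩ : ∃ n, N = n + 1 := ⟨N - 1, by omega⟩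
  have hQ : ∀ j < n + 1, ∀ k < n + 1, p j k ∈ Q0 ∧ q j k ∈ Q0 := by
    intro j hj k hk
    obtain ⟨h1, h2, -⟩ := hcell j hj k hk
    exact ⟨cell_sub_Q0 hN hj hk h1, cell_sub_Q0 hN hj hk h2⟩
  have hrow : ∀ j < n + 1, Cov S (⋃ k ∈ Finset.range (n + 1), V j k) (ψ (p j 0)) (ψ (q j n))
      (∑ k ∈ Finset.range (n + 1), cost j k + n * (C * (3 / ((n + 1 : ℕ) : ℝ)))) := by
    intro j hj
    apply seq_tour (V j) (fun k => ψ (p j k)) (fun k => ψ (q j k)) (cost j) n
    · intro k hk
      exact (hcell j hj k hk).2.2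
    · intro k hk
      have h1 := (hcell j hj k (by omega)).2.1
      have h2 := (hcell j hj (k + 1) (by omega)).1
      have h3 : dist (ctr (n + 1) j k) (ctr (n + 1) j (k + 1)) ≤ 1 / ((n + 1 : ℕ) : ℝ) := by
        rw [Prod.dist_eq, Real.dist_eq, Real.dist_eq, ctr_fst, ctr_fst, ctr_snd, ctr_snd,
          sub_self, abs_zero]
        apply max_le (by positivity)
        have e : -1 / 2 + ((k : ℝ) + 1 / 2) / ((n + 1 : ℕ) : ℝ) -
            (-1 / 2 + (((k + 1 : ℕ) : ℝ) + 1 / 2) / ((n + 1 : ℕ) : ℝ)) =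
            - (1 / ((n + 1 : ℕ) : ℝ)) := by
          push_cast; ring
        rw [e, abs_neg, abs_of_pos (by positivity)]
      have h4 : dist (q j k) (p j (k + 1)) ≤ 3 / ((n + 1 : ℕ) : ℝ) := by
        rw [mem_closedBall] at h1 h2
        rw [dist_comm] at h2
        have := (dist_triangle (q j k) (ctr (n + 1) j k) (p j (k + 1))).trans
          (add_le_add h1 ((dist_triangle _ (ctr (n + 1) j (k + 1)) _).trans (add_le_add h3 h2)))
        refine this.trans (le_of_eq ?_)
        ring
      exact (h.seg' (hQ j hj k (by omega)).2 (hQ j hj (k + 1) (by omega)).1 (by positivity)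
        h4).subset (empty_subset _)
  have hall := seq_tour (S := S) (fun j => ⋃ k ∈ Finset.range (n + 1), V j k)
    (fun j => ψ (p j 0)) (fun j => ψ (q j n))
    (fun j => ∑ k ∈ Finset.range (n + 1), cost j k + n * (C * (3 / ((n + 1 : ℕ) : ℝ))))
    (d := C * 2) n hrow (by
      intro j hj
      exact (h.seg' (hQ j (by omega) n (by omega)).2 (hQ (j + 1) (by omega) 0 (by omega)).1
        (by norm_num) (dist_le_two (hQ j (by omega) n (by omega)).2
          (hQ (j + 1) (by omega) 0 (by omega)).1)).subset (empty_subset _))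
  refine ⟨_, _, hall.mono ?_⟩
  rw [Finset.sum_add_distrib, Finset.sum_const, Finset.card_range, nsmul_eq_mul]
  have e : ((n + 1 : ℕ) : ℝ) * ((n : ℝ) * (C * (3 / ((n + 1 : ℕ) : ℝ)))) = n * (C * 3) := by
    field_simp
  rw [e]
  push_cast
  have hn : (0 : ℝ) ≤ n := by positivity
  nlinarith [mul_nonneg hn hC.le]

end Pool.Agent.Y209.DC
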