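import Mathlib

set_option autoImplicit false

/-!
Diagonal second differences telescope over the grid.
-/

open Finset

namespace Pool.Agent.Y209.DC

theorem tel_aux (u : ℤ → ℝ) (N : ℕ) :
    ∑ j ∈ range N, (u j - u (j - 2)) = u (N - 1) + u (N - 2) - u (-1) - u (-2) := by
  induction N with
  | zero => simp
  | succ n ih =>
    rw [sum_range_succ, ih]
    have e1 : ((n + 1 : ℕ) : ℤ) - 1 = n := by push_cast; ring
    have e2 : ((n + 1 : ℕ) : ℤ) - 2 = n - 1 := by push_cast; ring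
    rw [e1, e2]
    ring

theorem tel (u : ℤ → ℝ) (B : ℝ) (h : ∀ a, |u a| ≤ B) (N : ℕ) :
    ∑ j ∈ range N, (u j - u (j - 2)) ≤ 4 * B := by
  rw [tel_aux]
  have h1 := (abs_le.1 (h (N - 1))).2
  have h2 := (abs_le.1 (h (N - 2))).2
  have h3 := (abs_le.1 (h (-1))).1
  have h4 := (abs_le.1 (h (-2))).1
  linarith

theorem tel' (u : ℤ → ℝ) (B : ℝ) (h : ∀ a, |u a| ≤ B) (N : ℕ) :
    ∑ j ∈ range N, (u j - u (j + 2)) ≤ 4 * B := by
  have := tel (fun a => - u (a + 2)) B (fun a => by simpa using h (a + 2)) N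
  refine le_trans (le_of_eq ?_) this
  apply sum_congr rfl
  intro j _
  simp only [sub_add_cancel]
  ring

theorem sum_core (F : ℤ → ℤ → ℝ) (B : ℝ) (h1 : ∀ a b, |F (a + 2) (b + 2) - F a b| ≤ B)
    (h2 : ∀ a b, |F (a + 2) (b - 2) - F a b| ≤ B) (N : ℕ) :
    ∑ j ∈ range N, ∑ k ∈ range N,
      ((F (j + 2) (k + 2) + F (j - 2) (k - 2) - 2 * F j k) +
        (F (j + 2) (k - 2) + F (j - 2) (k + 2) - 2 * F j k)) ≤ 16 * N * B := by
  set g : ℤ → ℤ → ℝ := fun a b => F (a + 2) (b + 2) - F a b with hg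
  set g' : ℤ → ℤ → ℝ := fun a b => F (a + 2) (b - 2) - F a b with hg'
  have key : ∑ j ∈ range N, ∑ k ∈ range N,
      ((F (j + 2) (k + 2) + F (j - 2) (k - 2) - 2 * F j k) +
        (F (j + 2) (k - 2) + F (j - 2) (k + 2) - 2 * F j k)) =
      ((∑ k ∈ range N, ∑ j ∈ range N, (g j k - g (j - 2) k)) +
        ∑ j ∈ range N, ∑ k ∈ range N, (g (j - 2) k - g (j - 2) (k - 2))) +
      ((∑ k ∈ range N, ∑ j ∈ range N, (g' j k - g' (j - 2) k)) +
        ∑ j ∈ range N, ∑ k ∈ range N, (g' (j - 2) k - g' (j - 2) (k + 2))) := by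
    rw [sum_comm (f := fun (k j : ℕ) => g j k - g (j - 2) k),
      sum_comm (f := fun (k j : ℕ) => g' j k - g' (j - 2) k)]
    simp only [← sum_add_distrib]
    apply sum_congr rfl
    intro j _
    apply sum_congr rfl
    intro k _
    simp only [hg, hg', sub_add_cancel, add_sub_cancel_right]
    ring
  have b1 : ∑ k ∈ range N, ∑ j ∈ range N, (g j k - g (j - 2) k) ≤ N * (4 * B) := by
    calc ∑ k ∈ range N, ∑ j ∈ range N, (g j k - g (j - 2) k)
        ≤ ∑ _k ∈ range N, 4 * B := sum_le_sum (fun k _ => tel (fun a => g a k) B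
          (fun a => h1 a k) N)
      _ = N * (4 * B) := by rw [sum_const, card_range, nsmul_eq_mul]
  have b2 : ∑ j ∈ range N, ∑ k ∈ range N, (g (j - 2) k - g (j - 2) (k - 2)) ≤ N * (4 * B) := by
    calc ∑ j ∈ range N, ∑ k ∈ range N, (g (j - 2) k - g (j - 2) (k - 2))
        ≤ ∑ _j ∈ range N, 4 * B := sum_le_sum (fun j _ => tel (fun a => g (j - 2) a) B
          (fun a => h1 _ a) N)
      _ = N * (4 * B) := by rw [sum_const, card_range, nsmul_eq_mul]
  have b3 : ∑ k ∈ range N, ∑ j ∈ range N, (g' j k - g' (j - 2) k) ≤ N * (4 * B) := by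
    calc ∑ k ∈ range N, ∑ j ∈ range N, (g' j k - g' (j - 2) k)
        ≤ ∑ _k ∈ range N, 4 * B := sum_le_sum (fun k _ => tel (fun a => g' a k) B
          (fun a => h2 a k) N)
      _ = N * (4 * B) := by rw [sum_const, card_range, nsmul_eq_mul]
  have b4 : ∑ j ∈ range N, ∑ k ∈ range N, (g' (j - 2) k - g' (j - 2) (k + 2)) ≤ N * (4 * B) := by
    calc ∑ j ∈ range N, ∑ k ∈ range N, (g' (j - 2) k - g' (j - 2) (k + 2))
        ≤ ∑ _j ∈ range N, 4 * B := sum_le_sum (fun j _ => tel' (fun a => g' (j - 2) a) B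
          (fun a => h2 _ a) N)
      _ = N * (4 * B) := by rw [sum_const, card_range, nsmul_eq_mul]
  rw [key]
  linarith

/-- final form, with the definitions of `Stm.lean` spelled out -/
theorem sum_main (G : ℝ × ℝ → ℝ) (L : ℝ) (hL : 0 ≤ L)
    (hG : ∀ p q, |G p - G q| ≤ L * dist p q) (N : ℕ) (hN : 1 ≤ N)
    (c : ℕ → ℕ → ℝ × ℝ)
    (hc : ∀ j k, c j k = (-1 / 2 + ((j : ℝ) + 1 / 2) / N, -1 / 2 + ((k : ℝ) + 1 / 2) / N))
    (D : ℕ → ℕ → ℝ)
    (hD : ∀ j k, D j k = (G (c j k + ((2 : ℝ) / N, (2 : ℝ) / N)) +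
        G (c j k - ((2 : ℝ) / N, (2 : ℝ) / N)) - 2 * G (c j k)) +
      (G (c j k + ((2 : ℝ) / N, -((2 : ℝ) / N))) +
        G (c j k - ((2 : ℝ) / N, -((2 : ℝ) / N))) - 2 * G (c j k))) :
    ∑ j ∈ range N, ∑ k ∈ range N, D j k ≤ 64 * L := by
  have hN0 : (0 : ℝ) < N := by exact_mod_cast hN
  set F : ℤ → ℤ → ℝ := fun a b =>
    G (-1 / 2 + ((a : ℝ) + 1 / 2) / N, -1 / 2 + ((b : ℝ) + 1 / 2) / N) with hF
  have h1 : ∀ a b, |F (a + 2) (b + 2) - F a b| ≤ L * (2 / N) := by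
    intro a b
    refine (hG _ _).trans (mul_le_mul_of_nonneg_left ?_ hL)
    rw [Prod.dist_eq, Real.dist_eq, Real.dist_eq]
    apply max_le
    · apply le_of_eq
      have : (-1 / 2 + (((a + 2 : ℤ) : ℝ) + 1 / 2) / N) - (-1 / 2 + ((a : ℝ) + 1 / 2) / N)
        = 2 / N := by push_cast; field_simp; ring
      simp only []
      rw [this, abs_of_pos (by positivity)]
    · apply le_of_eq
      have : (-1 / 2 + (((b + 2 : ℤ) : ℝ) + 1 / 2) / N) - (-1 / 2 + ((b : ℝ) + 1 / 2) / N)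
        = 2 / N := by push_cast; field_simp; ring
      simp only []
      rw [this, abs_of_pos (by positivity)]
  have h2 : ∀ a b, |F (a + 2) (b - 2) - F a b| ≤ L * (2 / N) := by
    intro a b
    refine (hG _ _).trans (mul_le_mul_of_nonneg_left ?_ hL)
    rw [Prod.dist_eq, Real.dist_eq, Real.dist_eq]
    apply max_le
    · apply le_of_eq
      have : (-1 / 2 + (((a + 2 : ℤ) : ℝ) + 1 / 2) / N) - (-1 / 2 + ((a : ℝ) + 1 / 2) / N)
        = 2 / N := by push_cast; field_simp; ring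
      simp only []
      rw [this, abs_of_pos (by positivity)]
    · apply le_of_eq
      have : (-1 / 2 + (((b - 2 : ℤ) : ℝ) + 1 / 2) / N) - (-1 / 2 + ((b : ℝ) + 1 / 2) / N)
        = -(2 / N) := by push_cast; field_simp; ring
      simp only []
      rw [this, abs_neg, abs_of_pos (by positivity)]
  have h3 := sum_core F (L * (2 / N)) h1 h2 N
  have h4 : 16 * (N : ℝ) * (L * (2 / N)) = 32 * L := by field_simp; ring
  rw [h4] at h3
  refine le_trans (le_of_eq ?_) (h3.trans (by linarith))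
  apply sum_congr rfl
  intro j _
  apply sum_congr rfl
  intro k _
  have e : ∀ (a b : ℤ) (x : ℝ × ℝ), x = (-1 / 2 + ((a : ℝ) + 1 / 2) / N,
      -1 / 2 + ((b : ℝ) + 1 / 2) / N) → G x = F a b := by
    intro a b x hx; rw [hx]
  have f1 : G (c j k + ((2 : ℝ) / N, (2 : ℝ) / N)) = F (j + 2) (k + 2) := by
    apply e
    rw [hc]
    ext <;> simp <;> field_simp <;> ring
  have f2 : G (c j k - ((2 : ℝ) / N, (2 : ℝ) / N)) = F (j - 2) (k - 2) := by
    apply e
    rw [hc]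
    ext <;> simp <;> field_simp <;> ring
  have f3 : G (c j k) = F j k := by
    apply e
    rw [hc]
    ext <;> simp
  have f4 : G (c j k + ((2 : ℝ) / N, -((2 : ℝ) / N))) = F (j + 2) (k - 2) := by
    apply e
    rw [hc]
    ext <;> simp <;> field_simp <;> ring
  have f5 : G (c j k - ((2 : ℝ) / N, -((2 : ℝ) / N))) = F (j - 2) (k + 2) := by
    apply e
    rw [hc]
    ext <;> simp <;> field_simp <;> ring
  rw [hD, f1, f2, f3, f4, f5]

end Pool.Agent.Y209.DC
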