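import Pool.Agent.Y209.DC.Stm
import Pool.Agent.Y209.DC.SumCore

set_option autoImplicit false

namespace Pool.Agent.Y209.DC

theorem t_SUM : S_SUM := by
  intro G L hL hG N hN
  exact sum_main G L hL hG N hN (ctr N) (fun _ _ => rfl) (fun j k => D2 G (ctr N j k) (2 / N))
    (fun _ _ => rfl)

end Pool.Agent.Y209.DC
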