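import Pool.Agent.Y209.DC.Fam
import Pool.Agent.Y209.DC.Snake
import Pool.Agent.Y209.DC.Low
import Pool.Agent.Y209.DC.Rad
import Pool.Agent.Y209.DC.Conv
import Pool.Agent.Y209.DC.Sum

set_option autoImplicit false
open MeasureTheory Set Metric Filter
open scoped ENNReal NNReal Topology
open Pool.Agent.H985.Dense

namespace Pool.Agent.Y209.DC

lemma gauge_expl {K : Set E3} {z0 : E3} {r R : ℝ} (hr : 0 < r) (hrR : r ≤ R)
    (hconv : Convex ℝ K) (h1 : closedBall z0 r ⊆ K) (h2 : K ⊆ closedBall z0 R) :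
    GaugeData (gauge ((fun x => x + z0) ⁻¹' K)) R r⁻¹ ∧
      ∀ x : E3, gauge ((fun x => x + z0) ⁻¹' K) (x - z0) = 1 ↔ x ∈ frontier K := by
  obtain ⟨K', hK'⟩ : ∃ K' : Set E3, K' = (fun x => x + z0) ⁻¹' K := ⟨_, rfl⟩
  rw [← hK']
  have hR : 0 < R := lt_of_lt_of_le hr hrR
  have hc : Convex ℝ K' := by
    rw [hK']
    intro x hx y hy a b ha hb hab
    have := hconv hx hy ha hb hab
    show a • x + b • y + z0 ∈ K
    have e : a • x + b • y + z0 = a • (x + z0) + b • (y + z0) := by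
      have : z0 = (a + b) • z0 := by rw [hab, one_smul]
      nth_rewrite 1 [this]
      rw [smul_add, smul_add, add_smul]; abel
    rw [e]; exact this
  have hball : ball (0 : E3) r ⊆ K' := by
    intro x hx
    rw [hK']
    apply h1
    rw [mem_closedBall, dist_eq_norm, add_sub_cancel_right]
    exact (mem_ball_zero_iff.mp hx).le
  have hn : K' ∈ 𝓝 (0 : E3) := Filter.mem_of_superset (ball_mem_nhds 0 hr) hball
  have habs : Absorbent ℝ K' := absorbent_nhds_zero hn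
  have hsub : K' ⊆ closedBall 0 R := by
    intro x hx
    rw [hK'] at hx
    have h3 := h2 hx
    rw [mem_closedBall, dist_eq_norm, add_sub_cancel_right] at h3
    rwa [mem_closedBall_zero_iff]
  refine ⟨⟨hR, by positivity, gauge_add_le hc habs, ?_, ?_, ?_⟩, ?_⟩
  · intro a x ha
    rw [gauge_smul_of_nonneg ha]; rfl
  · intro x
    exact le_gauge_of_subset_closedBall habs hR.le hsub
  · intro x y
    have hl := hc.lipschitzWith_gauge (r := Real.toNNReal r) (Real.toNNReal_pos.mpr hr)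
      (by rwa [Real.coe_toNNReal _ hr.le])
    have := hl.dist_le_mul x y
    rw [Real.dist_eq, dist_eq_norm, NNReal.coe_inv, Real.coe_toNNReal _ hr.le] at this
    exact this
  · intro x
    rw [gauge_eq_one_iff_mem_frontier hc hn, hK']
    have := (Homeomorph.addRight z0).preimage_frontier K
    have h2 : x - z0 ∈ (Homeomorph.addRight z0) ⁻¹' frontier K ↔ x ∈ frontier K := by
      show x - z0 + z0 ∈ frontier K ↔ _
      rw [sub_add_cancel]
    rw [← h2, this]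
    rfl

theorem fam_ex {r R : ℝ} (hr : 0 < r) (hrR : r ≤ R) : ∃ C K0 ρ0 D : ℝ, 1 ≤ C ∧ 0 ≤ K0 ∧
    0 < ρ0 ∧ 0 ≤ D ∧ ∀ (K : Set E3) (z0 : E3), Convex ℝ K → closedBall z0 r ⊆ K →
      K ⊆ closedBall z0 R → ∃ ψ : Fin 3 × Bool → ℝ × ℝ → E3,
        Fam (frontier K) ψ C K0 ρ0 D ∧ (frontier K).Nonempty := by
  obtain ⟨C, hC1, hA⟩ := t_ANTI R r⁻¹
  obtain ⟨ρ0, hρ0, hLoc⟩ := t_LOCS R r⁻¹
  obtain ⟨K0, hK0, hRad⟩ := t_RAD t_CONV t_SUM t_ANTI R r⁻¹
  have hR : 0 < R := lt_of_lt_of_le hr hrR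
  obtain ⟨C', hC'⟩ : ∃ C' : ℝ, C' = (3 * R ^ 2 * r⁻¹ + R) * 2 := ⟨_, rfl⟩
  have hC'0 : 0 < C' := by rw [hC']; positivity
  refine ⟨C, K0, ρ0, C' * 2 + C' * 2 + C' * 2, hC1, hK0, hρ0, by positivity, ?_⟩
  intro K z0 hconv h1 h2
  obtain ⟨hg, hfr⟩ := gauge_expl hr hrR hconv h1 h2
  have hch : ∀ i, Chart (frontier K) (chartMap K z0 i) C' := by
    intro i
    rw [hC']; exact chart_ok hg hfr i
  have hface : ∀ i v w, InFace i v → InFace i w →
      Cov (frontier K) ∅ (rad K z0 v) (rad K z0 w) (C' * 2) := by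
    intro i v w hv hw
    obtain ⟨h1, h2⟩ := inFace_chart (K := K) (z0 := z0) hv
    obtain ⟨h3, h4⟩ := inFace_chart (K := K) (z0 := z0) hw
    have := ((hch i).seg' h1 h3 (c := 2) (by norm_num) (dist_le_two h1 h3)).subset
      (empty_subset _)
    rwa [h2, h4] at this
  have hrch : ∀ (i : Fin 3 × Bool) (z : ℝ × ℝ),
      rch (gauge ((fun x => x + z0) ⁻¹' K)) z0 i.1 (if i.2 then 1 else -1) z =
        chartMap K z0 i ((2 : ℝ) • z) := fun _ _ => rfl
  refine ⟨fun i => rch (gauge ((fun x => x + z0) ⁻¹' K)) z0 i.1 (if i.2 then 1 else -1),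
    ⟨?_, ?_, ?_, ?_, ?_, ?_, ?_⟩, ?_⟩
  · intro i
    refine ⟨by linarith, (hA _ hg z0 i.1 _ (sgn_abs i.2)).1, ?_⟩
    intro x _
    show rch _ z0 i.1 _ x ∈ frontier K
    rw [← hfr]
    have hne := face_ne i.1 (sgn_abs i.2) ((2 : ℝ) • x)
    have hpos := hg.pos hne
    unfold rch
    rw [add_sub_cancel_left, hg.smul _ _ (inv_pos.mpr hpos).le]
    exact inv_mul_cancel₀ hpos.ne'
  · intro i
    exact (hA _ hg z0 i.1 _ (sgn_abs i.2)).2
  · intro i N hN
    exact hRad _ hg z0 i.1 _ (sgn_abs i.2) N hN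
  · intro i z hz w hw hd
    exact hLoc _ hg z0 i.1 _ (sgn_abs i.2) z hz w ((hfr w).mpr hw) hd
  · intro x hx
    obtain ⟨i, v, hv, rfl⟩ := chart_surj hg hfr x hx
    obtain ⟨h3, h4⟩ := inFace_chart (K := K) (z0 := z0) hv
    refine ⟨i, (1 / 2 : ℝ) • (v (i.1 + 1), v (i.1 + 2)), ?_, ?_⟩
    · rw [mem_closedBall_zero_iff, norm_smul, Real.norm_eq_abs,
        abs_of_pos (by norm_num : (0:ℝ) < 1 / 2)]
      rw [Q0, mem_closedBall_zero_iff] at h3
      linarith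
    · show rch _ z0 i.1 _ _ = _
      rw [hrch, smul_smul]
      norm_num
      exact h4
  · intro i j x hx y hy h
    have hx' : (2 : ℝ) • x ∈ ball (0 : ℝ × ℝ) 1 := by
      rw [mem_ball_zero_iff, norm_smul, Real.norm_eq_abs, abs_of_pos (by norm_num : (0:ℝ) < 2)]
      rw [mem_ball_zero_iff] at hx
      linarith
    have hy' : (2 : ℝ) • y ∈ ball (0 : ℝ × ℝ) 1 := by
      rw [mem_ball_zero_iff, norm_smul, Real.norm_eq_abs, abs_of_pos (by norm_num : (0:ℝ) < 2)]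
      rw [mem_ball_zero_iff] at hy
      linarith
    have h' : chartMap K z0 i ((2 : ℝ) • x) = chartMap K z0 j ((2 : ℝ) • y) := h
    obtain ⟨e1, e2⟩ := chart_inj hg i j _ hx' _ hy' h'
    refine ⟨e1, ?_⟩
    have := congrArg (fun v : ℝ × ℝ => (1 / 2 : ℝ) • v) e2
    simp only [smul_smul] at this
    norm_num at this
    exact this
  · intro p hp q hq
    obtain ⟨⟨i, b⟩, v, hv, rfl⟩ := chart_surj hg hfr p hp
    obtain ⟨⟨j, c⟩, w, hw, rfl⟩ := chart_surj hg hfr q hq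
    obtain ⟨k, hki, hkj⟩ : ∃ k : Fin 3, k ≠ i ∧ k ≠ j := by
      fin_cases i <;> fin_cases j <;> decide
    obtain ⟨corner, hcorner⟩ : ∃ corner : Fin 3 × Bool → E3,
        corner = fun i => WithLp.toLp 2 (fun m => if m = i.1 then (if i.2 then (1:ℝ) else -1) else 1) :=
      ⟨_, rfl⟩
    have hcm : ∀ i m, corner i m = if m = i.1 then (if i.2 then (1:ℝ) else -1) else 1 := by
      intro i m; rw [hcorner]
    have hcabs : ∀ i m, |corner i m| ≤ 1 := by
      intro i m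
      rw [hcm]
      split_ifs <;> simp
    have hcself : ∀ i, InFace i (corner i) := fun i => ⟨by rw [hcm]; simp, hcabs i⟩
    have hck : ∀ i : Fin 3 × Bool, k ≠ i.1 → InFace (k, true) (corner i) := fun i hk =>
      ⟨by rw [hcm]; simp [hk], hcabs i⟩
    have h1 := hface (i, b) v (corner (i, b)) hv (hcself _)
    have h2 := hface (k, true) (corner (i, b)) (corner (j, c)) (hck _ hki) (hck _ hkj)
    have h3 := hface (j, c) (corner (j, c)) w (hcself _) hw
    have := (h1.concat h2).concat h3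
    simpa using this
  · exact ⟨_, (hch (0, true)).maps 0 (mem_closedBall_self zero_le_one)⟩

lemma minLength_anti (S : Set E3) {ε ε' : ℝ} (h : ε ≤ ε') :
    minLength S ε' ≤ minLength S ε := by
  unfold minLength
  refine le_iInf₂ fun γ hγ => iInf₂_le γ ⟨hγ.1, hγ.2.1, fun x hx => ?_⟩
  obtain ⟨t, ht, hd⟩ := hγ.2.2 x hx
  exact ⟨t, ht, hd.trans (ENNReal.ofReal_le_ofReal h)⟩

theorem final (hP : S_PATCH) {r R : ℝ} (hr : 0 < r) (hrR : r ≤ R) : ∃ M : ℝ,
    ∀ (K : Set E3) (z0 : E3), Convex ℝ K → closedBall z0 r ⊆ K → K ⊆ closedBall z0 R →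
      μHE[2] (frontier K) ≠ ⊤ ∧ ∀ ε : ℝ, 0 < ε → minLength (frontier K) ε ≠ ⊤ ∧
        |(minLength (frontier K) ε).toReal - (μHE[2] (frontier K)).toReal / 2 * ε⁻¹| ≤
          M / √ε := by
  obtain ⟨C, K0, ρ0, D, hC, hK0, hρ0, hD, hfam⟩ := fam_ex hr hrR
  obtain ⟨Ku, hKu, hup⟩ := Fam.upper hP t_SNAKE hC hK0 hD
  obtain ⟨Kl, t0, hKl, ht0, hlow⟩ := Fam.lower t_LOW hC hK0 hρ0
  obtain ⟨a0, ha0, harea⟩ := area_bound (C := C)
  have hC0 : 0 < C := by linarith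
  obtain ⟨t1, ht1⟩ : ∃ t1 : ℝ, t1 = min (1 / (16 * C)) (min t0 1) := ⟨_, rfl⟩
  have ht1p : 0 < t1 := by rw [ht1]; positivity
  have ht1a : t1 ≤ 1 / (16 * C) := by rw [ht1]; exact min_le_left _ _
  have ht1b : t1 ≤ t0 := by rw [ht1]; exact (min_le_right _ _).trans (min_le_left _ _)
  have ht1c : t1 ≤ 1 := by rw [ht1]; exact (min_le_right _ _).trans (min_le_right _ _)
  obtain ⟨B, hB⟩ : ∃ B : ℝ, B = a0 / (2 * t1 ^ 2) + Ku / t1 := ⟨_, rfl⟩
  have hB0 : 0 ≤ B := by rw [hB]; positivity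
  obtain ⟨D1, hD1⟩ : ∃ D1 : ℝ, D1 = max D 1 := ⟨_, rfl⟩
  have hD1a : D ≤ D1 := by rw [hD1]; exact le_max_left _ _
  have hD1b : 1 ≤ D1 := by rw [hD1]; exact le_max_right _ _
  have hD1p : 0 < D1 := by linarith
  refine ⟨Ku + Kl + (B + a0 / (2 * t1 ^ 2)) * √D1 + a0, ?_⟩
  intro K z0 hconv h1 h2
  obtain ⟨ψ, hF, hne⟩ := hfam K z0 hconv h1 h2
  obtain ⟨hfin, hA⟩ := harea _ ψ K0 ρ0 D hF
  obtain ⟨A, hAd⟩ : ∃ A, A = (μHE[2] (frontier K)).toReal := ⟨_, rfl⟩
  rw [← hAd] at hA ⊢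
  have hA0 : 0 ≤ A := by rw [hAd]; exact ENNReal.toReal_nonneg
  refine ⟨hfin, ?_⟩
  intro ε hε
  have hs : 0 < √ε := Real.sqrt_pos.mpr hε
  have hss : √ε * √ε = ε := Real.mul_self_sqrt hε.le
  have hsD : 0 < √D1 := Real.sqrt_pos.mpr hD1p
  rcases le_or_gt √ε t1 with hle | hgt
  · have hu := hup _ ψ ρ0 hF hne ε hε (hle.trans ht1a)
    have hl := hlow _ ψ D hF ε hε (hle.trans ht1b)
    rw [← hAd] at hu hl
    have hfinL : minLength (frontier K) ε ≠ ⊤ := ne_top_of_le_ne_top ENNReal.ofReal_ne_top hu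
    refine ⟨hfinL, ?_⟩
    have hu' : (minLength (frontier K) ε).toReal ≤ A / (2 * ε) + Ku / √ε :=
      ENNReal.toReal_le_of_le_ofReal (by positivity) hu
    have hl' : A / (2 * ε) - Kl / √ε ≤ (minLength (frontier K) ε).toReal :=
      (ENNReal.ofReal_le_iff_le_toReal hfinL).mp hl
    have e1 : A / 2 * ε⁻¹ = A / (2 * ε) := by field_simp
    rw [e1, abs_le]
    have e2 : (Ku + Kl + (B + a0 / (2 * t1 ^ 2)) * √D1 + a0) / √ε =
        Ku / √ε + Kl / √ε + ((B + a0 / (2 * t1 ^ 2)) * √D1 + a0) / √ε := by ring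
    rw [e2]
    have p1 : 0 ≤ ((B + a0 / (2 * t1 ^ 2)) * √D1 + a0) / √ε := by positivity
    have p2 : 0 ≤ Ku / √ε := by positivity
    have p3 : 0 ≤ Kl / √ε := by positivity
    constructor <;> linarith
  · have ht2 : t1 ^ 2 ≤ ε := by
      rw [← hss, sq]
      exact mul_le_mul hgt.le hgt.le ht1p.le hs.le
    have ht2p : 0 < t1 ^ 2 := by positivity
    have hst : √(t1 ^ 2) = t1 := Real.sqrt_sq ht1p.le
    have hu := hup _ ψ ρ0 hF hne (t1 ^ 2) ht2p (by rw [hst]; exact ht1a)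
    rw [← hAd, hst] at hu
    have hu2 : minLength (frontier K) ε ≤ ENNReal.ofReal B := by
      refine (minLength_anti _ ht2).trans (hu.trans (ENNReal.ofReal_le_ofReal ?_))
      rw [hB]
      have : A / (2 * t1 ^ 2) ≤ a0 / (2 * t1 ^ 2) := by gcongr
      linarith
    have hfinL : minLength (frontier K) ε ≠ ⊤ := ne_top_of_le_ne_top ENNReal.ofReal_ne_top hu2
    refine ⟨hfinL, ?_⟩
    have hu3 : (minLength (frontier K) ε).toReal ≤ B :=
      ENNReal.toReal_le_of_le_ofReal hB0 hu2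
    have hl3 : 0 ≤ (minLength (frontier K) ε).toReal := ENNReal.toReal_nonneg
    rcases le_or_gt ε D1 with hεD | hεD
    · have h4 : A / 2 * ε⁻¹ ≤ a0 / (2 * t1 ^ 2) := by
        have e1 : A / 2 * ε⁻¹ = A / (2 * ε) := by field_simp
        rw [e1]
        gcongr
      have h5 : 0 ≤ A / 2 * ε⁻¹ := by positivity
      have h6 : B + a0 / (2 * t1 ^ 2) ≤ (Ku + Kl + (B + a0 / (2 * t1 ^ 2)) * √D1 + a0) / √ε := by
        rw [le_div_iff₀ hs]
        have h7 : √ε ≤ √D1 := Real.sqrt_le_sqrt hεD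
        have h8 : (B + a0 / (2 * t1 ^ 2)) * √ε ≤ (B + a0 / (2 * t1 ^ 2)) * √D1 :=
          mul_le_mul_of_nonneg_left h7 (by positivity)
        linarith
      refine le_trans ?_ h6
      have h9 : 0 ≤ a0 / (2 * t1 ^ 2) := by positivity
      rw [abs_le]
      constructor <;> linarith
    · -- one point is dense
      obtain ⟨x0, hx0⟩ := hne
      have hz : minLength (frontier K) ε ≤ ENNReal.ofReal 0 := by
        refine minLength_le (Cov.refl hx0) ?_
        intro x hx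
        exact ⟨x0, rfl, (hF.conn x hx x0 hx0).mono (by linarith)⟩
      have hz0 : (minLength (frontier K) ε).toReal = 0 := by
        rw [ENNReal.ofReal_zero, nonpos_iff_eq_zero] at hz
        rw [hz]; rfl
      rw [hz0, zero_sub, abs_neg, abs_of_nonneg (by positivity)]
      have h1ε : 1 ≤ ε := by linarith
      have h1s : 1 ≤ √ε := by
        rw [← Real.sqrt_one]; exact Real.sqrt_le_sqrt h1ε
      rw [le_div_iff₀ hs]
      have e1 : A / 2 * ε⁻¹ * √ε = A / 2 * (√ε)⁻¹ := by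
        nth_rewrite 1 [← hss]
        field_simp
      rw [e1]
      have h10 : (√ε)⁻¹ ≤ 1 := inv_le_one_of_one_le₀ h1s
      have h11 : A / 2 * (√ε)⁻¹ ≤ A / 2 * 1 := mul_le_mul_of_nonneg_left h10 (by positivity)
      have h12 : 0 ≤ (B + a0 / (2 * t1 ^ 2)) * √D1 := by positivity
      linarith

end Pool.Agent.Y209.DC
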