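import Pool.Agent.Y209.DC.Stm

/-!
Job DC-PATCH: tour of one nearly flat cell with exact area cost.
-/

set_option autoImplicit false
open MeasureTheory Set Metric Filter
open scoped ENNReal NNReal RealInnerProductSpace Topology
open Pool.Agent.H985.Dense

namespace Pool.Agent.Y209.DC

/-- zigzag on a square with prescribed horizontal and transversal Lipschitz constants -/
lemma zz {S : Set E3} {ψ : ℝ × ℝ → E3} {C : ℝ} (h : Chart S ψ C) {x : ℝ × ℝ} {r : ℝ}
    (hr : 0 < r) (hQ : closedBall x r ⊆ Q0) {a b κ : ℝ} (ha : 0 < a) (hb : 0 < b)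
    (h1 : ∀ p ∈ closedBall x r, ∀ q ∈ closedBall x r, p.2 = q.2 →
      dist (ψ p) (ψ q) ≤ a * |p.1 - q.1|)
    (h2 : ∀ p ∈ closedBall x r, ∀ t : ℝ, p + t • ((κ, 1) : ℝ × ℝ) ∈ closedBall x r →
      ∀ s : ℝ, p + s • ((κ, 1) : ℝ × ℝ) ∈ closedBall x r →
      dist (ψ (p + s • ((κ, 1) : ℝ × ℝ))) (ψ (p + t • ((κ, 1) : ℝ × ℝ))) ≤ b * |s - t|)
    {ε : ℝ} (hε : 0 < ε) {ρ : ℝ} (hρ : ρ ≤ 1) (hκ0 : |κ| * (2 * ε / b) ≤ (1 - ρ) * r) :
    ∃ (V : Set E3) (p q : ℝ × ℝ), p ∈ closedBall x r ∧ q ∈ closedBall x r ∧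
      Cov S V (ψ p) (ψ q) ((b * r / ε + 2) * (a * (2 * r)) + 2 * r * C) ∧
      ∀ z ∈ closedBall x (ρ * r), ∃ v ∈ V, Cov S ∅ (ψ z) v ε := by
  obtain ⟨n, hn⟩ : ∃ n : ℕ, n = ⌈b * r / ε⌉₊ := ⟨_, rfl⟩
  have hq : 0 < b * r / ε := by positivity
  have hn0 : 0 < n := by rw [hn]; exact Nat.ceil_pos.mpr hq
  have hn0' : (0:ℝ) < n := by exact_mod_cast hn0
  have hn1 : b * r / ε ≤ n := by rw [hn]; exact Nat.le_ceil _
  have hn2 : (n:ℝ) ≤ b * r / ε + 1 := by rw [hn]; exact (Nat.ceil_lt_add_one hq.le).le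
  obtain ⟨σ, hσ⟩ : ∃ σ : ℝ, σ = 2 * r / n := ⟨_, rfl⟩
  have hσ0 : 0 < σ := by rw [hσ]; positivity
  have hnσ : (n:ℝ) * σ = 2 * r := by rw [hσ]; field_simp
  have hbσ : b * (σ / 2) ≤ ε := by
    have h4 : b * r ≤ n * ε := by rwa [div_le_iff₀ hε] at hn1
    have h5 : (n:ℝ) * (b * (σ / 2)) = b * r := by
      calc (n:ℝ) * (b * (σ / 2)) = b * ((n * σ) / 2) := by ring
        _ = b * r := by rw [hnσ]; ring
    have h6 : (n:ℝ) * (b * (σ / 2)) ≤ n * ε := by rw [h5]; exact h4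
    exact le_of_mul_le_mul_left h6 hn0'
  have hκ : |κ| * σ ≤ (1 - ρ) * r := by
    have h4 : σ ≤ 2 * ε / b := by
      rw [le_div_iff₀ hb]; linarith
    exact (mul_le_mul_of_nonneg_left h4 (abs_nonneg _)).trans hκ0
  obtain ⟨e, he, hcov⟩ := h.zigzag hr hQ ha h1 hσ0 n (by rw [hnσ])
  refine ⟨ψ '' lines x r σ n, _, _, ?_, ?_, hcov.mono ?_, ?_⟩
  · rw [mem_sq]
    simp [abs_of_pos hr]
  · rw [hnσ] at he
    rcases he with rfl | rfl
    · rw [mem_sq]
      constructor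
      · simp [abs_of_pos hr]
      · simp only
        rw [abs_le]
        constructor <;> linarith
    · rw [mem_sq]
      constructor
      · simp [abs_of_pos hr]
      · simp only
        rw [abs_le]
        constructor <;> linarith
  · have e1 : (n:ℝ) * (C * σ) = 2 * r * C := by
      calc (n:ℝ) * (C * σ) = C * (n * σ) := by ring
        _ = 2 * r * C := by rw [hnσ]; ring
    rw [e1]
    have h4 : ((n:ℝ) + 1) * (a * (2 * r)) ≤ (b * r / ε + 2) * (a * (2 * r)) := by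
      apply mul_le_mul_of_nonneg_right _ (by positivity)
      linarith
    linarith
  · intro z hz
    obtain ⟨v, hv, hcv⟩ := h.zigzag_dense hr hQ hb h2 hσ0 hnσ hρ hκ hz
    exact ⟨ψ v, mem_image_of_mem _ hv, hcv.mono hbσ⟩

/-- the data of a flat square, with the area inequality on all smaller squares and with bounds of
the constants from the bi-Lipschitz property -/
lemma data2 {ψ : ℝ × ℝ → E3} {δ : ℝ} {x : ℝ × ℝ} {R : ℝ} (h : Flat ψ δ x R) (hδ0 : 0 ≤ δ)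
    (hδ : δ ≤ 1 / 2) {C : ℝ} (hC : 1 ≤ C)
    (hC1 : ∀ p ∈ closedBall x R, ∀ q ∈ closedBall x R, dist (ψ p) (ψ q) ≤ C * dist p q)
    (hC2 : ∀ p ∈ closedBall x R, ∀ q ∈ closedBall x R, dist p q ≤ C * dist (ψ p) (ψ q)) :
    ∃ a b κ : ℝ, 0 < a ∧ 0 < b ∧
      (∀ p ∈ closedBall x R, ∀ q ∈ closedBall x R, p.2 = q.2 →
        dist (ψ p) (ψ q) ≤ ((1 + δ) * a) * |p.1 - q.1|) ∧
      (∀ p ∈ closedBall x R, ∀ t : ℝ, p + t • ((κ, 1) : ℝ × ℝ) ∈ closedBall x R →
        ∀ s : ℝ, p + s • ((κ, 1) : ℝ × ℝ) ∈ closedBall x R →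
        dist (ψ (p + s • ((κ, 1) : ℝ × ℝ))) (ψ (p + t • ((κ, 1) : ℝ × ℝ))) ≤
          ((1 + δ) * b) * |s - t|) ∧
      (∀ s : ℝ, 0 < s → s ≤ R → ENNReal.ofReal (a * b * (2 * s) ^ 2) ≤
        ENNReal.ofReal ((1 + 2 * δ) ^ 2) * μHE[2] (ψ '' closedBall x s)) ∧
      a ≤ 2 * C ∧ |κ| ≤ 2 * C * b := by
  obtain ⟨hr, A, hA, hψ⟩ := h
  obtain ⟨a, b, κ, ha, hb, hAa, hAb, horth⟩ := lin_data hA
  have hup : ∀ p ∈ closedBall x R, ∀ q ∈ closedBall x R,
      dist (ψ p) (ψ q) ≤ (1 + δ) * ‖A (p - q)‖ := by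
    intro p hp q hq
    rw [dist_eq_norm]
    have h1 := hψ p hp q hq
    have h2 := norm_add_le (ψ p - ψ q - A (p - q)) (A (p - q))
    rw [sub_add_cancel] at h2
    linarith
  have hlow0 : ∀ p ∈ closedBall x R, ∀ q ∈ closedBall x R,
      (1 - δ) * ‖A (p - q)‖ ≤ dist (ψ p) (ψ q) := by
    intro p hp q hq
    rw [dist_eq_norm]
    have h1 := hψ p hp q hq
    have h2 := norm_sub_norm_le (A (p - q)) (ψ p - ψ q)
    rw [norm_sub_rev (A (p - q)) (ψ p - ψ q)] at h2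
    linarith
  have hlow : ∀ p ∈ closedBall x R, ∀ q ∈ closedBall x R,
      ‖A (p - q)‖ ≤ (1 + 2 * δ) * dist (ψ p) (ψ q) := by
    intro p hp q hq
    have h3 := hlow0 p hp q hq
    rw [dist_eq_norm] at h3 ⊢
    have h4 := norm_nonneg (A (p - q))
    have h5 : (1 + 2 * δ) * ((1 - δ) * ‖A (p - q)‖) ≤ (1 + 2 * δ) * ‖ψ p - ψ q‖ :=
      mul_le_mul_of_nonneg_left h3 (by linarith)
    nlinarith [mul_nonneg hδ0 h4, mul_nonneg (mul_nonneg hδ0 h4) (by linarith : (0:ℝ) ≤ 1 - 2 * δ)]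
  have hxR : x ∈ closedBall x R := mem_closedBall_self hr.le
  have hscale : ∀ v : ℝ × ℝ, v ≠ 0 → ∃ t : ℝ, 0 < t ∧ x + t • v ∈ closedBall x R := by
    intro v hv
    have hv' : 0 < ‖v‖ := norm_pos_iff.mpr hv
    refine ⟨R / ‖v‖, by positivity, ?_⟩
    rw [mem_closedBall, dist_eq_norm, add_sub_cancel_left, norm_smul, Real.norm_eq_abs,
      abs_of_pos (by positivity)]
    apply le_of_eq
    field_simp
  have hlin1 : ∀ v : ℝ × ℝ, v ≠ 0 → (1 - δ) * ‖A v‖ ≤ C * ‖v‖ := by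
    intro v hv
    obtain ⟨t, ht, htm⟩ := hscale v hv
    have h1 := (hlow0 _ htm _ hxR).trans (hC1 _ htm _ hxR)
    rw [add_sub_cancel_left, dist_eq_norm, add_sub_cancel_left, map_smul, norm_smul, norm_smul,
      Real.norm_eq_abs, abs_of_pos ht] at h1
    have h2 : t * ((1 - δ) * ‖A v‖) ≤ t * (C * ‖v‖) := by linarith
    exact le_of_mul_le_mul_left h2 ht
  have hlin2 : ∀ v : ℝ × ℝ, v ≠ 0 → ‖v‖ ≤ C * ((1 + δ) * ‖A v‖) := by
    intro v hv
    obtain ⟨t, ht, htm⟩ := hscale v hv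
    have h1 := (hC2 _ htm _ hxR).trans (mul_le_mul_of_nonneg_left (hup _ htm _ hxR) (by linarith))
    rw [add_sub_cancel_left, dist_eq_norm, add_sub_cancel_left, map_smul, norm_smul, norm_smul,
      Real.norm_eq_abs, abs_of_pos ht] at h1
    have h2 : t * ‖v‖ ≤ t * (C * ((1 + δ) * ‖A v‖)) := by linarith
    exact le_of_mul_le_mul_left h2 ht
  have ha2 : a ≤ 2 * C := by
    have h1 := hlin1 (1, 0) (by simp [Prod.ext_iff])
    have h2 : ‖((1, 0) : ℝ × ℝ)‖ = 1 := by simp [Prod.norm_def]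
    rw [hAa, h2] at h1
    nlinarith
  have hκ2 : |κ| ≤ 2 * C * b := by
    have h1 := hlin2 (κ, 1) (by simp [Prod.ext_iff])
    have h2 : |κ| ≤ ‖((κ, 1) : ℝ × ℝ)‖ := by
      rw [Prod.norm_def]
      exact le_max_left _ _
    rw [hAb] at h1
    have h3 : C * ((1 + δ) * b) ≤ C * (2 * b) := by
      apply mul_le_mul_of_nonneg_left _ (by linarith)
      nlinarith
    linarith
  -- orthonormal coordinates
  obtain ⟨e1, he1⟩ : ∃ e1 : E3, e1 = a⁻¹ • A (1, 0) := ⟨_, rfl⟩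
  obtain ⟨e2, he2⟩ : ∃ e2 : E3, e2 = b⁻¹ • A (κ, 1) := ⟨_, rfl⟩
  have h11 : ⟪e1, e1⟫ = 1 := by
    rw [he1, real_inner_self_eq_norm_sq, norm_smul, hAa, Real.norm_eq_abs, abs_of_pos (by positivity)]
    field_simp
  have h22 : ⟪e2, e2⟫ = 1 := by
    rw [he2, real_inner_self_eq_norm_sq, norm_smul, hAb, Real.norm_eq_abs, abs_of_pos (by positivity)]
    field_simp
  have h12 : ⟪e1, e2⟫ = 0 := by
    rw [he1, he2, inner_smul_left, inner_smul_right, horth]; simp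
  have h21 : ⟪e2, e1⟫ = 0 := by rw [real_inner_comm, h12]
  have hAu : ∀ u : ℝ × ℝ, A u = (a * (u.1 - κ * u.2)) • e1 + (b * u.2) • e2 := by
    intro u
    have e : u = (u.1 - κ * u.2) • ((1, 0) : ℝ × ℝ) + u.2 • ((κ, 1) : ℝ × ℝ) := by
      ext
      · simp; ring
      · simp
    conv_lhs => rw [e]
    rw [map_add, map_smul, map_smul, he1, he2, smul_smul, smul_smul]
    congr 2
    · field_simp
    · field_simp
  obtain ⟨τ, hτ⟩ : ∃ τ : E3 → P2, τ = fun v => !₂[⟪e1, v⟫, ⟪e2, v⟫] := ⟨_, rfl⟩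
  have hτd : ∀ v w, dist (τ v) (τ w) ^ 2 = ⟪e1, v - w⟫ ^ 2 + ⟪e2, v - w⟫ ^ 2 := by
    intro v w
    rw [hτ, EuclideanSpace.dist_eq, Real.sq_sqrt (by positivity), Fin.sum_univ_two]
    simp only [Matrix.cons_val_zero, Matrix.cons_val_one, Real.dist_eq, sq_abs,
      inner_sub_right]
  have hA2 : ∀ u : ℝ × ℝ, ‖A u‖ ^ 2 = ⟪e1, A u⟫ ^ 2 + ⟪e2, A u⟫ ^ 2 := by
    intro u
    rw [← real_inner_self_eq_norm_sq, hAu]
    simp only [inner_add_left, inner_add_right, inner_smul_left, inner_smul_right, h11, h22, h12,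
      h21, conj_trivial]
    ring
  have hτA : ∀ p q : ℝ × ℝ, dist (τ (A p)) (τ (A q)) = ‖A (p - q)‖ := by
    intro p q
    have h1 := hτd (A p) (A q)
    rw [← map_sub, ← hA2] at h1
    exact (sq_eq_sq₀ dist_nonneg (norm_nonneg _)).mp h1
  refine ⟨a, b, κ, ha, hb, ?_, ?_, ?_, ha2, hκ2⟩
  · intro p hp q hq hpq
    refine (hup p hp q hq).trans ?_
    have e : p - q = (p.1 - q.1) • ((1, 0) : ℝ × ℝ) := by
      ext
      · simp
      · simp [hpq]
    rw [e, map_smul, norm_smul, hAa, Real.norm_eq_abs]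
    apply le_of_eq; ring
  · intro p _ t ht s hs
    refine (hup _ hs _ ht).trans ?_
    have e : p + s • ((κ, 1) : ℝ × ℝ) - (p + t • ((κ, 1) : ℝ × ℝ)) =
        (s - t) • ((κ, 1) : ℝ × ℝ) := by rw [sub_smul]; abel
    rw [e, map_smul, norm_smul, hAb, Real.norm_eq_abs]
    apply le_of_eq; ring
  · intro s hs hsR
    have hcmp := compare_HE (f := fun p => τ (A p)) (g := ψ) (s := closedBall x s)
      (L := 1 + 2 * δ) (by positivity) (by
        intro p hp q hq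
        rw [hτA]
        exact hlow p (closedBall_subset_closedBall hsR hp) q (closedBall_subset_closedBall hsR hq))
    refine le_trans (le_of_eq ?_) hcmp
    rw [EuclideanSpace.euclideanHausdorffMeasure_eq_volume]
    let L := Matrix.toLin (Module.Basis.finTwoProd ℝ) (Module.Basis.finTwoProd ℝ) !![a, -(a * κ); 0, b]
    have himg : (fun p => τ (A p)) '' closedBall x s = eqv ⁻¹' (L '' closedBall x s) := by
      have hL : ∀ u, eqv (τ (A u)) = L u := by
        intro u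
        rw [eqv_apply, hτ]
        simp only [Matrix.cons_val_zero, Matrix.cons_val_one]
        rw [Matrix.toLin_finTwoProd_apply, hAu]
        simp only [inner_add_right, inner_smul_right, h11, h22, h12, h21]
        ext
        · simp; ring
        · simp
      ext y
      constructor
      · rintro ⟨u, hu, rfl⟩
        exact ⟨u, hu, (hL u).symm⟩
      · rintro ⟨u, hu, hy⟩
        refine ⟨u, hu, ?_⟩
        apply eqv.injective
        rw [← hy]; exact hL u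
    rw [himg, eqv_mp.measure_preimage_equiv, Measure.addHaar_image_linearMap, vol_sq x hs.le,
      ← ENNReal.ofReal_mul (abs_nonneg _)]
    congr 1
    rw [LinearMap.det_toLin, Matrix.det_fin_two]
    simp only [Matrix.of_apply, Matrix.cons_val', Matrix.cons_val_zero, Matrix.cons_val_one,
      Matrix.cons_val_fin_one, mul_zero, sub_zero]
    rw [abs_of_pos (by positivity)]

/-- the estimate of the cost in the flat case -/
lemma cost_flat {a b C M0 r r' δ ε μ : ℝ} (ha : 0 < a) (hb : 0 < b) (hC : 1 ≤ C) (hM0 : 0 ≤ M0)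
    (hr : 0 < r) (hδ0 : 0 ≤ δ) (hδ : δ ≤ 1 / 8) (hε : 0 < ε) (hεr : 4 * C * ε ≤ r)
    (hr' : r' = r + 4 * C * ε) (ha2 : a ≤ 2 * C) (hμ0 : 0 ≤ μ) (hμ : μ ≤ M0 * r ^ 2)
    (harea : a * b * (2 * r) ^ 2 ≤ (1 + 2 * δ) ^ 2 * μ) :
    ((1 + δ) * b * r' / ε + 2) * ((1 + δ) * a * (2 * r')) + 2 * r' * C ≤
      μ / (2 * ε) + (8 * M0 + 18 * C * M0 + 36 * C) * (δ * r ^ 2 / ε + r) := by
  have hr'2 : r' ≤ 2 * r := by rw [hr']; linarith
  have hr'0 : 0 < r' := by rw [hr']; positivity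
  -- main term
  have e1 : (1 + δ) * b * r' / ε * ((1 + δ) * a * (2 * r')) =
      (1 + δ) ^ 2 * (a * b * (2 * r') ^ 2) / (2 * ε) := by
    field_simp
    try ring
  have h2 : (2 * r') ^ 2 ≤ (2 * r) ^ 2 * (1 + 12 * C * ε / r) := by
    have h3 : (2 * r) ^ 2 * (1 + 12 * C * ε / r) = 4 * r ^ 2 + 48 * C * ε * r := by
      field_simp; ring
    rw [h3, hr']
    have : 0 ≤ C * ε := by positivity
    nlinarith [mul_le_mul_of_nonneg_left hεr this]
  have h3 : a * b * (2 * r') ^ 2 ≤ (1 + 2 * δ) ^ 2 * μ * (1 + 12 * C * ε / r) := by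
    calc a * b * (2 * r') ^ 2 ≤ a * b * ((2 * r) ^ 2 * (1 + 12 * C * ε / r)) :=
          mul_le_mul_of_nonneg_left h2 (by positivity)
      _ = (a * b * (2 * r) ^ 2) * (1 + 12 * C * ε / r) := by ring
      _ ≤ _ := mul_le_mul_of_nonneg_right harea (by positivity)
  have h4 : (1 + δ) ^ 2 * (1 + 2 * δ) ^ 2 ≤ 1 + 16 * δ := by
    have h5 : (1 + δ) * (1 + 2 * δ) ≤ 1 + 4 * δ := by nlinarith
    have h6 : ((1 + δ) * (1 + 2 * δ)) ^ 2 ≤ (1 + 4 * δ) ^ 2 :=
      pow_le_pow_left₀ (by positivity) h5 2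
    nlinarith
  have h5 : (1 + δ) ^ 2 * (a * b * (2 * r') ^ 2) ≤ (1 + 16 * δ) * (μ * (1 + 12 * C * ε / r)) := by
    calc (1 + δ) ^ 2 * (a * b * (2 * r') ^ 2)
        ≤ (1 + δ) ^ 2 * ((1 + 2 * δ) ^ 2 * μ * (1 + 12 * C * ε / r)) :=
          mul_le_mul_of_nonneg_left h3 (by positivity)
      _ = ((1 + δ) ^ 2 * (1 + 2 * δ) ^ 2) * (μ * (1 + 12 * C * ε / r)) := by ring
      _ ≤ _ := mul_le_mul_of_nonneg_right h4 (by positivity)
  have h6 : (1 + 16 * δ) * (μ * (1 + 12 * C * ε / r)) / (2 * ε) =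
      μ / (2 * ε) + 8 * δ * μ / ε + 6 * C * μ / r + 96 * δ * C * μ / r := by
    field_simp; ring
  have h7 : 8 * δ * μ / ε ≤ 8 * M0 * (δ * r ^ 2 / ε) := by
    have : 8 * M0 * (δ * r ^ 2 / ε) = 8 * δ * (M0 * r ^ 2) / ε := by ring
    rw [this]
    apply div_le_div_of_nonneg_right _ hε.le
    exact mul_le_mul_of_nonneg_left hμ (by positivity)
  have hμr : μ / r ≤ M0 * r := by
    rw [div_le_iff₀ hr]
    calc μ ≤ M0 * r ^ 2 := hμ
      _ = M0 * r * r := by ring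
  have h8 : 6 * C * μ / r ≤ 6 * C * M0 * r := by
    calc 6 * C * μ / r = 6 * C * (μ / r) := by ring
      _ ≤ 6 * C * (M0 * r) := mul_le_mul_of_nonneg_left hμr (by positivity)
      _ = _ := by ring
  have h9 : 96 * δ * C * μ / r ≤ 12 * C * M0 * r := by
    calc 96 * δ * C * μ / r = 96 * δ * C * (μ / r) := by ring
      _ ≤ 96 * δ * C * (M0 * r) := mul_le_mul_of_nonneg_left hμr (by positivity)
      _ = δ * (96 * C * M0 * r) := by ring
      _ ≤ 1 / 8 * (96 * C * M0 * r) := mul_le_mul_of_nonneg_right hδ (by positivity)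
      _ = _ := by ring
  have h10 : (1 + δ) ^ 2 * (a * b * (2 * r') ^ 2) / (2 * ε) ≤
      μ / (2 * ε) + 8 * M0 * (δ * r ^ 2 / ε) + 18 * C * M0 * r := by
    have := div_le_div_of_nonneg_right h5 (by positivity : (0:ℝ) ≤ 2 * ε)
    linarith
  have h11 : 2 * ((1 + δ) * a * (2 * r')) ≤ 32 * C * r := by
    have h12 : (1 + δ) * a ≤ 4 * C := by nlinarith
    have h13 : (1 + δ) * a * (2 * r') ≤ 4 * C * (2 * (2 * r)) :=
      mul_le_mul h12 (by linarith) (by positivity) (by positivity)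
    linarith
  have h12 : 2 * r' * C ≤ 4 * C * r := by nlinarith
  have h13 : 0 ≤ δ * r ^ 2 / ε := by positivity
  have h14 : 0 ≤ C * M0 := by positivity
  calc ((1 + δ) * b * r' / ε + 2) * ((1 + δ) * a * (2 * r')) + 2 * r' * C
      = (1 + δ) * b * r' / ε * ((1 + δ) * a * (2 * r')) + 2 * ((1 + δ) * a * (2 * r'))
        + 2 * r' * C := by ring
    _ ≤ μ / (2 * ε) + 8 * M0 * (δ * r ^ 2 / ε) + 18 * C * M0 * r + 32 * C * r + 4 * C * r := by
        rw [e1]; linarith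
    _ ≤ _ := by
        nlinarith [mul_nonneg h14 h13, mul_nonneg hM0 hr.le, mul_nonneg (by linarith : 0 ≤ C) h13]

theorem t_PATCH : S_PATCH := by
  intro C hC
  obtain ⟨c, hc⟩ := HE_prod
  have hc0 : (0:ℝ) ≤ c := c.2
  obtain ⟨M0, hM0⟩ : ∃ M0 : ℝ, M0 = 4 * (C ^ 2 * c) := ⟨_, rfl⟩
  have hM00 : 0 ≤ M0 := by rw [hM0]; positivity
  refine ⟨(8 * M0 + 18 * C * M0 + 36 * C) + (16 * C ^ 2 + 6 * C), by positivity, ?_⟩
  intro S ψ h hanti x r δ ε hr hQ hδ0 hflat hε hεr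
  have hrr : closedBall x r ⊆ closedBall x (2 * r) := closedBall_subset_closedBall (by linarith)
  have hx0 : 0 ≤ δ * r ^ 2 / ε + r := by positivity
  by_cases hδ : δ ≤ 1 / 8
  · have hf := hflat hδ
    obtain ⟨a, b, κ, ha, hb, h1, h2, h3, ha2, hκ2⟩ := data2 hf hδ0 (by linarith) hC
      (fun p hp q hq => h.lip p (hQ hp) q (hQ hq)) (fun p hp q hq => hanti p (hQ hp) q (hQ hq))
    obtain ⟨r', hr'⟩ : ∃ r' : ℝ, r' = r + 4 * C * ε := ⟨_, rfl⟩
    have hr'0 : 0 < r' := by rw [hr']; positivity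
    have hr'2 : r' ≤ 2 * r := by rw [hr']; linarith
    have hsub : closedBall x r' ⊆ closedBall x (2 * r) := closedBall_subset_closedBall hr'2
    have hκ0 : |κ| * (2 * ε / ((1 + δ) * b)) ≤ (1 - r / r') * r' := by
      have e1 : (1 - r / r') * r' = 4 * C * ε := by
        rw [sub_mul, one_mul, div_mul_cancel₀ _ hr'0.ne', hr']; ring
      rw [e1]
      calc |κ| * (2 * ε / ((1 + δ) * b)) ≤ (2 * C * ((1 + δ) * b)) * (2 * ε / ((1 + δ) * b)) := by
            apply mul_le_mul_of_nonneg_right _ (by positivity)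
            refine hκ2.trans ?_
            apply mul_le_mul_of_nonneg_left _ (by positivity)
            nlinarith
        _ = 4 * C * ε := by field_simp; try ring
    obtain ⟨V, p, q, hp, hq, hcov, hdense⟩ := zz h hr'0 (hsub.trans hQ)
      (a := (1 + δ) * a) (b := (1 + δ) * b) (κ := κ)
      (by positivity) (by positivity) (fun p hp q hq => h1 p (hsub hp) q (hsub hq))
      (fun p hp t ht s hs => h2 p (hsub hp) t (hsub ht) s (hsub hs)) hε (ρ := r / r')
      ((div_le_one hr'0).mpr (by rw [hr']; linarith [mul_nonneg (by linarith : 0 ≤ 4 * C) hε.le]))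
      hκ0
    refine ⟨V, p, q, hsub hp, hsub hq, hcov.mono ?_, ?_⟩
    · -- measure
      have hle := h.HE_image_le hc (s := closedBall x r) (hrr.trans hQ)
      rw [vol_sq x hr.le, ← ENNReal.ofReal_mul (by positivity)] at hle
      have hfin : μHE[2] (ψ '' closedBall x r) ≠ ⊤ := ne_top_of_le_ne_top ENNReal.ofReal_ne_top hle
      have hμ : (μHE[2] (ψ '' closedBall x r)).toReal ≤ M0 * r ^ 2 := by
        refine (ENNReal.toReal_le_of_le_ofReal (by positivity) hle).trans (le_of_eq ?_)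
        rw [hM0]; ring
      have harea : a * b * (2 * r) ^ 2 ≤ (1 + 2 * δ) ^ 2 * (μHE[2] (ψ '' closedBall x r)).toReal := by
        have h5 := h3 r hr (by linarith)
        rw [← ENNReal.ofReal_toReal hfin, ← ENNReal.ofReal_mul (by positivity)] at h5
        exact (ENNReal.ofReal_le_ofReal_iff (by positivity)).mp h5
      have h6 := cost_flat ha hb hC hM00 hr hδ0 hδ hε hεr hr' ha2 ENNReal.toReal_nonneg hμ harea
      have h7 : 0 ≤ (16 * C ^ 2 + 6 * C) * (δ * r ^ 2 / ε + r) := by positivity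
      linarith
    · have e1 : r / r' * r' = r := div_mul_cancel₀ _ hr'0.ne'
      rw [e1] at hdense
      exact hdense
  · push Not at hδ
    obtain ⟨V, p, q, hp, hq, hcov, hdense⟩ := zz h hr (hrr.trans hQ)
      (a := C) (b := C) (κ := 0) h.pos h.pos (by
        intro p hp q hq hpq
        refine (h.lip p (hQ (hrr hp)) q (hQ (hrr hq))).trans ?_
        apply mul_le_mul_of_nonneg_left _ h.pos.le
        refine (dist_le_add p q).trans ?_
        simp [hpq]) (by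
        intro p _ t ht s hs
        refine (h.lip _ (hQ (hrr hs)) _ (hQ (hrr ht))).trans ?_
        apply mul_le_mul_of_nonneg_left _ h.pos.le
        refine (dist_le_add _ _).trans ?_
        simp) hε (ρ := 1) le_rfl (by simp)
    refine ⟨V, p, q, hrr hp, hrr hq, hcov.mono ?_, ?_⟩
    · have h1 : 0 ≤ (μHE[2] (ψ '' closedBall x r)).toReal / (2 * ε) :=
        div_nonneg ENNReal.toReal_nonneg (by positivity)
      have h2 : (C * r / ε + 2) * (C * (2 * r)) + 2 * r * C = 2 * C ^ 2 * (r ^ 2 / ε) + 6 * C * r := by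
        field_simp; try ring
      have h3 : 2 * C ^ 2 * (r ^ 2 / ε) ≤ 16 * C ^ 2 * (δ * r ^ 2 / ε) := by
        have : 16 * C ^ 2 * (δ * r ^ 2 / ε) = 2 * C ^ 2 * (8 * δ * (r ^ 2 / ε)) := by ring
        rw [this]
        apply mul_le_mul_of_nonneg_left _ (by positivity)
        have h4 : 0 ≤ r ^ 2 / ε := by positivity
        nlinarith
      rw [h2]
      have h5 : 0 ≤ (8 * M0 + 18 * C * M0 + 36 * C) * (δ * r ^ 2 / ε + r) := by positivity
      have h6 : 0 ≤ 16 * C ^ 2 * r := by positivity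
      have h7 : 0 ≤ 6 * C * (δ * r ^ 2 / ε) := by positivity
      linarith
    · simpa using hdense

end Pool.Agent.Y209.DC
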