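import Pool.Agent.Y209.DC.Fin
import Pool.Agent.Y209.DC.Patch

set_option autoImplicit false
open MeasureTheory Set Metric Filter
open scoped ENNReal NNReal Topology Pointwise
open Pool.Agent.H985.Dense

namespace Pool.Agent.Y209.DC

lemma isPath_smul {S : Set E3} {γ : ℝ → E3} (c : ℝ) (h : IsPath S γ) :
    IsPath (c • S) (fun t => c • γ t) :=
  ⟨h.1.const_smul c, fun t ht => smul_mem_smul_set (h.2 t ht)⟩

lemma pathLength_smul (γ : ℝ → E3) {c : ℝ} (hc : 0 < c) :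
    pathLength (fun t => c • γ t) ≤ ENNReal.ofReal c * pathLength γ := by
  have h : LipschitzOnWith ‖c‖₊ (fun x : E3 => c • x) univ :=
    (lipschitzWith_smul c).lipschitzOnWith
  have h2 := h.comp_eVariationOn_le (g := γ) (s := Icc (0:ℝ) 1) (mapsTo_univ _ _)
  have e : ((‖c‖₊ : ℝ≥0) : ℝ≥0∞) = ENNReal.ofReal c := by
    rw [← Real.toNNReal_eq_nnnorm_of_nonneg hc.le]; rfl
  rw [e] at h2
  exact h2

lemma intrinsic_smul (S : Set E3) {c : ℝ} (hc : 0 < c) (x y : E3) :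
    intrinsicDist (c • S) (c • x) (c • y) ≤ ENNReal.ofReal c * intrinsicDist S x y := by
  have h0 : ENNReal.ofReal c ≠ 0 := (ENNReal.ofReal_pos.mpr hc).ne'
  unfold intrinsicDist
  rw [ENNReal.mul_iInf_of_ne h0 ENNReal.ofReal_ne_top]
  refine le_iInf fun γ => ?_
  rw [ENNReal.mul_iInf_of_ne h0 ENNReal.ofReal_ne_top]
  refine le_iInf fun hγ => ?_
  refine (iInf₂_le (fun t => c • γ t) ⟨isPath_smul c hγ.1, ?_, ?_⟩).trans (pathLength_smul γ hc)
  · simp only [hγ.2.1]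
  · simp only [hγ.2.2]

lemma minLength_smul_le (S : Set E3) {c : ℝ} (hc : 0 < c) (ε : ℝ) :
    minLength (c • S) (c * ε) ≤ ENNReal.ofReal c * minLength S ε := by
  have h0 : ENNReal.ofReal c ≠ 0 := (ENNReal.ofReal_pos.mpr hc).ne'
  unfold minLength
  rw [ENNReal.mul_iInf_of_ne h0 ENNReal.ofReal_ne_top]
  refine le_iInf fun γ => ?_
  rw [ENNReal.mul_iInf_of_ne h0 ENNReal.ofReal_ne_top]
  refine le_iInf fun hγ => ?_
  refine (iInf₂_le (fun t => c • γ t) ⟨isPath_smul c hγ.1, ?_, ?_⟩).trans (pathLength_smul γ hc)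
  · exact ne_top_of_le_ne_top (ENNReal.mul_ne_top ENNReal.ofReal_ne_top hγ.2.1)
      (pathLength_smul γ hc)
  · rintro _ ⟨x, hx, rfl⟩
    obtain ⟨t, ht, hd⟩ := hγ.2.2 x hx
    refine ⟨t, ht, (intrinsic_smul S hc x (γ t)).trans ?_⟩
    rw [ENNReal.ofReal_mul hc.le]
    gcongr

lemma minLength_smul (S : Set E3) {c : ℝ} (hc : 0 < c) (ε : ℝ) :
    minLength (c • S) (c * ε) = ENNReal.ofReal c * minLength S ε := by
  refine le_antisymm (minLength_smul_le S hc ε) ?_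
  have h := minLength_smul_le (c • S) (inv_pos.mpr hc) (c * ε)
  rw [inv_smul_smul₀ hc.ne', inv_mul_cancel_left₀ hc.ne'] at h
  calc ENNReal.ofReal c * minLength S ε
      ≤ ENNReal.ofReal c * (ENNReal.ofReal c⁻¹ * minLength (c • S) (c * ε)) := by gcongr
    _ = minLength (c • S) (c * ε) := by
        rw [← mul_assoc, ← ENNReal.ofReal_mul hc.le, mul_inv_cancel₀ hc.ne', ENNReal.ofReal_one,
          one_mul]

theorem scaled {κ : ℝ} (hκ : 0 < κ) : ∃ M : ℝ,
    ∀ K : Set E3, Convex ℝ K → IsCompact K → (interior K).Nonempty →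
      (∃ z : E3, closedBall z (κ * Metric.diam K) ⊆ K) →
      μHE[2] (frontier K) ≠ ⊤ ∧ ∀ ε : ℝ, 0 < ε → minLength (frontier K) ε ≠ ⊤ ∧
        |(minLength (frontier K) ε).toReal - (μHE[2] (frontier K)).toReal / 2 * ε⁻¹| ≤
          M * Metric.diam K * √(Metric.diam K / ε) := by
  obtain ⟨M, hM⟩ := final t_PATCH hκ (le_max_right 1 κ)
  refine ⟨M, ?_⟩
  intro K hconv hcomp hint hball
  obtain ⟨z, hz⟩ := hball
  obtain ⟨d, hd⟩ : ∃ d, d = Metric.diam K := ⟨_, rfl⟩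
  rw [← hd] at hz ⊢
  have hd0 : 0 < d := by
    rw [hd]
    obtain ⟨w, hw⟩ := hint
    have hnt : K.Nontrivial := by
      by_contra hcon
      rw [Set.not_nontrivial_iff] at hcon
      have h1 : K = {w} := hcon.eq_singleton_of_mem (interior_subset hw)
      rw [h1, interior_singleton] at hw
      exact hw
    obtain ⟨a, ha, b, hb, hab⟩ := hnt
    exact lt_of_lt_of_le (dist_pos.mpr hab) (dist_le_diam_of_mem hcomp.isBounded ha hb)
  have hc : 0 < d⁻¹ := inv_pos.mpr hd0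
  have hzK : z ∈ K := hz (mem_closedBall_self (by positivity))
  have hconv' : Convex ℝ (d⁻¹ • K) := hconv.smul _
  have hb1 : closedBall (d⁻¹ • z) κ ⊆ d⁻¹ • K := by
    have h1 : closedBall (d⁻¹ • z) κ = d⁻¹ • closedBall z (κ * d) := by
      rw [_root_.smul_closedBall _ _ (by positivity), Real.norm_eq_abs, abs_of_pos hc]
      congr 1
      field_simp
    rw [h1]
    exact smul_set_mono hz
  have hb2 : d⁻¹ • K ⊆ closedBall (d⁻¹ • z) (max 1 κ) := by
    rintro _ ⟨x, hx, rfl⟩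
    have h1 : dist x z ≤ d := by rw [hd]; exact dist_le_diam_of_mem hcomp.isBounded hx hzK
    show dist (d⁻¹ • x) (d⁻¹ • z) ≤ _
    rw [dist_smul₀, Real.norm_eq_abs, abs_of_pos hc]
    refine le_trans ?_ (le_max_left _ _)
    rw [inv_mul_le_iff₀ hd0]
    linarith
  have hfr : frontier (d⁻¹ • K) = d⁻¹ • frontier K :=
    ((Homeomorph.smulOfNeZero d⁻¹ hc.ne').image_frontier K).symm
  obtain ⟨hfin, hall⟩ := hM _ _ hconv' hb1 hb2
  rw [hfr] at hfin hall
  have hHE : μHE[2] (d⁻¹ • frontier K) = ENNReal.ofReal (d⁻¹ ^ 2) * μHE[2] (frontier K) := by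
    rw [MeasureTheory.Measure.euclideanHausdorffMeasure_smul₀ 2 hc.ne']
    have e : ‖d⁻¹‖₊ = Real.toNNReal d⁻¹ := (Real.toNNReal_eq_nnnorm_of_nonneg hc.le).symm
    rw [e, ENNReal.smul_def, smul_eq_mul, ENNReal.coe_pow, ENNReal.ofReal_pow hc.le]
    rfl
  have hfinA : μHE[2] (frontier K) ≠ ⊤ := by
    intro h
    rw [hHE, h, ENNReal.mul_top] at hfin
    · exact hfin rfl
    · exact (ENNReal.ofReal_pos.mpr (by positivity)).ne'
  refine ⟨hfinA, ?_⟩
  intro ε hε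
  obtain ⟨h1, h2⟩ := hall (d⁻¹ * ε) (by positivity)
  rw [minLength_smul _ hc] at h1 h2
  refine ⟨?_, ?_⟩
  · intro h
    rw [h, ENNReal.mul_top] at h1
    · exact h1 rfl
    · exact (ENNReal.ofReal_pos.mpr hc).ne'
  · rw [hHE, ENNReal.toReal_mul, ENNReal.toReal_mul, ENNReal.toReal_ofReal hc.le,
      ENNReal.toReal_ofReal (by positivity)] at h2
    obtain ⟨l, hl⟩ : ∃ l, l = (minLength (frontier K) ε).toReal := ⟨_, rfl⟩
    obtain ⟨A, hA⟩ : ∃ A, A = (μHE[2] (frontier K)).toReal := ⟨_, rfl⟩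
    rw [← hl, ← hA] at h2 ⊢
    have e1 : d⁻¹ * l - d⁻¹ ^ 2 * A / 2 * (d⁻¹ * ε)⁻¹ = d⁻¹ * (l - A / 2 * ε⁻¹) := by
      field_simp
    rw [e1, abs_mul, abs_of_pos hc] at h2
    have e2 : M / √(d⁻¹ * ε) = M * √(d / ε) := by
      rw [div_eq_mul_inv, ← Real.sqrt_inv]
      congr 2
      rw [mul_inv, inv_inv]; rfl
    rw [e2, inv_mul_le_iff₀ hd0] at h2
    linarith

theorem single {K : Set E3} (hconv : Convex ℝ K) (hcomp : IsCompact K)
    (hint : (interior K).Nonempty) : ∃ M : ℝ, ∀ ε : ℝ, 0 < ε →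
      |(minLength (frontier K) ε).toReal - (μHE[2] (frontier K)).toReal / 2 * ε⁻¹| ≤ M / √ε := by
  obtain ⟨z, hz⟩ := hint
  obtain ⟨r, hr, hball⟩ := Metric.mem_nhds_iff.mp (mem_interior_iff_mem_nhds.mp hz)
  have h1 : closedBall z (r / 2) ⊆ K :=
    (closedBall_subset_ball (by linarith)).trans hball
  obtain ⟨R, hR⟩ := hcomp.isBounded.subset_closedBall z
  obtain ⟨M, hM⟩ := final t_PATCH (half_pos hr) (le_max_right R (r / 2))
  exact ⟨M, fun ε hε => ((hM K z hconv h1 (hR.trans (closedBall_subset_closedBall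
    (le_max_left _ _)))).2 ε hε).2⟩

end Pool.Agent.Y209.DC
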