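import Pool.Agent.H985.Dense.Convex2

/-!
Statements of the project DC (quantitative form of the theorem on shortest dense curves on convex
surfaces, MP_523900_gt). Definitions of `Chart`, `Cov`, `Flat`, `FlatPiece`, `GaugeData`, `face`,
`Q0`, `P2` are those of `Pool.Agent.H985.Dense`.
-/

set_option autoImplicit false
open MeasureTheory Set Metric
open scoped ENNReal NNReal
open Pool.Agent.H985.Dense

namespace Pool.Agent.Y209.DC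

/-- Centre of the cell `(j,k)` of the grid of `N^2` cells of side `1/N` of the square
`closedBall 0 (1/2)`. -/
noncomputable def ctr (N j k : ℕ) : ℝ × ℝ :=
  (-1 / 2 + ((j : ℝ) + 1 / 2) / N, -1 / 2 + ((k : ℝ) + 1 / 2) / N)

/-- Sum of the two diagonal second differences of `G` at `x`, with step `t`. -/
noncomputable def D2 (G : ℝ × ℝ → ℝ) (x : ℝ × ℝ) (t : ℝ) : ℝ :=
  (G (x + (t, t)) + G (x - (t, t)) - 2 * G x) +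
    (G (x + (t, -t)) + G (x - (t, -t)) - 2 * G x)

/-- The radial chart belonging to the function `g` on the face `(i, s)` of the cube, scaled by `2`. -/
noncomputable def rch (g : E3 → ℝ) (z0 : E3) (i : Fin 3) (s : ℝ) (z : ℝ × ℝ) : E3 :=
  z0 + (g (face i s ((2 : ℝ) • z)))⁻¹ • face i s ((2 : ℝ) • z)

/-- PATCH: tour of one cell. -/
def S_PATCH : Prop := ∀ C : ℝ, 1 ≤ C → ∃ K : ℝ, 0 ≤ K ∧
  ∀ (S : Set E3) (ψ : ℝ × ℝ → E3), Chart S ψ C →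
    (∀ p ∈ Q0, ∀ q ∈ Q0, dist p q ≤ C * dist (ψ p) (ψ q)) →
    ∀ (x : ℝ × ℝ) (r δ ε : ℝ), 0 < r → closedBall x (2 * r) ⊆ Q0 → 0 ≤ δ →
      (δ ≤ 1 / 8 → Flat ψ δ x (2 * r)) → 0 < ε → 4 * C * ε ≤ r →
      ∃ (V : Set E3) (p q : ℝ × ℝ), p ∈ closedBall x (2 * r) ∧ q ∈ closedBall x (2 * r) ∧
        Cov S V (ψ p) (ψ q)
          ((μHE[2] (ψ '' closedBall x r)).toReal / (2 * ε) + K * (δ * r ^ 2 / ε + r)) ∧
        ∀ z ∈ closedBall x r, ∃ v ∈ V, Cov S ∅ (ψ z) v ε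

/-- SNAKE: joining the tours of the cells of a grid. -/
def S_SNAKE : Prop := ∀ (S : Set E3) (ψ : ℝ × ℝ → E3) (C : ℝ), Chart S ψ C →
  ∀ (N : ℕ), 1 ≤ N → ∀ (V : ℕ → ℕ → Set E3) (p q : ℕ → ℕ → ℝ × ℝ) (cost : ℕ → ℕ → ℝ),
    (∀ j < N, ∀ k < N, p j k ∈ closedBall (ctr N j k) (1 / N) ∧
      q j k ∈ closedBall (ctr N j k) (1 / N) ∧
      Cov S (V j k) (ψ (p j k)) (ψ (q j k)) (cost j k)) →
    ∃ a b : E3, Cov S (⋃ j ∈ Finset.range N, ⋃ k ∈ Finset.range N, V j k) a b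
      (∑ j ∈ Finset.range N, ∑ k ∈ Finset.range N, cost j k + 8 * C * N)

/-- LOW: the lower bound for one curve, with pieces of different flatness. -/
def S_LOW : Prop := ∀ (κ : Type) (_ : Fintype κ) (S : Set E3) (P : κ → Set E3) (τ : κ → E3 → P2)
    (δ m : κ → ℝ) (ℓ θ ε Λ : ℝ) (γ : ℝ → E3),
    (∀ k, 0 ≤ δ k) → (∀ k, 0 ≤ m k) →
    (∀ k, δ k ≤ 1 / 8 → FlatPiece (4 * δ k) (P k) (τ k)) →
    (∀ k, μHE[2] (P k) ≤ ENNReal.ofReal (m k)) →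
    0 < ℓ → 0 < ε → 0 < θ → 0 ≤ Λ →
    (∀ y ∈ S, ∃ k, ∀ w ∈ S, dist w y ≤ ℓ + ε * (1 + θ) → w ∈ P k) →
    ContinuousOn γ (Icc 0 1) → (∀ t ∈ Icc (0 : ℝ) 1, γ t ∈ S) →
    eVariationOn γ (Icc 0 1) ≤ ENNReal.ofReal Λ →
    (∀ x ∈ S, ∃ t ∈ Icc (0 : ℝ) 1, dist x (γ t) ≤ ε) →
    μHE[2] S ≤ ENNReal.ofReal ((Λ / ℓ + 1) *
      (Real.pi * (ε * (1 + θ)) ^ 2 + 2 * (ε * (1 + θ)) * ℓ) + 10 * ∑ k, δ k * m k)

/-- CONV: a convex function is close to an affine one on a square in terms of second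
differences. -/
def S_CONV : Prop := ∀ (G : ℝ × ℝ → ℝ), ConvexOn ℝ univ G → ∀ (x : ℝ × ℝ) (ρ : ℝ), 0 < ρ →
  ∃ l : ℝ × ℝ →L[ℝ] ℝ, (∀ y, G x + l (y - x) ≤ G y) ∧
    ∀ p ∈ closedBall x ρ, ∀ q ∈ closedBall x ρ,
      |G p - G q - l (p - q)| ≤ D2 G x (2 * ρ) / ρ * dist p q

/-- SUM: the second differences of a Lipschitz function, summed over the grid, telescope. -/
def S_SUM : Prop := ∀ (G : ℝ × ℝ → ℝ) (Λ : ℝ), 0 ≤ Λ →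
  (∀ p q, |G p - G q| ≤ Λ * dist p q) → ∀ N : ℕ, 1 ≤ N →
    ∑ j ∈ Finset.range N, ∑ k ∈ Finset.range N, D2 G (ctr N j k) (2 / N) ≤ 64 * Λ

/-- ANTI: the radial charts are bi-Lipschitz. -/
def S_ANTI : Prop := ∀ R L : ℝ, ∃ C : ℝ, 1 ≤ C ∧ ∀ g : E3 → ℝ, GaugeData g R L →
  ∀ (z0 : E3) (i : Fin 3) (s : ℝ), |s| = 1 →
    (∀ p ∈ Q0, ∀ q ∈ Q0, dist (rch g z0 i s p) (rch g z0 i s q) ≤ C * dist p q) ∧
    (∀ p ∈ Q0, ∀ q ∈ Q0, dist p q ≤ C * dist (rch g z0 i s p) (rch g z0 i s q))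

/-- LOCS: the radial charts cover a neighbourhood of fixed size of the image of the inner
square. -/
def S_LOCS : Prop := ∀ R L : ℝ, ∃ ρ : ℝ, 0 < ρ ∧ ∀ g : E3 → ℝ, GaugeData g R L →
  ∀ (z0 : E3) (i : Fin 3) (s : ℝ), |s| = 1 →
    ∀ z ∈ closedBall (0 : ℝ × ℝ) (1 / 2), ∀ w : E3, g (w - z0) = 1 →
      dist w (rch g z0 i s z) ≤ ρ → ∃ z' ∈ Q0, rch g z0 i s z' = w

/-- RAD: total non-flatness of a radial chart over the grid. -/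
def S_RAD : Prop := ∀ R L : ℝ, ∃ K : ℝ, 0 ≤ K ∧ ∀ g : E3 → ℝ, GaugeData g R L →
  ∀ (z0 : E3) (i : Fin 3) (s : ℝ), |s| = 1 → ∀ N : ℕ, 1 ≤ N → ∃ δ : ℕ → ℕ → ℝ,
    (∀ j k, 0 ≤ δ j k) ∧
    ∑ j ∈ Finset.range N, ∑ k ∈ Finset.range N, δ j k ≤ K * N ∧
    ∀ j < N, ∀ k < N, δ j k ≤ 1 / 8 → Flat (rch g z0 i s) (δ j k) (ctr N j k) (1 / N)

end Pool.Agent.Y209.DC
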