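import Pool.Agent.Y209.DC.Cells

set_option autoImplicit false
open MeasureTheory Set Metric
open scoped ENNReal NNReal
open Pool.Agent.H985.Dense

namespace Pool.Agent.Y209.DC

variable {S : Set E3} {ψ : ℝ × ℝ → E3} {C : ℝ}

lemma half_sub_Q0 : closedBall (0 : ℝ × ℝ) (1 / 2) ⊆ Q0 :=
  closedBall_subset_closedBall (by norm_num)

lemma img_ne_top (h : Chart S ψ C) {s : Set (ℝ × ℝ)} (hs : s ⊆ Q0) : μHE[2] (ψ '' s) ≠ ⊤ := by
  obtain ⟨c, hc⟩ := HE_prod
  refine ne_top_of_le_ne_top ?_ (h.HE_image_le hc hs)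
  apply ENNReal.mul_ne_top ENNReal.ofReal_ne_top
  exact ne_top_of_le_ne_top measure_closedBall_lt_top.ne (measure_mono hs)

lemma img_closed_le (h : Chart S ψ C) {x : ℝ × ℝ} {r : ℝ} (hs : closedBall x r ⊆ Q0) :
    μHE[2] (ψ '' closedBall x r) ≤ μHE[2] (ψ '' ball x r) := by
  obtain ⟨c, hc⟩ := HE_prod
  have e : closedBall x r = ball x r ∪ sphere x r := ball_union_sphere.symm
  have hsp : sphere x r ⊆ Q0 := sphere_subset_closedBall.trans hs
  have h0 : μHE[2] (ψ '' sphere x r) ≤ 0 := by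
    refine (h.HE_image_le hc hsp).trans ?_
    rw [Measure.addHaar_sphere volume x r, mul_zero]
  calc μHE[2] (ψ '' closedBall x r) = μHE[2] (ψ '' ball x r ∪ ψ '' sphere x r) := by
        rw [← image_union, ← e]
    _ ≤ μHE[2] (ψ '' ball x r) + μHE[2] (ψ '' sphere x r) := measure_union_le _ _
    _ ≤ μHE[2] (ψ '' ball x r) + 0 := by gcongr
    _ = _ := add_zero _

lemma injOn_of_anti (hanti : ∀ p ∈ Q0, ∀ q ∈ Q0, dist p q ≤ C * dist (ψ p) (ψ q)) :
    InjOn ψ Q0 := by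
  intro p hp q hq hpq
  have := hanti p hp q hq
  rw [hpq, dist_self, mul_zero] at this
  exact dist_le_zero.mp this

lemma meas_img (h : Chart S ψ C)
    (hanti : ∀ p ∈ Q0, ∀ q ∈ Q0, dist p q ≤ C * dist (ψ p) (ψ q)) {s : Set (ℝ × ℝ)}
    (hs : s ⊆ Q0) (hm : MeasurableSet s) : MeasurableSet (ψ '' s) :=
  hm.image_of_continuousOn_injOn (h.lipOn.continuousOn.mono hs) ((injOn_of_anti hanti).mono hs)

lemma sum_cells (h : Chart S ψ C)
    (hanti : ∀ p ∈ Q0, ∀ q ∈ Q0, dist p q ≤ C * dist (ψ p) (ψ q)) {N : ℕ} (hN : 1 ≤ N) :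
    ∑ j ∈ Finset.range N, ∑ k ∈ Finset.range N,
      (μHE[2] (ψ '' closedBall (ctr N j k) (1 / (2 * N)))).toReal ≤
      (μHE[2] (ψ '' ball (0 : ℝ × ℝ) (1 / 2))).toReal := by
  classical
  have hN0 : (0 : ℝ) < N := by exact_mod_cast hN
  have hsub : ∀ j < N, ∀ k < N, closedBall (ctr N j k) (1 / (2 * N)) ⊆ Q0 := by
    intro j hj k hk
    refine (closedBall_subset_closedBall ?_).trans (cell_sub_Q0 hN hj hk)
    apply one_div_le_one_div_of_le hN0
    linarith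
  have hb : ball (0 : ℝ × ℝ) (1 / 2) ⊆ Q0 := ball_subset_closedBall.trans half_sub_Q0
  rw [← Finset.sum_product']
  have h1 : ∀ p ∈ Finset.range N ×ˢ Finset.range N,
      (μHE[2] (ψ '' closedBall (ctr N p.1 p.2) (1 / (2 * N)))).toReal ≤
        (μHE[2] (ψ '' ball (ctr N p.1 p.2) (1 / (2 * N)))).toReal := by
    intro p hp
    rw [Finset.mem_product, Finset.mem_range, Finset.mem_range] at hp
    exact ENNReal.toReal_mono (img_ne_top h (ball_subset_closedBall.trans (hsub _ hp.1 _ hp.2)))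
      (img_closed_le h (hsub _ hp.1 _ hp.2))
  refine (Finset.sum_le_sum h1).trans ?_
  rw [← ENNReal.toReal_sum]
  · apply ENNReal.toReal_mono (img_ne_top h hb)
    rw [← measure_biUnion_finset]
    · apply measure_mono
      apply iUnion₂_subset
      intro p hp
      rw [Finset.mem_product, Finset.mem_range, Finset.mem_range] at hp
      exact image_mono (cell_sub_half hN hp.1 hp.2)
    · intro p hp q hq hpq
      rw [Finset.mem_coe, Finset.mem_product, Finset.mem_range, Finset.mem_range] at hp hq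
      rw [Function.onFun, disjoint_left]
      rintro _ ⟨x, hx, rfl⟩ ⟨y, hy, hxy⟩
      have hxQ := hsub _ hp.1 _ hp.2 (ball_subset_closedBall hx)
      have hyQ := hsub _ hq.1 _ hq.2 (ball_subset_closedBall hy)
      have := injOn_of_anti hanti hyQ hxQ hxy
      subst this
      obtain ⟨e1, e2⟩ := cell_disj hN hx hy
      exact hpq (Prod.ext e1 e2)
    · intro p hp
      rw [Finset.mem_product, Finset.mem_range, Finset.mem_range] at hp
      exact meas_img h hanti (ball_subset_closedBall.trans (hsub _ hp.1 _ hp.2))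
        measurableSet_ball
  · intro p hp
    rw [Finset.mem_product, Finset.mem_range, Finset.mem_range] at hp
    exact img_ne_top h (ball_subset_closedBall.trans (hsub _ hp.1 _ hp.2))

/-- Tour of one chart. -/
lemma chart_up (hP : S_PATCH) (hSn : S_SNAKE) {C K0 : ℝ} (hC : 1 ≤ C) (hK0 : 0 ≤ K0) :
    ∃ K : ℝ, 0 ≤ K ∧ ∀ (S : Set E3) (ψ : ℝ × ℝ → E3), Chart S ψ C →
      (∀ p ∈ Q0, ∀ q ∈ Q0, dist p q ≤ C * dist (ψ p) (ψ q)) →
      (∀ N : ℕ, 1 ≤ N → ∃ δ : ℕ → ℕ → ℝ, (∀ j k, 0 ≤ δ j k) ∧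
        ∑ j ∈ Finset.range N, ∑ k ∈ Finset.range N, δ j k ≤ K0 * N ∧
        ∀ j < N, ∀ k < N, δ j k ≤ 1 / 8 → Flat ψ (δ j k) (ctr N j k) (1 / N)) →
      ∀ ε : ℝ, 0 < ε → √ε ≤ 1 / (16 * C) → ∃ (V : Set E3) (p q : E3),
        Cov S V p q ((μHE[2] (ψ '' ball (0 : ℝ × ℝ) (1 / 2))).toReal / (2 * ε) + K / √ε) ∧
        ∀ z ∈ closedBall (0 : ℝ × ℝ) (1 / 2), ∃ v ∈ V, Cov S ∅ (ψ z) v ε := by
  classical
  obtain ⟨K1, hK1, hP⟩ := hP C hC
  refine ⟨K1 * (K0 + 1) + 16 * C, by positivity, ?_⟩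
  intro S ψ hch hanti hflat ε hε hε1
  obtain ⟨t, ht⟩ : ∃ t, t = √ε := ⟨_, rfl⟩
  have ht0 : 0 < t := by rw [ht]; exact Real.sqrt_pos.mpr hε
  have htt : ε = t ^ 2 := by rw [ht, Real.sq_sqrt hε.le]
  rw [← ht] at hε1 ⊢
  have hC0 : 0 < C := by linarith
  have ht1 : t ≤ 1 := by
    refine hε1.trans ?_
    rw [div_le_one (by positivity)]; linarith
  have htC : 16 * C * t ≤ 1 := by
    rw [le_div_iff₀ (by positivity)] at hε1; linarith
  obtain ⟨N, hN⟩ : ∃ N : ℕ, N = ⌈1 / t⌉₊ := ⟨_, rfl⟩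
  have hNpos : 0 < N := by rw [hN]; exact Nat.ceil_pos.mpr (by positivity)
  have hN1 : 1 / t ≤ N := by rw [hN]; exact Nat.le_ceil _
  have hN2 : (N : ℝ) ≤ 2 / t := by
    have h1 : (N : ℝ) ≤ 1 / t + 1 := by rw [hN]; exact (Nat.ceil_lt_add_one (by positivity)).le
    have h2 : 1 ≤ 1 / t := by rw [le_div_iff₀ ht0]; linarith
    have e : 2 / t = 1 / t + 1 / t := by ring
    linarith
  have hN0 : (0 : ℝ) < N := by exact_mod_cast hNpos
  obtain ⟨δ, hδ0, hδs, hδf⟩ := hflat N hNpos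
  obtain ⟨r, hr⟩ : ∃ r : ℝ, r = 1 / (2 * N) := ⟨_, rfl⟩
  have hr0 : 0 < r := by rw [hr]; positivity
  have h2r : 2 * r = 1 / N := by rw [hr]; field_simp
  have h4C : 4 * C * ε ≤ r := by
    rw [hr, le_div_iff₀ (by positivity), htt]
    have h1 : t * N ≤ 2 := by
      have := mul_le_mul_of_nonneg_left hN2 ht0.le
      rw [mul_div_cancel₀ _ ht0.ne'] at this
      exact this
    calc 4 * C * t ^ 2 * (2 * N) = 8 * C * t * (t * N) := by ring
      _ ≤ 8 * C * t * 2 := by gcongr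
      _ = 16 * C * t := by ring
      _ ≤ 1 := htC
  have hcell : ∀ j k, ∃ (V : Set E3) (p q : ℝ × ℝ), j < N → k < N →
      (p ∈ closedBall (ctr N j k) (1 / N) ∧ q ∈ closedBall (ctr N j k) (1 / N) ∧
        Cov S V (ψ p) (ψ q) ((μHE[2] (ψ '' closedBall (ctr N j k) r)).toReal / (2 * ε) +
          K1 * (δ j k * r ^ 2 / ε + r))) ∧
        ∀ z ∈ closedBall (ctr N j k) r, ∃ v ∈ V, Cov S ∅ (ψ z) v ε := by
    intro j k
    by_cases hjk : j < N ∧ k < N
    · obtain ⟨V, p, q, h1, h2, h3, h4⟩ := hP S ψ hch hanti (ctr N j k) r (δ j k) ε hr0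
        (by rw [h2r]; exact cell_sub_Q0 hNpos hjk.1 hjk.2) (hδ0 j k)
        (fun hd => by rw [h2r]; exact hδf j hjk.1 k hjk.2 hd) hε h4C
      rw [h2r] at h1 h2
      exact ⟨V, p, q, fun _ _ => ⟨⟨h1, h2, h3⟩, h4⟩⟩
    · exact ⟨∅, 0, 0, fun hj hk => absurd ⟨hj, hk⟩ hjk⟩
  choose V p q hV using hcell
  obtain ⟨a, b, hab⟩ := hSn S ψ C hch N hNpos V p q
    (fun j k => (μHE[2] (ψ '' closedBall (ctr N j k) r)).toReal / (2 * ε) +
          K1 * (δ j k * r ^ 2 / ε + r)) (fun j hj k hk => (hV j k hj hk).1)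
  refine ⟨_, a, b, hab.mono ?_, ?_⟩
  · have hs : ∑ j ∈ Finset.range N, ∑ k ∈ Finset.range N,
        ((μHE[2] (ψ '' closedBall (ctr N j k) r)).toReal / (2 * ε) +
          K1 * (δ j k * r ^ 2 / ε + r)) =
        (∑ j ∈ Finset.range N, ∑ k ∈ Finset.range N,
          (μHE[2] (ψ '' closedBall (ctr N j k) r)).toReal) / (2 * ε) +
        K1 * ((∑ j ∈ Finset.range N, ∑ k ∈ Finset.range N, δ j k) * (r ^ 2 / ε) +
          N * (N * r)) := by
      simp only [Finset.sum_add_distrib, ← Finset.mul_sum, Finset.sum_div, Finset.sum_mul,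
        Finset.sum_const, Finset.card_range, nsmul_eq_mul, mul_div_assoc]
    rw [hs]
    have h1 := sum_cells hch hanti hNpos
    rw [← hr] at h1
    have h2 : (∑ j ∈ Finset.range N, ∑ k ∈ Finset.range N,
          (μHE[2] (ψ '' closedBall (ctr N j k) r)).toReal) / (2 * ε) ≤
          (μHE[2] (ψ '' ball (0 : ℝ × ℝ) (1 / 2))).toReal / (2 * ε) := by
      gcongr
    have h3 : (∑ j ∈ Finset.range N, ∑ k ∈ Finset.range N, δ j k) * (r ^ 2 / ε) ≤ K0 / t := by
      have h4 : (∑ j ∈ Finset.range N, ∑ k ∈ Finset.range N, δ j k) * (r ^ 2 / ε) ≤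
          K0 * N * (r ^ 2 / ε) := by gcongr
      refine h4.trans ?_
      rw [hr, htt]
      have e : K0 * N * ((1 / (2 * (N : ℝ))) ^ 2 / t ^ 2) = (K0 / t) * (1 / (4 * (N * t))) := by
        field_simp
        ring
      rw [e]
      have h5 : 1 ≤ N * t := by
        have := mul_le_mul_of_nonneg_right hN1 ht0.le
        rwa [div_mul_cancel₀ _ ht0.ne'] at this
      have h6 : 1 / (4 * (N * t)) ≤ 1 := by
        rw [div_le_one (by positivity)]; linarith
      have h7 : 0 ≤ K0 / t := by positivity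
      nlinarith
    have h8 : (N : ℝ) * (N * r) ≤ 1 / t := by
      have e : (N : ℝ) * (N * r) = N / 2 := by rw [hr]; field_simp
      rw [e]
      have e2 : (1 : ℝ) / t = 2 / t / 2 := by ring
      rw [e2]; gcongr
    have h9 : 8 * C * N ≤ 16 * C / t := by
      have := mul_le_mul_of_nonneg_left hN2 (by positivity : 0 ≤ 8 * C)
      refine this.trans (le_of_eq ?_)
      ring
    have h10 : K1 * ((∑ j ∈ Finset.range N, ∑ k ∈ Finset.range N, δ j k) * (r ^ 2 / ε) +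
          N * (N * r)) ≤ K1 * (K0 / t + 1 / t) := by gcongr
    have e3 : (K1 * (K0 + 1) + 16 * C) / t = K1 * (K0 / t + 1 / t) + 16 * C / t := by ring
    rw [e3]
    linarith
  · intro z hz
    obtain ⟨j, hj, k, hk, hzc⟩ := cell_cover hNpos hz
    rw [← hr] at hzc
    obtain ⟨v, hv, hcv⟩ := (hV j k hj hk).2 z hzc
    refine ⟨v, ?_, hcv⟩
    rw [mem_iUnion₂]
    refine ⟨j, Finset.mem_range.mpr hj, ?_⟩
    rw [mem_iUnion₂]
    exact ⟨k, Finset.mem_range.mpr hk, hv⟩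

end Pool.Agent.Y209.DC
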